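import Mathlib

set_option autoImplicit false

namespace Pool.Agent.MP4c9d8f

/-- `S ⊂ ℝ^m` is admissible: for every hyperplane `{l = c}` (with `l` a nonzero linear functional)
through `m` affinely independent points of `S`, at most `[(n-1)/m]` values of `l` on `S` are larger
than `c` and at most `[(n-1)/m]` are smaller than `c`, where `n = |S|`. -/
def Admissible {m : ℕ} (S : Finset (Fin m → ℝ)) : Prop :=
  ∀ p : Fin m → (Fin m → ℝ), (∀ i, p i ∈ S) → AffineIndependent ℝ p →
    ∀ (l : (Fin m → ℝ) →ₗ[ℝ] ℝ) (c : ℝ), l ≠ 0 → (∀ i, l (p i) = c) →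
      max (l '' {s | s ∈ S ∧ c < l s}).ncard (l '' {s | s ∈ S ∧ l s < c}).ncard ≤ (S.card - 1) / m

/-- no `m + 1` points of `S` lie on a hyperplane -/
def GeneralPosition {m : ℕ} (S : Finset (Fin m → ℝ)) : Prop :=
  ∀ T ⊆ S, T.card = m + 1 → AffineIndependent ℝ (fun x : T => (x : Fin m → ℝ))

/-- `S` is a union of two disjoint subsets of the same size and with the same sum (so with the
same centroid) -/
def Balanced {m : ℕ} (S : Finset (Fin m → ℝ)) : Prop :=
  ∃ T ⊆ S, 2 * T.card = S.card ∧ ∃ T' ⊆ S, Disjoint T T' ∧ T'.card = T.card ∧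
    ∑ x ∈ T, x = ∑ x ∈ T', x

/-- the vertex set of the regular `k`-gon inscribed in the unit circle -/
def regularPolygon (k : ℕ) : Set (Fin 2 → ℝ) :=
  Set.range fun j : Fin k =>
    ![Real.cos (2 * Real.pi * (j : ℕ) / k), Real.sin (2 * Real.pi * (j : ℕ) / k)]

/-- the image of the vertex set of a regular `k`-gon under an invertible affine map -/
def IsAffinelyRegular (k : ℕ) (X : Set (Fin 2 → ℝ)) : Prop :=
  ∃ Φ : (Fin 2 → ℝ) ≃ᵃ[ℝ] (Fin 2 → ℝ), X = Φ '' regularPolygon k

end Pool.Agent.MP4c9d8f
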