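import Mathlib

set_option autoImplicit false

open Finset

namespace Pool.Agent.MP4c9d8f

/-! ### Abstract structure of the level sizes -/

theorem sizes_pair (L h : ℕ) (s : Fin L → ℕ) (h1 : ∀ j, s j = 1 ∨ s j = 2)
    (hsum : ∑ j, s j = 2 * h)
    (hp : ∀ j : Fin L, s j = 2 → (j : ℕ) < h ∧ L - 1 - (j : ℕ) < h) :
    ∀ j : Fin L, (j : ℕ) < h → L - 1 - (j : ℕ) < h → s j = 2 := by
  classical
  set P : Finset (Fin L) := univ.filter (fun j => s j = 2) with hP
  set I : Finset (Fin L) := univ.filter (fun j => (j : ℕ) < h ∧ L - 1 - (j : ℕ) < h) with hI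
  have hPI : P ⊆ I := by
    intro j hj
    rw [hP, mem_filter] at hj
    rw [hI, mem_filter]
    exact ⟨mem_univ _, hp j hj.2⟩
  have hcardP : L + P.card = 2 * h := by
    rw [← hsum]
    have e : ∀ j, s j = 1 + (if s j = 2 then 1 else 0) := by
      intro j
      rcases h1 j with h | h <;> simp [h]
    rw [Finset.sum_congr rfl (fun j _ => e j), Finset.sum_add_distrib, hP, Finset.card_filter]
    simp
  have hPL : P.card ≤ L := by
    calc P.card ≤ (univ : Finset (Fin L)).card := card_le_card (subset_univ _)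
      _ = L := by simp
  have hLh : h ≤ L := by omega
  have hcardI : I.card ≤ 2 * h - L := by
    have hsub : I.map Fin.valEmbedding ⊆ Finset.Ico (L - h) h := by
      intro k hk
      rw [mem_map] at hk
      obtain ⟨j, hj, rfl⟩ := hk
      rw [hI, mem_filter] at hj
      rw [mem_Ico]
      have := j.2
      simp only [Fin.valEmbedding_apply]
      omega
    have := card_le_card hsub
    rw [card_map, Nat.card_Ico] at this
    omega
  have hEq : P = I := Finset.eq_of_subset_of_card_le hPI (by omega)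
  intro j hj1 hj2
  have : j ∈ I := by
    rw [hI, mem_filter]; exact ⟨mem_univ _, hj1, hj2⟩
  rw [← hEq, hP, mem_filter] at this
  exact this.2

theorem sizes_rev (L h : ℕ) (s : Fin L → ℕ) (h1 : ∀ j, s j = 1 ∨ s j = 2)
    (hsum : ∑ j, s j = 2 * h)
    (hp : ∀ j : Fin L, s j = 2 → (j : ℕ) < h ∧ L - 1 - (j : ℕ) < h) (j : Fin L) :
    s (Fin.rev j) = s j := by
  have key := sizes_pair L h s h1 hsum hp
  have hj := j.2
  have hr : ((Fin.rev j : Fin L) : ℕ) = L - 1 - (j : ℕ) := by
    rw [Fin.val_rev]; omega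
  rcases h1 j with h | h
  · rcases h1 (Fin.rev j) with h' | h'
    · rw [h, h']
    · exfalso
      have := hp _ h'
      rw [hr] at this
      have := key j (by omega) (by omega)
      omega
  · have := hp _ h
    have := key (Fin.rev j) (by rw [hr]; omega) (by rw [hr]; omega)
    rw [h, this]

theorem sum_Iio_rev (L : ℕ) (s : Fin L → ℕ) (hs : ∀ j, s (Fin.rev j) = s j) (j : Fin L) :
    ∑ i ∈ Finset.Iio (Fin.rev j), s i = ∑ i ∈ Finset.Ioi j, s i := by
  refine Finset.sum_bij' (fun i _ => Fin.rev i) (fun i _ => Fin.rev i) ?_ ?_ ?_ ?_ ?_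
  · intro i hi
    rw [mem_Iio] at hi
    rw [mem_Ioi]
    exact Fin.lt_rev_iff.mp hi
  · intro i hi
    rw [mem_Ioi] at hi
    rw [mem_Iio]
    exact Fin.rev_lt_rev.mpr hi
  · intro i _; simp
  · intro i _; simp
  · intro i _; rw [hs]

theorem sum_Ioi_rev (L : ℕ) (s : Fin L → ℕ) (hs : ∀ j, s (Fin.rev j) = s j) (j : Fin L) :
    ∑ i ∈ Finset.Ioi (Fin.rev j), s i = ∑ i ∈ Finset.Iio j, s i := by
  have := sum_Iio_rev L s hs (Fin.rev j)
  rw [Fin.rev_rev] at this
  exact this.symm

/-! ### Levels of a function on a finite set -/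

variable {V : Type*}

/-- number of points strictly below `x` -/
noncomputable def Alow (S : Finset V) (f : V → ℝ) (x : V) : ℕ := by
  classical exact (S.filter (fun z => f z < f x)).card

/-- number of points strictly above `x` -/
noncomputable def Bup (S : Finset V) (f : V → ℝ) (x : V) : ℕ := by
  classical exact (S.filter (fun z => f x < f z)).card

/-- number of values strictly below -/
noncomputable def dlow (S : Finset V) (f : V → ℝ) (c : ℝ) : ℕ := by
  classical exact ((S.image f).filter (fun v => v < c)).card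

/-- number of values strictly above -/
noncomputable def dup (S : Finset V) (f : V → ℝ) (c : ℝ) : ℕ := by
  classical exact ((S.image f).filter (fun v => c < v)).card

theorem levels (S : Finset V) (f : V → ℝ) (h : ℕ) (hS : S.card = 2 * h)
    (h3 : ∀ x ∈ S, ∀ y ∈ S, ∀ z ∈ S, f x = f y → f y = f z → x = y ∨ y = z ∨ x = z)
    (hp : ∀ x ∈ S, ∀ y ∈ S, x ≠ y → f x = f y → dlow S f (f x) < h ∧ dup S f (f x) < h) :
    (∀ x ∈ S, dlow S f (f x) < h → dup S f (f x) < h → ∃ y ∈ S, y ≠ x ∧ f y = f x) ∧
    (∀ x ∈ S, ∃ x' ∈ S, Alow S f x' = Bup S f x ∧ Bup S f x' = Alow S f x) := by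
  classical
  set T := S.image f with hT
  set L := T.card with hL
  let e : Fin L ≃o T := T.orderIsoOfFin rfl
  let t : Fin L → ℝ := fun j => (e j : ℝ)
  have tmono : StrictMono t := fun a b hab => by
    have : e a < e b := e.strictMono hab
    exact this
  have tmem : ∀ j, t j ∈ T := fun j => (e j).2
  have tsurj : ∀ v ∈ T, ∃ j, t j = v := fun v hv => ⟨e.symm ⟨v, hv⟩, by simp [t]⟩
  let s : Fin L → ℕ := fun j => (S.filter (fun z => f z = t j)).card
  have Tlow : ∀ j : Fin L, T.filter (fun v => v < t j) = (Finset.Iio j).image t := by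
    intro j
    ext v
    rw [mem_filter, mem_image (f := t)]
    constructor
    · rintro ⟨hv, hlt⟩
      obtain ⟨i, rfl⟩ := tsurj v hv
      exact ⟨i, mem_Iio.mpr (tmono.lt_iff_lt.mp hlt), rfl⟩
    · rintro ⟨i, hi, rfl⟩
      exact ⟨tmem i, tmono (mem_Iio.mp hi)⟩
  have Tup : ∀ j : Fin L, T.filter (fun v => t j < v) = (Finset.Ioi j).image t := by
    intro j
    ext v
    rw [mem_filter, mem_image (f := t)]
    constructor
    · rintro ⟨hv, hlt⟩
      obtain ⟨i, rfl⟩ := tsurj v hv
      exact ⟨i, mem_Ioi.mpr (tmono.lt_iff_lt.mp hlt), rfl⟩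
    · rintro ⟨i, hi, rfl⟩
      exact ⟨tmem i, tmono (mem_Ioi.mp hi)⟩
  have dl : ∀ j : Fin L, dlow S f (t j) = j := by
    intro j
    have : dlow S f (t j) = (T.filter (fun v => v < t j)).card := by
      unfold dlow; congr!
    rw [this, Tlow, card_image_of_injective _ tmono.injective, Fin.card_Iio]
  have du : ∀ j : Fin L, dup S f (t j) = L - 1 - j := by
    intro j
    have : dup S f (t j) = (T.filter (fun v => t j < v)).card := by
      unfold dup; congr!
    rw [this, Tup, card_image_of_injective _ tmono.injective, Fin.card_Ioi]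
  have Al : ∀ x ∈ S, ∀ j, f x = t j → Alow S f x = ∑ i ∈ Finset.Iio j, s i := by
    intro x hx j hj
    have : Alow S f x = (S.filter (fun z => f z < f x)).card := by
      unfold Alow; congr!
    rw [this]
    have hm : ∀ z ∈ S.filter (fun z => f z < f x), f z ∈ T.filter (fun v => v < t j) := by
      intro z hz
      rw [mem_filter] at hz ⊢
      exact ⟨mem_image_of_mem _ hz.1, hj ▸ hz.2⟩
    rw [Finset.card_eq_sum_card_fiberwise hm, Tlow, sum_image (fun a _ b _ hab => tmono.injective hab)]
    refine sum_congr rfl (fun i hi => ?_)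
    have : (S.filter (fun z => f z < f x)).filter (fun z => f z = t i) =
        S.filter (fun z => f z = t i) := by
      ext z
      simp only [mem_filter]
      constructor
      · rintro ⟨⟨a, b⟩, c⟩; exact ⟨a, c⟩
      · rintro ⟨a, c⟩; exact ⟨⟨a, by rw [c, hj]; exact tmono (mem_Iio.mp hi)⟩, c⟩
    rw [this]
  have Bu : ∀ x ∈ S, ∀ j, f x = t j → Bup S f x = ∑ i ∈ Finset.Ioi j, s i := by
    intro x hx j hj
    have : Bup S f x = (S.filter (fun z => f x < f z)).card := by
      unfold Bup; congr!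
    rw [this]
    have hm : ∀ z ∈ S.filter (fun z => f x < f z), f z ∈ T.filter (fun v => t j < v) := by
      intro z hz
      rw [mem_filter] at hz ⊢
      exact ⟨mem_image_of_mem _ hz.1, hj ▸ hz.2⟩
    rw [Finset.card_eq_sum_card_fiberwise hm, Tup, sum_image (fun a _ b _ hab => tmono.injective hab)]
    refine sum_congr rfl (fun i hi => ?_)
    have : (S.filter (fun z => f x < f z)).filter (fun z => f z = t i) =
        S.filter (fun z => f z = t i) := by
      ext z
      simp only [mem_filter]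
      constructor
      · rintro ⟨⟨a, b⟩, c⟩; exact ⟨a, c⟩
      · rintro ⟨a, c⟩; exact ⟨⟨a, by rw [c, hj]; exact tmono (mem_Ioi.mp hi)⟩, c⟩
    rw [this]
  have ssum : ∑ j, s j = 2 * h := by
    rw [← hS]
    have hm : ∀ z ∈ S, f z ∈ (univ : Finset (Fin L)).image t := by
      intro z hz
      obtain ⟨j, hj⟩ := tsurj (f z) (mem_image_of_mem _ hz)
      exact mem_image.mpr ⟨j, mem_univ _, hj⟩
    rw [Finset.card_eq_sum_card_fiberwise hm, sum_image (fun a _ b _ hab => tmono.injective hab)]
  have s12 : ∀ j, s j = 1 ∨ s j = 2 := by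
    intro j
    have hpos : 0 < s j := by
      obtain ⟨z, hz, hzj⟩ := mem_image.mp (tmem j)
      exact card_pos.mpr ⟨z, mem_filter.mpr ⟨hz, hzj⟩⟩
    have hle : s j ≤ 2 := by
      by_contra hcon
      push Not at hcon
      obtain ⟨a, ha, b, hb, c, hc, hab, hac, hbc⟩ := Finset.two_lt_card.mp hcon
      rw [mem_filter] at ha hb hc
      rcases h3 a ha.1 b hb.1 c hc.1 (ha.2.trans hb.2.symm) (hb.2.trans hc.2.symm) with h | h | h
      · exact hab h
      · exact hbc h
      · exact hac h
    omega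
  have sp : ∀ j : Fin L, s j = 2 → (j : ℕ) < h ∧ L - 1 - (j : ℕ) < h := by
    intro j hj
    obtain ⟨a, b, hab, hs⟩ := Finset.card_eq_two.mp hj
    have ha : a ∈ S.filter (fun z => f z = t j) := by rw [hs]; simp
    have hb : b ∈ S.filter (fun z => f z = t j) := by rw [hs]; simp
    rw [mem_filter] at ha hb
    have := hp a ha.1 b hb.1 hab (ha.2.trans hb.2.symm)
    rw [ha.2, dl, du] at this
    exact this
  constructor
  · intro x hx h1 h2
    obtain ⟨j, hj⟩ := tsurj (f x) (mem_image_of_mem _ hx)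
    rw [← hj, dl] at h1
    rw [← hj, du] at h2
    have h3 := sizes_pair L h s s12 ssum sp j h1 h2
    have hlt : 1 < (S.filter (fun z => f z = t j)).card := by
      change 1 < s j
      omega
    obtain ⟨y, hy, hyx⟩ := Finset.exists_mem_ne hlt x
    rw [mem_filter] at hy
    exact ⟨y, hy.1, hyx, hy.2.trans hj⟩
  · intro x hx
    obtain ⟨j, hj⟩ := tsurj (f x) (mem_image_of_mem _ hx)
    obtain ⟨x', hx', hj'⟩ := mem_image.mp (tmem (Fin.rev j))
    have hs := sizes_rev L h s s12 ssum sp
    refine ⟨x', hx', ?_, ?_⟩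
    · rw [Al x' hx' _ hj', Bu x hx j hj.symm, sum_Iio_rev L s hs]
    · rw [Bu x' hx' _ hj', Al x hx j hj.symm, sum_Ioi_rev L s hs]

end Pool.Agent.MP4c9d8f
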