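import Mathlib
import Pool.Agent.MP_4c9d8f_co.Levels

set_option autoImplicit false

open Finset Filter Topology

namespace Pool.Agent.MP4c9d8f

/-! ### Rotating directions -/

/-- coordinate along the direction of angle `θ` -/
noncomputable def F (θ : ℝ) (z : ℝ × ℝ) : ℝ := z.1 * Real.cos θ + z.2 * Real.sin θ

/-- coordinate along the direction of angle `θ + π/2` -/
noncomputable def G (θ : ℝ) (z : ℝ × ℝ) : ℝ := -z.1 * Real.sin θ + z.2 * Real.cos θ

theorem F_add (θ : ℝ) (z w : ℝ × ℝ) : F θ (z + w) = F θ z + F θ w := by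
  simp only [F, Prod.fst_add, Prod.snd_add]; ring

theorem F_sub (θ : ℝ) (z w : ℝ × ℝ) : F θ (z - w) = F θ z - F θ w := by
  simp only [F, Prod.fst_sub, Prod.snd_sub]; ring

theorem F_neg (θ : ℝ) (z : ℝ × ℝ) : F θ (-z) = -F θ z := by
  simp only [F, Prod.fst_neg, Prod.snd_neg]; ring

theorem F_zero (θ : ℝ) : F θ 0 = 0 := by simp [F]

theorem G_add (θ : ℝ) (z w : ℝ × ℝ) : G θ (z + w) = G θ z + G θ w := by
  simp only [G, Prod.fst_add, Prod.snd_add]; ring

theorem G_sub (θ : ℝ) (z w : ℝ × ℝ) : G θ (z - w) = G θ z - G θ w := by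
  simp only [G, Prod.fst_sub, Prod.snd_sub]; ring

theorem G_neg (θ : ℝ) (z : ℝ × ℝ) : G θ (-z) = -G θ z := by
  simp only [G, Prod.fst_neg, Prod.snd_neg]; ring

theorem G_zero (θ : ℝ) : G θ 0 = 0 := by simp [G]

theorem F_rot (θ t : ℝ) (z : ℝ × ℝ) :
    F (θ + t) z = F θ z * Real.cos t + G θ z * Real.sin t := by
  simp only [F, G, Real.cos_add, Real.sin_add]; ring

theorem G_rot (θ t : ℝ) (z : ℝ × ℝ) :
    G (θ + t) z = -F θ z * Real.sin t + G θ z * Real.cos t := by
  simp only [F, G, Real.cos_add, Real.sin_add]; ring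

theorem F_rot' (θ θ' : ℝ) (z : ℝ × ℝ) :
    F θ' z = F θ z * Real.cos (θ' - θ) + G θ z * Real.sin (θ' - θ) := by
  have := F_rot θ (θ' - θ) z
  rwa [add_sub_cancel] at this

theorem FG_zero {θ : ℝ} {z : ℝ × ℝ} (h1 : F θ z = 0) (h2 : G θ z = 0) : z = 0 := by
  simp only [F, G] at h1 h2
  have hc := Real.cos_sq_add_sin_sq θ
  ext
  · simp only [Prod.fst_zero]
    linear_combination Real.cos θ * h1 - Real.sin θ * h2 - z.1 * hc
  · simp only [Prod.snd_zero]
    linear_combination Real.sin θ * h1 + Real.cos θ * h2 - z.2 * hc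

theorem F_ext {z w : ℝ × ℝ} (h : ∀ θ, F θ z = F θ w) : z = w := by
  have h0 := h 0
  have h1 := h (Real.pi / 2)
  simp only [F, Real.cos_zero, Real.sin_zero, Real.cos_pi_div_two, Real.sin_pi_div_two] at h0 h1
  ext
  · linarith
  · linarith

theorem F_cont (z : ℝ × ℝ) : Continuous (fun θ => F θ z) := by
  unfold F; fun_prop

/-- the `2×2` determinant -/
def cross (u v : ℝ × ℝ) : ℝ := u.1 * v.2 - u.2 * v.1

theorem cross_of_F {θ : ℝ} {u v : ℝ × ℝ} (h1 : F θ u = 0) (h2 : F θ v = 0) : cross u v = 0 := by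
  simp only [F] at h1 h2
  unfold cross
  have hc := Real.cos_sq_add_sin_sq θ
  linear_combination (-Real.sin θ * v.1 + Real.cos θ * v.2) * h1 +
    (Real.sin θ * u.1 - Real.cos θ * u.2) * h2 - (u.1 * v.2 - u.2 * v.1) * hc

theorem exists_F_zero (θ : ℝ) (w : ℝ × ℝ) : ∃ θ', θ < θ' ∧ θ' ≤ θ + Real.pi ∧ F θ' w = 0 := by
  have hpi := Real.pi_pos
  have hend : F (θ + Real.pi) w = - F θ w := by
    rw [F_rot]; simp
  by_cases h0 : F θ w = 0
  · exact ⟨θ + Real.pi, by linarith, le_refl _, by rw [hend, h0]; simp⟩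
  · have hc : ContinuousOn (fun t => F t w) (Set.uIcc θ (θ + Real.pi)) := (F_cont w).continuousOn
    have := intermediate_value_uIcc hc
    have hm : (0 : ℝ) ∈ Set.uIcc (F θ w) (F (θ + Real.pi) w) := by
      rw [hend, Set.mem_uIcc]
      rcases lt_or_gt_of_ne h0 with h | h
      · left; constructor <;> linarith
      · right; constructor <;> linarith
    obtain ⟨t, ht, ht0⟩ := this hm
    rw [Set.uIcc_of_le (by linarith)] at ht
    have ht0' : F t w = 0 := ht0
    refine ⟨t, lt_of_le_of_ne ht.1 ?_, ht.2, ht0'⟩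
    rintro rfl
    exact h0 ht0'

/-! ### the cone order -/

/-- negative just after `θ` -/
def neg (θ : ℝ) (w : ℝ × ℝ) : Prop := F θ w < 0 ∨ (F θ w = 0 ∧ G θ w < 0)

/-- negative just before `θ` -/
def negm (θ : ℝ) (w : ℝ × ℝ) : Prop := F θ w < 0 ∨ (F θ w = 0 ∧ 0 < G θ w)

theorem ev_right (θ : ℝ) (w : ℝ × ℝ) : ∀ᶠ θ' in 𝓝[>] θ, (neg θ' w ↔ neg θ w) := by
  rcases lt_trichotomy (F θ w) 0 with h | h | h
  · have : ∀ᶠ θ' in 𝓝 θ, F θ' w < 0 := (F_cont w).continuousAt.eventually_lt_const h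
    filter_upwards [this.filter_mono nhdsWithin_le_nhds] with θ' h'
    exact ⟨fun _ => Or.inl h, fun _ => Or.inl h'⟩
  · rcases lt_trichotomy (G θ w) 0 with g | g | g
    · have : ∀ᶠ θ' in 𝓝[>] θ, θ' ∈ Set.Ioo θ (θ + Real.pi) :=
        Ioo_mem_nhdsGT (by linarith [Real.pi_pos])
      filter_upwards [this] with θ' h'
      have hs : 0 < Real.sin (θ' - θ) :=
        Real.sin_pos_of_pos_of_lt_pi (by linarith [h'.1]) (by linarith [h'.2])
      have : F θ' w < 0 := by
        rw [F_rot' θ θ', h]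
        nlinarith
      exact ⟨fun _ => Or.inr ⟨h, g⟩, fun _ => Or.inl this⟩
    · have hw : w = 0 := FG_zero h g
      subst hw
      filter_upwards with θ'
      simp [neg, F_zero, G_zero]
    · have : ∀ᶠ θ' in 𝓝[>] θ, θ' ∈ Set.Ioo θ (θ + Real.pi) :=
        Ioo_mem_nhdsGT (by linarith [Real.pi_pos])
      filter_upwards [this] with θ' h'
      have hs : 0 < Real.sin (θ' - θ) :=
        Real.sin_pos_of_pos_of_lt_pi (by linarith [h'.1]) (by linarith [h'.2])
      have : 0 < F θ' w := by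
        rw [F_rot' θ θ', h]
        nlinarith
      constructor
      · rintro (a | a)
        · linarith
        · linarith [a.1]
      · rintro (a | a)
        · linarith
        · linarith [a.2]
  · have : ∀ᶠ θ' in 𝓝 θ, 0 < F θ' w := (F_cont w).continuousAt.eventually_const_lt h
    filter_upwards [this.filter_mono nhdsWithin_le_nhds] with θ' h'
    constructor
    · rintro (a | a)
      · linarith
      · linarith [a.1]
    · rintro (a | a)
      · linarith
      · linarith [a.1]

theorem ev_left (θ : ℝ) (w : ℝ × ℝ) : ∀ᶠ θ' in 𝓝[<] θ, (neg θ' w ↔ negm θ w) := by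
  rcases lt_trichotomy (F θ w) 0 with h | h | h
  · have : ∀ᶠ θ' in 𝓝 θ, F θ' w < 0 := (F_cont w).continuousAt.eventually_lt_const h
    filter_upwards [this.filter_mono nhdsWithin_le_nhds] with θ' h'
    exact ⟨fun _ => Or.inl h, fun _ => Or.inl h'⟩
  · rcases lt_trichotomy (G θ w) 0 with g | g | g
    · have : ∀ᶠ θ' in 𝓝[<] θ, θ' ∈ Set.Ioo (θ - Real.pi) θ :=
        Ioo_mem_nhdsLT (by linarith [Real.pi_pos])
      filter_upwards [this] with θ' h'
      have hs : Real.sin (θ' - θ) < 0 :=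
        Real.sin_neg_of_neg_of_neg_pi_lt (by linarith [h'.2]) (by linarith [h'.1])
      have : 0 < F θ' w := by
        rw [F_rot' θ θ', h]
        nlinarith
      constructor
      · rintro (a | a)
        · linarith
        · linarith [a.1]
      · rintro (a | a)
        · linarith
        · linarith [a.2]
    · have hw : w = 0 := FG_zero h g
      subst hw
      filter_upwards with θ'
      simp [neg, negm, F_zero, G_zero]
    · have : ∀ᶠ θ' in 𝓝[<] θ, θ' ∈ Set.Ioo (θ - Real.pi) θ :=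
        Ioo_mem_nhdsLT (by linarith [Real.pi_pos])
      filter_upwards [this] with θ' h'
      have hs : Real.sin (θ' - θ) < 0 :=
        Real.sin_neg_of_neg_of_neg_pi_lt (by linarith [h'.2]) (by linarith [h'.1])
      have : F θ' w < 0 := by
        rw [F_rot' θ θ', h]
        nlinarith
      exact ⟨fun _ => Or.inr ⟨h, g⟩, fun _ => Or.inl this⟩
  · have : ∀ᶠ θ' in 𝓝 θ, 0 < F θ' w := (F_cont w).continuousAt.eventually_const_lt h
    filter_upwards [this.filter_mono nhdsWithin_le_nhds] with θ' h'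
    constructor
    · rintro (a | a)
      · linarith
      · linarith [a.1]
    · rintro (a | a)
      · linarith
      · linarith [a.1]

/-- rank just after `θ` -/
noncomputable def rk (S : Finset (ℝ × ℝ)) (θ : ℝ) (x : ℝ × ℝ) : ℕ := by
  classical exact (S.filter (fun z => neg θ (z - x))).card

/-- rank just before `θ` -/
noncomputable def rkm (S : Finset (ℝ × ℝ)) (θ : ℝ) (x : ℝ × ℝ) : ℕ := by
  classical exact (S.filter (fun z => negm θ (z - x))).card

theorem rk_right (S : Finset (ℝ × ℝ)) (θ : ℝ) (x : ℝ × ℝ) :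
    ∀ᶠ θ' in 𝓝[>] θ, rk S θ' x = rk S θ x := by
  classical
  have : ∀ᶠ θ' in 𝓝[>] θ, ∀ z ∈ S, (neg θ' (z - x) ↔ neg θ (z - x)) := by
    rw [Filter.eventually_all_finset]
    intro z _
    exact ev_right θ (z - x)
  filter_upwards [this] with θ' h'
  unfold rk
  congr 1
  ext z
  simp only [mem_filter]
  constructor
  · rintro ⟨a, b⟩; exact ⟨a, (h' z a).mp b⟩
  · rintro ⟨a, b⟩; exact ⟨a, (h' z a).mpr b⟩

theorem rk_left (S : Finset (ℝ × ℝ)) (θ : ℝ) (x : ℝ × ℝ) :
    ∀ᶠ θ' in 𝓝[<] θ, rk S θ' x = rkm S θ x := by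
  classical
  have : ∀ᶠ θ' in 𝓝[<] θ, ∀ z ∈ S, (neg θ' (z - x) ↔ negm θ (z - x)) := by
    rw [Filter.eventually_all_finset]
    intro z _
    exact ev_left θ (z - x)
  filter_upwards [this] with θ' h'
  unfold rk rkm
  congr 1
  ext z
  simp only [mem_filter]
  constructor
  · rintro ⟨a, b⟩; exact ⟨a, (h' z a).mp b⟩
  · rintro ⟨a, b⟩; exact ⟨a, (h' z a).mpr b⟩

/-- The sweep principle: a property of the ranks of `x`, `y` which is the same just before and just
after every angle strictly between `a` and `b` is the same just after `a` and just before `b`. -/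
theorem sweep (S : Finset (ℝ × ℝ)) (x y : ℝ × ℝ) (P : ℕ → ℕ → Prop) {a b : ℝ} (hab : a < b)
    (h : ∀ θ ∈ Set.Ioo a b, (P (rkm S θ x) (rkm S θ y) ↔ P (rk S θ x) (rk S θ y))) :
    (∀ θ ∈ Set.Ioo a b, (P (rk S θ x) (rk S θ y) ↔ P (rk S a x) (rk S a y))) ∧
    (P (rk S a x) (rk S a y) ↔ P (rkm S b x) (rkm S b y)) := by
  classical
  set f : ℝ → Bool := fun θ => decide (P (rk S θ x) (rk S θ y)) with hf
  have hcont : ContinuousOn f (Set.Ioo a b) := by
    intro θ hθ
    have h1 : ∀ᶠ θ' in 𝓝[>] θ, f θ' = f θ := by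
      filter_upwards [rk_right S θ x, rk_right S θ y] with θ' e1 e2
      simp only [hf, e1, e2]
    have h2 : ∀ᶠ θ' in 𝓝[<] θ, f θ' = f θ := by
      filter_upwards [rk_left S θ x, rk_left S θ y] with θ' e1 e2
      simp only [hf, e1, e2, h θ hθ]
    have h3 : ∀ᶠ θ' in 𝓝 θ, f θ' = f θ := by
      rw [← nhdsNE_sup_pure, ← nhdsLT_sup_nhdsGT, Filter.eventually_sup, Filter.eventually_sup]
      exact ⟨⟨h2, h1⟩, by simp⟩
    have : ContinuousAt f θ := by
      have hc : ContinuousAt (fun _ : ℝ => f θ) θ := continuousAt_const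
      exact hc.congr (h3.mono fun _ h => h.symm)
    exact this.continuousWithinAt
  have hconst : ∀ θ ∈ Set.Ioo a b, ∀ θ' ∈ Set.Ioo a b, f θ = f θ' := fun θ hθ θ' hθ' =>
    isPreconnected_Ioo.constant hcont hθ hθ'
  have hP : ∀ θ ∈ Set.Ioo a b, ∀ θ' ∈ Set.Ioo a b,
      (P (rk S θ x) (rk S θ y) ↔ P (rk S θ' x) (rk S θ' y)) := by
    intro θ hθ θ' hθ'
    have := hconst θ hθ θ' hθ'
    simp only [hf, decide_eq_decide] at this
    exact this
  obtain ⟨θa, ha1, ha2, ha3⟩ : ∃ θ', θ' ∈ Set.Ioo a b ∧ rk S θ' x = rk S a x ∧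
      rk S θ' y = rk S a y := by
    have : ∀ᶠ θ' in 𝓝[>] a, θ' ∈ Set.Ioo a b := Ioo_mem_nhdsGT hab
    exact (this.and ((rk_right S a x).and (rk_right S a y))).exists
  obtain ⟨θb, hb1, hb2, hb3⟩ : ∃ θ', θ' ∈ Set.Ioo a b ∧ rk S θ' x = rkm S b x ∧
      rk S θ' y = rkm S b y := by
    have : ∀ᶠ θ' in 𝓝[<] b, θ' ∈ Set.Ioo a b := Ioo_mem_nhdsLT hab
    exact (this.and ((rk_left S b x).and (rk_left S b y))).exists
  constructor
  · intro θ hθ
    rw [hP θ hθ θa ha1, ha2, ha3]
  · rw [← ha2, ← ha3, ← hb2, ← hb3]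
    exact hP _ ha1 _ hb1

/-! ### Elementary properties of the cones -/

theorem neg_add {θ : ℝ} {u v : ℝ × ℝ} (hu : neg θ u) (hv : neg θ v) : neg θ (u + v) := by
  unfold neg at *
  rw [F_add, G_add]
  rcases hu with h1 | h1 <;> rcases hv with h2 | h2
  · left; linarith
  · left; linarith [h2.1]
  · left; linarith [h1.1]
  · right; exact ⟨by linarith [h1.1, h2.1], by linarith [h1.2, h2.2]⟩

theorem not_neg_zero (θ : ℝ) : ¬ neg θ 0 := by
  simp [neg, F_zero, G_zero]

theorem negm_add {θ : ℝ} {u v : ℝ × ℝ} (hu : negm θ u) (hv : negm θ v) : negm θ (u + v) := by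
  unfold negm at *
  rw [F_add, G_add]
  rcases hu with h1 | h1 <;> rcases hv with h2 | h2
  · left; linarith
  · left; linarith [h2.1]
  · left; linarith [h1.1]
  · right; exact ⟨by linarith [h1.1, h2.1], by linarith [h1.2, h2.2]⟩

theorem not_negm_zero (θ : ℝ) : ¬ negm θ 0 := by
  simp [negm, F_zero, G_zero]

theorem neg_or {θ : ℝ} {u : ℝ × ℝ} (hu : u ≠ 0) : neg θ u ∨ neg θ (-u) := by
  unfold neg
  rw [F_neg, G_neg]
  rcases lt_trichotomy (F θ u) 0 with h | h | h
  · left; left; exact h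
  · rcases lt_trichotomy (G θ u) 0 with g | g | g
    · left; right; exact ⟨h, g⟩
    · exact absurd (FG_zero h g) hu
    · right; right; constructor <;> linarith
  · right; left; linarith

theorem negm_or {θ : ℝ} {u : ℝ × ℝ} (hu : u ≠ 0) : negm θ u ∨ negm θ (-u) := by
  unfold negm
  rw [F_neg, G_neg]
  rcases lt_trichotomy (F θ u) 0 with h | h | h
  · left; left; exact h
  · rcases lt_trichotomy (G θ u) 0 with g | g | g
    · right; right; constructor <;> linarith
    · exact absurd (FG_zero h g) hu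
    · left; right; exact ⟨h, g⟩
  · right; left; linarith

theorem not_neg_neg {θ : ℝ} {u : ℝ × ℝ} (hu : neg θ u) : ¬ neg θ (-u) := by
  intro h
  have := neg_add hu h
  rw [add_neg_cancel] at this
  exact not_neg_zero θ this

theorem not_negm_neg {θ : ℝ} {u : ℝ × ℝ} (hu : negm θ u) : ¬ negm θ (-u) := by
  intro h
  have := negm_add hu h
  rw [add_neg_cancel] at this
  exact not_negm_zero θ this

/-! ### Ranks and level counts -/

variable {S : Finset (ℝ × ℝ)} {θ : ℝ} {x y : ℝ × ℝ}

theorem rk_lt (hx : x ∈ S) (h : neg θ (x - y)) : rk S θ x < rk S θ y := by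
  classical
  unfold rk
  apply card_lt_card
  rw [Finset.ssubset_iff_of_subset]
  · refine ⟨x, ?_, ?_⟩
    · rw [mem_filter]; exact ⟨hx, h⟩
    · rw [mem_filter, sub_self]; exact fun h => not_neg_zero θ h.2
  · intro z hz
    rw [mem_filter] at hz ⊢
    refine ⟨hz.1, ?_⟩
    have := neg_add hz.2 h
    rwa [sub_add_sub_cancel] at this

theorem rkm_lt (hx : x ∈ S) (h : negm θ (x - y)) : rkm S θ x < rkm S θ y := by
  classical
  unfold rkm
  apply card_lt_card
  rw [Finset.ssubset_iff_of_subset]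
  · refine ⟨x, ?_, ?_⟩
    · rw [mem_filter]; exact ⟨hx, h⟩
    · rw [mem_filter, sub_self]; exact fun h => not_negm_zero θ h.2
  · intro z hz
    rw [mem_filter] at hz ⊢
    refine ⟨hz.1, ?_⟩
    have := negm_add hz.2 h
    rwa [sub_add_sub_cancel] at this

theorem rk_inj (hx : x ∈ S) (hy : y ∈ S) (h : rk S θ x = rk S θ y) : x = y := by
  by_contra hne
  rcases neg_or (θ := θ) (sub_ne_zero.mpr hne) with h1 | h1
  · have := rk_lt hx h1; omega
  · rw [neg_sub] at h1
    have := rk_lt hy h1; omega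

theorem rkm_inj (hx : x ∈ S) (hy : y ∈ S) (h : rkm S θ x = rkm S θ y) : x = y := by
  by_contra hne
  rcases negm_or (θ := θ) (sub_ne_zero.mpr hne) with h1 | h1
  · have := rkm_lt hx h1; omega
  · rw [neg_sub] at h1
    have := rkm_lt hy h1; omega

/-- the number of points on the same level before / after `x` -/
theorem counts (hx : x ∈ S) : ∃ p q : ℕ, rk S θ x = Alow S (F θ) x + p ∧
    rkm S θ x = Alow S (F θ) x + q ∧ S.card = Alow S (F θ) x + Bup S (F θ) x + 1 + p + q := by
  classical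
  refine ⟨(S.filter (fun z => F θ z = F θ x ∧ G θ z < G θ x)).card,
    (S.filter (fun z => F θ z = F θ x ∧ G θ x < G θ z)).card, ?_, ?_, ?_⟩
  · unfold rk Alow
    rw [← card_union_of_disjoint]
    · congr 1
      ext z
      simp only [mem_filter, mem_union, neg, F_sub, G_sub, sub_neg, sub_eq_zero]
      tauto
    · rw [disjoint_left]
      intro z hz hz'
      rw [mem_filter] at hz hz'
      linarith [hz.2, hz'.2.1]
  · unfold rkm Alow
    rw [← card_union_of_disjoint]
    · congr 1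
      ext z
      simp only [mem_filter, mem_union, negm, F_sub, G_sub, sub_neg, sub_eq_zero, sub_pos]
      tauto
    · rw [disjoint_left]
      intro z hz hz'
      rw [mem_filter] at hz hz'
      linarith [hz.2, hz'.2.1]
  · unfold Alow Bup
    have e1 : (S.filter (fun z => z = x)).card = 1 := by
      rw [Finset.filter_eq' S x, if_pos hx, card_singleton]
    rw [← e1, ← card_union_of_disjoint, ← card_union_of_disjoint, ← card_union_of_disjoint,
      ← card_union_of_disjoint]
    · congr 1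
      ext z
      simp only [mem_filter, mem_union]
      constructor
      · intro hz
        rcases lt_trichotomy (F θ z) (F θ x) with h | h | h
        · tauto
        · rcases lt_trichotomy (G θ z) (G θ x) with g | g | g
          · tauto
          · have : z = x := by
              have : z - x = 0 := FG_zero (θ := θ) (by rw [F_sub]; linarith) (by rw [G_sub]; linarith)
              exact sub_eq_zero.mp this
            tauto
          · tauto
        · tauto
      · tauto
    all_goals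
      rw [disjoint_left]
      intro z hz hz'
      simp only [mem_filter, mem_union] at hz hz'
      have hzx : z = x → F θ z = F θ x ∧ G θ z = G θ x := by rintro rfl; exact ⟨rfl, rfl⟩
      first
      | (rcases hz with (((h | h) | h) | h) <;> first | linarith [h.2, hz'.2.1, hz'.2.2] | linarith [h.2.1, h.2.2, hz'.2.1, hz'.2.2] | linarith [(hzx h.2).1, (hzx h.2).2, hz'.2.1, hz'.2.2])
      | (rcases hz with ((h | h) | h) <;> first | linarith [h.2, hz'.2.1, hz'.2.2] | linarith [(hzx h.2).1, (hzx h.2).2, hz'.2.1, hz'.2.2])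
      | (rcases hz with (h | h) <;> linarith [h.2, (hzx hz'.2).1])
      | linarith [hz.2, hz'.2]

theorem rk_bounds (hx : x ∈ S) : Alow S (F θ) x ≤ rk S θ x ∧ rk S θ x + Bup S (F θ) x + 1 ≤ S.card := by
  obtain ⟨p, q, h1, h2, h3⟩ := counts (θ := θ) hx
  omega

theorem rkm_bounds (hx : x ∈ S) :
    Alow S (F θ) x ≤ rkm S θ x ∧ rkm S θ x + Bup S (F θ) x + 1 ≤ S.card := by
  obtain ⟨p, q, h1, h2, h3⟩ := counts (θ := θ) hx
  omega

theorem rk_add_rkm (hx : x ∈ S) :
    rk S θ x + rkm S θ x + Bup S (F θ) x + 1 = S.card + Alow S (F θ) x := by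
  obtain ⟨p, q, h1, h2, h3⟩ := counts (θ := θ) hx
  omega

theorem card_le_of_lt (S : Finset (ℝ × ℝ)) {θ : ℝ} {x y : ℝ × ℝ} (h : F θ x < F θ y) :
    S.card ≤ Alow S (F θ) y + Bup S (F θ) x := by
  classical
  unfold Alow Bup
  refine le_trans ?_ (card_union_le _ _)
  apply card_le_card
  intro z hz
  rw [mem_union, mem_filter, mem_filter]
  by_cases h' : F θ z < F θ y
  · exact Or.inl ⟨hz, h'⟩
  · exact Or.inr ⟨hz, by push Not at h'; linarith⟩

theorem Alow_lt (hx : x ∈ S) (h : F θ x < F θ y) : Alow S (F θ) x < Alow S (F θ) y := by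
  classical
  unfold Alow
  apply card_lt_card
  rw [Finset.ssubset_iff_of_subset]
  · refine ⟨x, ?_, ?_⟩
    · rw [mem_filter]; exact ⟨hx, h⟩
    · rw [mem_filter]; exact fun h => lt_irrefl _ h.2
  · intro z hz
    rw [mem_filter] at hz ⊢
    exact ⟨hz.1, hz.2.trans h⟩

theorem F_eq_of_Alow (hx : x ∈ S) (hy : y ∈ S) (h : Alow S (F θ) x = Alow S (F θ) y) :
    F θ x = F θ y := by
  rcases lt_trichotomy (F θ x) (F θ y) with h1 | h1 | h1
  · have := Alow_lt hx h1; omega
  · exact h1
  · have := Alow_lt hy h1; omega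

theorem Alow_congr (h : F θ x = F θ y) : Alow S (F θ) x = Alow S (F θ) y := by
  unfold Alow; rw [h]

theorem Bup_congr (h : F θ x = F θ y) : Bup S (F θ) x = Bup S (F θ) y := by
  unfold Bup; rw [h]

/-- the point of rank `k` just before `θ` and the one of rank `k` just after `θ` are on the same
level at `θ`. -/
theorem same_level (hx : x ∈ S) (hy : y ∈ S) (h : rk S θ x = rkm S θ y) : F θ x = F θ y := by
  have hx1 := rk_bounds (θ := θ) hx
  have hy1 := rkm_bounds (θ := θ) hy
  rcases lt_trichotomy (F θ x) (F θ y) with h1 | h1 | h1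
  · have := card_le_of_lt S h1; omega
  · exact h1
  · have := card_le_of_lt S h1; omega

theorem rk_lt_card (hx : x ∈ S) : rk S θ x < S.card := by
  have := rk_bounds (θ := θ) hx; omega

theorem rk_surj (θ : ℝ) {k : ℕ} (hk : k < S.card) : ∃ x ∈ S, rk S θ x = k := by
  classical
  have hinj : Set.InjOn (rk S θ) (S : Set (ℝ × ℝ)) := fun a ha b hb hab => rk_inj ha hb hab
  have hmaps : ∀ a ∈ S, rk S θ a ∈ range S.card := fun a ha => mem_range.mpr (rk_lt_card ha)
  have himg : S.image (rk S θ) = range S.card := by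
    apply Finset.eq_of_subset_of_card_le
    · intro k hk
      obtain ⟨a, ha, rfl⟩ := mem_image.mp hk
      exact hmaps a ha
    · rw [card_range, card_image_of_injOn hinj]
  have : k ∈ S.image (rk S θ) := by rw [himg]; exact mem_range.mpr hk
  exact mem_image.mp this

end Pool.Agent.MP4c9d8f
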