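import Mathlib
import Pool.Agent.MP_4c9d8f_co.Sweep

set_option autoImplicit false

open Finset

namespace Pool.Agent.MP4c9d8f

/-- A finite set which is the orbit of a linear recurrence `a (i+2) = c • a (i+1) - a i` is the
image of the set of `n`-th roots of unity under an invertible linear map. -/
theorem roots_of_recurrence (S : Finset (ℝ × ℝ)) (a : ℕ → ℝ × ℝ) (c : ℝ) (hmem : ∀ i, a i ∈ S)
    (hcov : ∀ x ∈ S, ∃ i, a i = x) (hcr : cross (a 0) (a 1) ≠ 0)
    (hrec : ∀ i, a (i + 2) = c • a (i + 1) - a i) :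
    ∃ Λ : (ℝ × ℝ) ≃ₗ[ℝ] ℂ, ∀ x, x ∈ S ↔ (Λ x) ^ S.card = 1 := by
  classical
  -- period
  obtain ⟨p, hp, hper0, hper1⟩ : ∃ p, 0 < p ∧ a p = a 0 ∧ a (p + 1) = a 1 := by
    obtain ⟨i, _, j, _, hne, he⟩ := Finset.exists_ne_map_eq_of_card_lt_of_maps_to
      (s := range ((S ×ˢ S).card + 1)) (t := S ×ˢ S) (f := fun i => (a i, a (i + 1))) (by simp)
      (fun i _ => by
        have h1 : (a i, a (i + 1)) ∈ S ×ˢ S := Finset.mem_product.mpr ⟨hmem i, hmem (i + 1)⟩
        exact h1)
    have key : ∀ i j, i < j → a i = a j → a (i + 1) = a (j + 1) →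
        ∃ p, 0 < p ∧ a p = a 0 ∧ a (p + 1) = a 1 := by
      intro i
      induction i with
      | zero =>
        intro j hj h1 h2
        exact ⟨j, hj, h1.symm, h2.symm⟩
      | succ i ih =>
        intro j hj h1 h2
        obtain ⟨j, rfl⟩ : ∃ j', j = j' + 1 := ⟨j - 1, by omega⟩
        apply ih j (by omega) _ h1
        have e1 := hrec i
        have e2 := hrec j
        have e3 : a i = c • a (i + 1) - a (i + 2) := by rw [e1]; abel
        have e4 : a j = c • a (j + 1) - a (j + 2) := by rw [e2]; abel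
        rw [e3, e4, h1]
        rw [show i + 1 + 1 = i + 2 from rfl, show j + 1 + 1 = j + 2 from rfl] at h2
        rw [h2]
    simp only [Prod.mk.injEq] at he
    rcases lt_or_gt_of_ne hne with h' | h'
    · exact key i j h' he.1 he.2
    · exact key j i h' he.1.symm he.2.symm
  -- the eigenvalue
  obtain ⟨s, hs⟩ : ∃ s : ℂ, s ^ 2 = (c : ℂ) ^ 2 - 4 :=
    IsAlgClosed.exists_pow_nat_eq _ (by norm_num)
  set ζ : ℂ := ((c : ℂ) + s) / 2 with hζ
  have hζ2 : ζ ^ 2 = c * ζ - 1 := by
    rw [hζ]; linear_combination (1 / 4) * hs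
  have hζ0 : ζ ≠ 0 := by
    intro h0; rw [h0] at hζ2; norm_num at hζ2
  set D : ℕ → ℝ := fun i => cross (a 0) (a i) with hD
  have hD0 : D 0 = 0 := by simp only [hD, cross]; ring
  have hD1 : D 1 ≠ 0 := hcr
  have hDrec : ∀ i, D (i + 2) = c * D (i + 1) - D i := by
    intro i
    simp only [hD, hrec i, cross, Prod.fst_sub, Prod.snd_sub, Prod.smul_fst, Prod.smul_snd,
      smul_eq_mul]
    ring
  have hW : ∀ i, ζ * (D (i + 1) : ℂ) - (D i : ℂ) = ζ ^ i * (ζ * (D 1 : ℂ)) := by
    intro i
    induction i with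
    | zero => rw [hD0]; simp
    | succ i ih =>
      have e := hDrec i
      rw [show i + 1 + 1 = i + 2 from rfl, e, pow_succ, mul_right_comm, ← ih]
      push_cast
      linear_combination (-(D (i + 1) : ℂ)) * hζ2
  have hDp : D p = 0 := by
    have : D p = D 0 := by simp only [hD, hper0]
    rw [this, hD0]
  have hDp1 : D (p + 1) = D 1 := by simp only [hD, hper1]
  have hD1c : (D 1 : ℂ) ≠ 0 := by exact_mod_cast hD1
  have hζp : ζ ^ p = 1 := by
    have := hW p
    rw [hDp, hDp1] at this
    have h1 : (ζ ^ p - 1) * (ζ * (D 1 : ℂ)) = 0 := by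
      push_cast at this
      linear_combination -this
    rcases mul_eq_zero.mp h1 with h' | h'
    · exact sub_eq_zero.mp h'
    · exact absurd h' (mul_ne_zero hζ0 hD1c)
  have hnorm : ‖ζ‖ = 1 := Complex.norm_eq_one_of_pow_eq_one hζp hp.ne'
  have him : ζ.im ≠ 0 := by
    intro h0
    have hsq : ζ ^ 2 = 1 := by
      have hre : ζ = (ζ.re : ℂ) := by
        apply Complex.ext <;> simp [h0]
      have h1 : |ζ.re| = 1 := by
        rw [hre, Complex.norm_real, Real.norm_eq_abs] at hnorm
        exact hnorm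
      rw [hre]
      have h2 : ζ.re ^ 2 = 1 := by rw [← sq_abs, h1]; norm_num
      exact_mod_cast h2
    have hcz : (c : ℂ) = 2 * ζ := by
      have h1 : (c : ℂ) * ζ = 2 := by linear_combination hsq - hζ2
      have h2 : (c : ℂ) * ζ * ζ = 2 * ζ := by rw [h1]
      linear_combination h2 - (c : ℂ) * hsq
    have hlin : ∀ i : ℕ, ζ * (D i : ℂ) = i * ζ ^ i * (D 1 : ℂ) ∧
        ζ * (D (i + 1) : ℂ) = ((i : ℂ) + 1) * ζ ^ (i + 1) * (D 1 : ℂ) := by
      intro i
      induction i with
      | zero => rw [hD0]; simp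
      | succ i ih =>
        refine ⟨by push_cast; exact ih.2, ?_⟩
        rw [show i + 1 + 1 = i + 2 from rfl, hDrec i]
        push_cast
        rw [hcz]
        have e1 := ih.1
        have e2 := ih.2
        have e3 : ζ ^ (i + 2) = ζ ^ i := by rw [pow_add, hsq, mul_one]
        have e4 : ζ ^ (i + 1) = ζ ^ i * ζ := pow_succ _ _
        rw [e4] at e2
        rw [e3]
        linear_combination (2 * ζ) * e2 - e1 + (2 * ((i : ℂ) + 1) * ζ ^ i * (D 1 : ℂ)) * hsq
    have := (hlin p).1
    rw [hDp, hζp] at this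
    simp only [Complex.ofReal_zero, mul_zero, mul_one] at this
    have h1 : (p : ℂ) ≠ 0 := by exact_mod_cast hp.ne'
    exact mul_ne_zero h1 hD1c this.symm
  -- the linear map
  set d : ℝ := cross (a 0) (a 1) with hd
  let L : (ℝ × ℝ) →ₗ[ℝ] ℂ :=
    { toFun := fun v => ((cross v (a 1) / d : ℝ) : ℂ) + ((cross (a 0) v / d : ℝ) : ℂ) * ζ
      map_add' := by
        intro u v
        simp only [cross, Prod.fst_add, Prod.snd_add]
        push_cast
        ring
      map_smul' := by
        intro r v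
        simp only [cross, Prod.smul_fst, Prod.smul_snd, smul_eq_mul, RingHom.id_apply,
          Complex.real_smul]
        push_cast
        ring }
  have hLdef : ∀ v, L v = ((cross v (a 1) / d : ℝ) : ℂ) + ((cross (a 0) v / d : ℝ) : ℂ) * ζ :=
    fun v => rfl
  have hinj : Function.Injective L := by
    rw [injective_iff_map_eq_zero]
    intro v hv
    rw [hLdef] at hv
    have h1 := congrArg Complex.im hv
    simp only [Complex.add_im, Complex.ofReal_im, Complex.mul_im, Complex.ofReal_re, zero_mul,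
      add_zero, zero_add, Complex.zero_im] at h1
    have h2 : cross (a 0) v / d = 0 := (mul_eq_zero.mp h1).resolve_right him
    rw [h2] at hv
    have h3 := congrArg Complex.re hv
    simp only [Complex.ofReal_zero, zero_mul, add_zero, Complex.ofReal_re, Complex.zero_re] at h3
    have h4 : cross (a 0) v = 0 := (div_eq_zero_iff.mp h2).resolve_right hcr
    have h5 : cross v (a 1) = 0 := (div_eq_zero_iff.mp h3).resolve_right hcr
    have v1 : v.1 = 0 := by
      have : d * v.1 = 0 := by
        rw [hd]; simp only [cross] at h4 h5 ⊢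
        linear_combination (a 0).1 * h5 + (a 1).1 * h4
      exact (mul_eq_zero.mp this).resolve_left hcr
    have v2 : v.2 = 0 := by
      have : d * v.2 = 0 := by
        rw [hd]; simp only [cross] at h4 h5 ⊢
        linear_combination (a 0).2 * h5 + (a 1).2 * h4
      exact (mul_eq_zero.mp this).resolve_left hcr
    ext <;> simp [v1, v2]
  have hdim : Module.finrank ℝ (ℝ × ℝ) = Module.finrank ℝ ℂ := by
    rw [Module.finrank_prod, Module.finrank_self, Complex.finrank_real_complex]
  let Λ : (ℝ × ℝ) ≃ₗ[ℝ] ℂ := LinearMap.linearEquivOfInjective L hinj hdim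
  have hΛ : ∀ v, Λ v = L v := fun v => rfl
  have hpow : ∀ i, Λ (a i) = ζ ^ i ∧ Λ (a (i + 1)) = ζ ^ (i + 1) := by
    intro i
    induction i with
    | zero =>
      constructor
      · rw [hΛ, hLdef]
        have : cross (a 0) (a 0) = 0 := by simp only [cross]; ring
        rw [this, ← hd, div_self hcr]
        simp
      · rw [zero_add, hΛ, hLdef]
        have : cross (a 1) (a 1) = 0 := by simp only [cross]; ring
        rw [this, ← hd, div_self hcr]
        simp
    | succ i ih =>
      refine ⟨ih.2, ?_⟩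
      rw [show i + 1 + 1 = i + 2 from rfl, hrec i, map_sub, map_smul, ih.1, ih.2,
        Complex.real_smul, pow_add ζ i 2, hζ2]
      ring
  -- order
  set m := orderOf ζ with hm
  have hmpos : 0 < m := orderOf_pos_iff.mpr (isOfFinOrder_iff_pow_eq_one.mpr ⟨p, hp, hζp⟩)
  have himg : S.image Λ = (range m).image (fun i => ζ ^ i) := by
    ext z
    rw [mem_image, mem_image]
    constructor
    · rintro ⟨x, hx, rfl⟩
      obtain ⟨i, rfl⟩ := hcov x hx
      refine ⟨i % m, mem_range.mpr (Nat.mod_lt _ hmpos), ?_⟩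
      rw [(hpow i).1]
      exact pow_mod_orderOf ζ i
    · rintro ⟨i, _, rfl⟩
      exact ⟨a i, hmem i, (hpow i).1⟩
  have hcard : S.card = m := by
    rw [← card_image_of_injective S Λ.injective, himg, card_image_of_injOn, card_range]
    intro i hi j hj hij
    rw [coe_range, Set.mem_Iio] at hi hj
    exact pow_injOn_Iio_orderOf hi hj hij
  have hprim : IsPrimitiveRoot ζ m := IsPrimitiveRoot.orderOf ζ
  refine ⟨Λ, fun x => ?_⟩
  rw [hcard]
  constructor
  · intro hx
    obtain ⟨i, rfl⟩ := hcov x hx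
    rw [(hpow i).1, ← pow_mul, mul_comm, pow_mul, hprim.pow_eq_one, one_pow]
  · intro hx
    have : NeZero m := ⟨hmpos.ne'⟩
    obtain ⟨i, _, hi⟩ := hprim.eq_pow_of_pow_eq_one hx
    have : Λ x = Λ (a i) := by rw [(hpow i).1, hi]
    rw [Λ.injective this]
    exact hmem i

end Pool.Agent.MP4c9d8f
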