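import Mathlib
import Pool.Agent.MP_4c9d8f_co.Sweep

set_option autoImplicit false

open Finset Filter Topology

namespace Pool.Agent.MP4c9d8f

/-- The planar hypotheses: `2h` points, `h ≥ 2`, no three collinear, admissible. -/
structure Good (S : Finset (ℝ × ℝ)) (h : ℕ) : Prop where
  card : S.card = 2 * h
  two : 2 ≤ h
  gen : ∀ x ∈ S, ∀ y ∈ S, ∀ z ∈ S, x ≠ y → y ≠ z → x ≠ z → cross (x - z) (y - z) ≠ 0
  adm : ∀ θ, ∀ x ∈ S, ∀ y ∈ S, x ≠ y → F θ x = F θ y →
    dlow S (F θ) (F θ x) < h ∧ dup S (F θ) (F θ x) < h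

variable {S : Finset (ℝ × ℝ)} {h : ℕ}

theorem Good.three (H : Good S h) (θ : ℝ) : ∀ x ∈ S, ∀ y ∈ S, ∀ z ∈ S, F θ x = F θ y →
    F θ y = F θ z → x = y ∨ y = z ∨ x = z := by
  intro x hx y hy z hz hxy hyz
  by_contra hcon
  push Not at hcon
  apply H.gen x hx y hy z hz hcon.1 hcon.2.1 hcon.2.2
  apply cross_of_F (θ := θ) <;> rw [F_sub] <;> linarith

theorem Good.levels (H : Good S h) (θ : ℝ) :
    (∀ x ∈ S, dlow S (F θ) (F θ x) < h → dup S (F θ) (F θ x) < h →
      ∃ y ∈ S, y ≠ x ∧ F θ y = F θ x) ∧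
    (∀ x ∈ S, ∃ x' ∈ S, Alow S (F θ) x' = Bup S (F θ) x ∧ Bup S (F θ) x' = Alow S (F θ) x) :=
  Pool.Agent.MP4c9d8f.levels S (F θ) h H.card (H.three θ) (H.adm θ)

theorem Good.partner_aux (H : Good S h) {θ : ℝ} {x y : ℝ × ℝ} (hx : x ∈ S)
    (rx ry : ℕ) (hrx : Alow S (F θ) x ≤ rx ∧ rx + Bup S (F θ) x + 1 ≤ S.card)
    (hry : Alow S (F θ) y ≤ ry ∧ ry + Bup S (F θ) y + 1 ≤ S.card) (hsum : rx + ry + 1 = S.card) :
    Alow S (F θ) y = Bup S (F θ) x ∧ Bup S (F θ) y = Alow S (F θ) x := by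
  obtain ⟨x', hx', h1, h2⟩ := (H.levels θ).2 x hx
  have hF : F θ y = F θ x' := by
    rcases lt_trichotomy (F θ y) (F θ x') with h3 | h3 | h3
    · have := card_le_of_lt S h3; omega
    · exact h3
    · have := card_le_of_lt S h3; omega
  rw [Alow_congr hF, Bup_congr hF]
  exact ⟨h1, h2⟩

theorem Good.partner_swap (H : Good S h) {θ : ℝ} {x y : ℝ × ℝ} (hx : x ∈ S) (hy : y ∈ S) :
    rkm S θ x + rkm S θ y + 1 = S.card ↔ rk S θ x + rk S θ y + 1 = S.card := by
  have hx1 := rk_add_rkm (θ := θ) hx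
  have hy1 := rk_add_rkm (θ := θ) hy
  constructor
  · intro h1
    have := H.partner_aux hx _ _ (rkm_bounds hx) (rkm_bounds hy) h1
    omega
  · intro h1
    have := H.partner_aux hx _ _ (rk_bounds hx) (rk_bounds hy) h1
    omega

/-- The partner relation -/
def Par (S : Finset (ℝ × ℝ)) (x y : ℝ × ℝ) : Prop := x ∈ S ∧ y ∈ S ∧ x ≠ y ∧
  ∀ θ, Alow S (F θ) y = Bup S (F θ) x ∧ Bup S (F θ) y = Alow S (F θ) x

theorem Par.symm {x y : ℝ × ℝ} (h : Par S x y) : Par S y x :=
  ⟨h.2.1, h.1, h.2.2.1.symm, fun θ => ⟨(h.2.2.2 θ).2.symm, (h.2.2.2 θ).1.symm⟩⟩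

theorem Good.exists_par (H : Good S h) {x : ℝ × ℝ} (hx : x ∈ S) : ∃ y, Par S x y := by
  have hlt : rk S 0 x < S.card := rk_lt_card hx
  obtain ⟨y, hy, hk⟩ := rk_surj (S := S) 0 (k := S.card - 1 - rk S 0 x) (by omega)
  have h0 : rk S 0 x + rk S 0 y + 1 = S.card := by omega
  refine ⟨y, hx, hy, ?_, ?_⟩
  · rintro rfl
    have := H.card
    omega
  · intro θ
    have key : rk S θ x + rk S θ y + 1 = S.card := by
      rcases lt_trichotomy θ 0 with hθ | hθ | hθ
      · have := (sweep S x y (fun a b => a + b + 1 = S.card) (a := θ) (b := 0) hθ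
          (fun t _ => H.partner_swap hx hy)).2
        exact this.mpr ((H.partner_swap hx hy).mpr h0)
      · rw [hθ]; exact h0
      · have := (sweep S x y (fun a b => a + b + 1 = S.card) (a := 0) (b := θ) hθ
          (fun t _ => H.partner_swap hx hy)).2
        exact (H.partner_swap hx hy).mp (this.mp h0)
    exact H.partner_aux hx _ _ (rk_bounds hx) (rk_bounds hy) key

theorem Par.unique {x x' y : ℝ × ℝ} (h1 : Par S x y) (h2 : Par S x' y) : x = x' := by
  apply F_ext
  intro θ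
  apply F_eq_of_Alow h1.1 h2.1
  rw [← (h1.2.2.2 θ).2, ← (h2.2.2.2 θ).2]

theorem Par.F_eq {x x' y y' : ℝ × ℝ} (h1 : Par S x y) (h2 : Par S x' y') {θ : ℝ}
    (hF : F θ x = F θ x') : F θ y = F θ y' := by
  apply F_eq_of_Alow h1.2.1 h2.2.1
  rw [(h1.2.2.2 θ).1, (h2.2.2.2 θ).1, Bup_congr hF]

theorem Par.cross_eq {x x' y y' : ℝ × ℝ} (h1 : Par S x y) (h2 : Par S x' y') :
    cross (x - x') (y - y') = 0 := by
  obtain ⟨θ, _, _, hθ⟩ := exists_F_zero 0 (x - x')
  apply cross_of_F hθ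
  rw [F_sub] at hθ ⊢
  have := h1.F_eq h2 (θ := θ) (by linarith)
  linarith

theorem Good.centre (H : Good S h) {x y x' y' : ℝ × ℝ} (h1 : Par S x x') (h2 : Par S y y') :
    x + x' = y + y' := by
  by_cases e1 : y = x
  · subst e1
    rw [h1.symm.unique h2.symm]
  by_cases e2 : y = x'
  · subst e2
    have : x = y' := h1.unique h2.symm
    rw [this, add_comm]
  have e3 : y' ≠ x := by
    rintro rfl
    exact e2 (h2.unique h1.symm)
  have c1 := h1.cross_eq h2
  have c2 := h1.cross_eq h2.symm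
  have c3 := H.gen y h2.1 y' h2.2.1 x h1.1 h2.2.2.1 e3 e1
  -- w = x + x' - y - y'
  have d1 : cross (y - x) (x + x' - (y + y')) = 0 := by
    simp only [cross, Prod.fst_sub, Prod.snd_sub, Prod.fst_add, Prod.snd_add] at *
    linear_combination -c1
  have d2 : cross (y' - x) (x + x' - (y + y')) = 0 := by
    simp only [cross, Prod.fst_sub, Prod.snd_sub, Prod.fst_add, Prod.snd_add] at *
    linear_combination -c2
  set w := x + x' - (y + y') with hw
  have w1 : w.1 = 0 := by
    have : cross (y - x) (y' - x) * w.1 = 0 := by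
      simp only [cross, Prod.fst_sub, Prod.snd_sub] at *
      linear_combination (y'.1 - x.1) * d1 - (y.1 - x.1) * d2
    rcases mul_eq_zero.mp this with h | h
    · exact absurd h c3
    · exact h
  have w2 : w.2 = 0 := by
    have : cross (y - x) (y' - x) * w.2 = 0 := by
      simp only [cross, Prod.fst_sub, Prod.snd_sub] at *
      linear_combination (y'.2 - x.2) * d1 - (y.2 - x.2) * d2
    rcases mul_eq_zero.mp this with h | h
    · exact absurd h c3
    · exact h
  have : w = 0 := by ext <;> simp [w1, w2]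
  exact sub_eq_zero.mp this

/-- **Central symmetry.** -/
theorem Good.central (H : Good S h) : ∃ o : ℝ × ℝ, ∀ x ∈ S, o - x ∈ S := by
  have hne : S.Nonempty := by
    rw [← card_pos, H.card]
    have := H.two
    omega
  obtain ⟨x0, hx0⟩ := hne
  obtain ⟨y0, h0⟩ := H.exists_par hx0
  refine ⟨x0 + y0, ?_⟩
  intro x hx
  obtain ⟨y, hy⟩ := H.exists_par hx
  have : x0 + y0 - x = y := by
    rw [H.centre h0 hy]; abel
  rw [this]
  exact hy.2.1

/-- translation -/
theorem Good.translate (H : Good S h) (o : ℝ × ℝ) :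
    Good (S.map (Equiv.subRight o).toEmbedding) h := by
  classical
  have hF : ∀ θ (x : ℝ × ℝ), F θ ((Equiv.subRight o).toEmbedding x) = F θ x - F θ o := by
    intro θ x
    change F θ (x - o) = _
    rw [F_sub]
  have himg : ∀ θ, (S.map (Equiv.subRight o).toEmbedding).image (F θ) =
      (S.image (F θ)).image (fun v => v - F θ o) := by
    intro θ
    ext v
    simp only [mem_image, Finset.mem_map]
    constructor
    · rintro ⟨_, ⟨z, hz, rfl⟩, rfl⟩
      exact ⟨F θ z, ⟨z, hz, rfl⟩, (hF θ z).symm⟩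
    · rintro ⟨_, ⟨z, hz, rfl⟩, rfl⟩
      exact ⟨_, ⟨z, hz, rfl⟩, hF θ z⟩
  have hlow : ∀ θ c, dlow (S.map (Equiv.subRight o).toEmbedding) (F θ) (c - F θ o) =
      dlow S (F θ) c := by
    intro θ c
    unfold dlow
    rw [himg, filter_image, card_image_of_injective _ (sub_left_injective)]
    congr 1
    ext v
    simp only [mem_filter, sub_lt_sub_iff_right]
  have hup : ∀ θ c, dup (S.map (Equiv.subRight o).toEmbedding) (F θ) (c - F θ o) =
      dup S (F θ) c := by
    intro θ c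
    unfold dup
    rw [himg, filter_image, card_image_of_injective _ (sub_left_injective)]
    congr 1
    ext v
    simp only [mem_filter, sub_lt_sub_iff_right]
  refine ⟨by rw [card_map]; exact H.card, H.two, ?_, ?_⟩
  · intro x hx y hy z hz h1 h2 h3
    obtain ⟨x, hx', rfl⟩ := Finset.mem_map.mp hx
    obtain ⟨y, hy', rfl⟩ := Finset.mem_map.mp hy
    obtain ⟨z, hz', rfl⟩ := Finset.mem_map.mp hz
    have e1 : (Equiv.subRight o).toEmbedding x - (Equiv.subRight o).toEmbedding z = x - z := by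
      change x - o - (z - o) = _; abel
    have e2 : (Equiv.subRight o).toEmbedding y - (Equiv.subRight o).toEmbedding z = y - z := by
      change y - o - (z - o) = _; abel
    rw [e1, e2]
    exact H.gen x hx' y hy' z hz' (fun h => h1 (by rw [h])) (fun h => h2 (by rw [h]))
      (fun h => h3 (by rw [h]))
  · intro θ x hx y hy hxy hF'
    obtain ⟨x, hx', rfl⟩ := Finset.mem_map.mp hx
    obtain ⟨y, hy', rfl⟩ := Finset.mem_map.mp hy
    rw [hF, hlow, hup]
    rw [hF, hF] at hF'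
    exact H.adm θ x hx' y hy' (fun h => hxy (by rw [h])) (by linarith)

end Pool.Agent.MP4c9d8f
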