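import Mathlib
import Pool.Agent.MP_4c9d8f_co.Central

set_option autoImplicit false

open Finset Filter Topology

namespace Pool.Agent.MP4c9d8f

variable {S : Finset (ℝ × ℝ)} {h : ℕ}

theorem two_zeros {θ θ' : ℝ} {w : ℝ × ℝ} (h1 : F θ w = 0) (h2 : F θ' w = 0) (hw : w ≠ 0)
    (h3 : θ' - θ < Real.pi) (h4 : -Real.pi < θ' - θ) : θ' = θ := by
  rw [F_rot' θ θ', h1, zero_mul, zero_add] at h2
  rcases mul_eq_zero.mp h2 with h | h
  · exact absurd (FG_zero h1 h) hw
  · have := (Real.sin_eq_zero_iff_of_lt_of_lt h4 h3).mp h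
    linarith

theorem rk_le_of_lt {θ : ℝ} {x y : ℝ × ℝ} (hy : y ∈ S) (h : rk S θ x < rk S θ y) :
    F θ x ≤ F θ y := by
  by_contra hcon
  push Not at hcon
  have : neg θ (y - x) := Or.inl (by rw [F_sub]; linarith)
  have := rk_lt hy this
  omega

theorem rkm_le_of_lt {θ : ℝ} {x y : ℝ × ℝ} (hy : y ∈ S) (h : rkm S θ x < rkm S θ y) :
    F θ x ≤ F θ y := by
  by_contra hcon
  push Not at hcon
  have : negm θ (y - x) := Or.inl (by rw [F_sub]; linarith)
  have := rkm_lt hy this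
  omega

theorem rkm_lt_card {θ : ℝ} {x : ℝ × ℝ} (hx : x ∈ S) : rkm S θ x < S.card := by
  have := rkm_bounds (θ := θ) hx; omega

theorem rkm_surj (θ : ℝ) {k : ℕ} (hk : k < S.card) : ∃ x ∈ S, rkm S θ x = k := by
  classical
  have hinj : Set.InjOn (rkm S θ) (S : Set (ℝ × ℝ)) := fun a ha b hb hab => rkm_inj ha hb hab
  have himg : S.image (rkm S θ) = range S.card := by
    apply Finset.eq_of_subset_of_card_le
    · intro k hk
      obtain ⟨a, ha, rfl⟩ := mem_image.mp hk
      exact mem_range.mpr (rkm_lt_card ha)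
    · rw [card_range, card_image_of_injOn hinj]
  have : k ∈ S.image (rkm S θ) := by rw [himg]; exact mem_range.mpr hk
  exact mem_image.mp this

/-- centrally symmetric good set -/
structure Sym (S : Finset (ℝ × ℝ)) (h : ℕ) : Prop extends Good S h where
  sym : ∀ x ∈ S, -x ∈ S

namespace Sym

theorem zero_nmem (H : Sym S h) : (0 : ℝ × ℝ) ∉ S := by
  intro h0
  have hc : 1 < S.card := by rw [H.card]; have := H.two; omega
  obtain ⟨x, hx, hx0⟩ := Finset.exists_mem_ne hc 0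
  have hne : x ≠ -x := by
    intro h
    apply hx0
    have h1 : x.1 = -x.1 := congrArg Prod.fst h
    have h2 : x.2 = -x.2 := congrArg Prod.snd h
    ext
    · simp only [Prod.fst_zero]; linarith
    · simp only [Prod.snd_zero]; linarith
  have := H.gen x hx (-x) (H.sym x hx) 0 h0 hne (by simpa using hx0) hx0
  apply this
  simp only [cross, Prod.fst_sub, Prod.snd_sub, Prod.fst_neg, Prod.snd_neg, Prod.fst_zero,
    Prod.snd_zero]
  ring

theorem ne_zero (H : Sym S h) {x : ℝ × ℝ} (hx : x ∈ S) : x ≠ 0 := by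
  rintro rfl; exact H.zero_nmem hx

theorem ne_neg (H : Sym S h) {x : ℝ × ℝ} (hx : x ∈ S) : x ≠ -x := by
  intro h'
  apply H.ne_zero hx
  have h1 : x.1 = -x.1 := congrArg Prod.fst h'
  have h2 : x.2 = -x.2 := congrArg Prod.snd h'
  ext
  · simp only [Prod.fst_zero]; linarith
  · simp only [Prod.snd_zero]; linarith

theorem cross_zero (H : Sym S h) {x y : ℝ × ℝ} (hx : x ∈ S) (hy : y ∈ S) (hc : cross x y = 0) :
    y = x ∨ y = -x := by
  by_contra hcon
  push Not at hcon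
  apply H.gen x hx (-x) (H.sym x hx) y hy (H.ne_neg hx) hcon.2.symm hcon.1.symm
  simp only [cross, Prod.fst_sub, Prod.snd_sub, Prod.fst_neg, Prod.snd_neg] at *
  linear_combination (-2) * hc

theorem F_zero_both (H : Sym S h) {θ : ℝ} {x y : ℝ × ℝ} (hx : x ∈ S) (hy : y ∈ S)
    (h1 : F θ x = 0) (h2 : F θ y = 0) : y = x ∨ y = -x :=
  H.cross_zero hx hy (cross_of_F h1 h2)

theorem rk_neg (H : Sym S h) {θ : ℝ} {x : ℝ × ℝ} (hx : x ∈ S) :
    rk S θ x + rk S θ (-x) + 1 = S.card := by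
  classical
  have e2 : rk S θ (-x) = (S.filter (fun z => neg θ (x - z))).card := by
    unfold rk
    refine Finset.card_bij' (fun z _ => -z) (fun z _ => -z) ?_ ?_ ?_ ?_
    · intro z hz
      rw [mem_filter] at hz ⊢
      refine ⟨H.sym z hz.1, ?_⟩
      have e : x - -z = z - -x := by abel
      rw [e]; exact hz.2
    · intro z hz
      rw [mem_filter] at hz ⊢
      refine ⟨H.sym z hz.1, ?_⟩
      have e : -z - -x = x - z := by abel
      rw [e]; exact hz.2
    · intro z _; simp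
    · intro z _; simp
  have e3 : (S.filter (fun z => z = x)).card = 1 := by
    rw [Finset.filter_eq' S x, if_pos hx, card_singleton]
  rw [e2, ← e3]
  unfold rk
  rw [← card_union_of_disjoint, ← card_union_of_disjoint]
  · congr 1
    ext z
    simp only [mem_filter, mem_union]
    constructor
    · tauto
    · intro hz
      by_cases hzx : z = x
      · exact Or.inr ⟨hz, hzx⟩
      · left
        rcases neg_or (θ := θ) (sub_ne_zero.mpr hzx) with h' | h'
        · exact Or.inl ⟨hz, h'⟩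
        · rw [neg_sub] at h'
          exact Or.inr ⟨hz, h'⟩
  · rw [disjoint_left]
    intro z hz hz'
    simp only [mem_filter, mem_union] at hz hz'
    rw [hz'.2, sub_self] at hz
    rcases hz with hz | hz
    · exact not_neg_zero θ hz.2
    · exact not_neg_zero θ hz.2
  · rw [disjoint_left]
    intro z hz hz'
    simp only [mem_filter] at hz hz'
    apply not_neg_neg hz.2
    rw [neg_sub]; exact hz'.2

theorem rkm_neg (H : Sym S h) {θ : ℝ} {x : ℝ × ℝ} (hx : x ∈ S) :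
    rkm S θ x + rkm S θ (-x) + 1 = S.card := by
  classical
  have e2 : rkm S θ (-x) = (S.filter (fun z => negm θ (x - z))).card := by
    unfold rkm
    refine Finset.card_bij' (fun z _ => -z) (fun z _ => -z) ?_ ?_ ?_ ?_
    · intro z hz
      rw [mem_filter] at hz ⊢
      refine ⟨H.sym z hz.1, ?_⟩
      have e : x - -z = z - -x := by abel
      rw [e]; exact hz.2
    · intro z hz
      rw [mem_filter] at hz ⊢
      refine ⟨H.sym z hz.1, ?_⟩
      have e : -z - -x = x - z := by abel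
      rw [e]; exact hz.2
    · intro z _; simp
    · intro z _; simp
  have e3 : (S.filter (fun z => z = x)).card = 1 := by
    rw [Finset.filter_eq' S x, if_pos hx, card_singleton]
  rw [e2, ← e3]
  unfold rkm
  rw [← card_union_of_disjoint, ← card_union_of_disjoint]
  · congr 1
    ext z
    simp only [mem_filter, mem_union]
    constructor
    · tauto
    · intro hz
      by_cases hzx : z = x
      · exact Or.inr ⟨hz, hzx⟩
      · left
        rcases negm_or (θ := θ) (sub_ne_zero.mpr hzx) with h' | h'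
        · exact Or.inl ⟨hz, h'⟩
        · rw [neg_sub] at h'
          exact Or.inr ⟨hz, h'⟩
  · rw [disjoint_left]
    intro z hz hz'
    simp only [mem_filter, mem_union] at hz hz'
    rw [hz'.2, sub_self] at hz
    rcases hz with hz | hz
    · exact not_negm_zero θ hz.2
    · exact not_negm_zero θ hz.2
  · rw [disjoint_left]
    intro z hz hz'
    simp only [mem_filter] at hz hz'
    apply not_negm_neg hz.2
    rw [neg_sub]; exact hz'.2

theorem rk_lt_h (H : Sym S h) {θ : ℝ} {x : ℝ × ℝ} (hx : x ∈ S) : rk S θ x < h ↔ neg θ x := by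
  have hc := H.card
  have h1 := H.rk_neg (θ := θ) hx
  constructor
  · intro hlt
    rcases neg_or (θ := θ) (H.ne_zero hx) with h' | h'
    · exact h'
    · exfalso
      have h2 := neg_add h' h'
      have : rk S θ (-x) < rk S θ x := by
        apply rk_lt (H.sym x hx)
        have e : -x - x = -x + -x := by abel
        rw [e]; exact h2
      omega
  · intro h'
    have h2 := neg_add h' h'
    have : rk S θ x < rk S θ (-x) := by
      apply rk_lt hx
      have e : x - -x = x + x := by abel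
      rw [e]; exact h2
    omega

theorem rkm_lt_h (H : Sym S h) {θ : ℝ} {x : ℝ × ℝ} (hx : x ∈ S) : rkm S θ x < h ↔ negm θ x := by
  have hc := H.card
  have h1 := H.rkm_neg (θ := θ) hx
  constructor
  · intro hlt
    rcases negm_or (θ := θ) (H.ne_zero hx) with h' | h'
    · exact h'
    · exfalso
      have h2 := negm_add h' h'
      have : rkm S θ (-x) < rkm S θ x := by
        apply rkm_lt (H.sym x hx)
        have e : -x - x = -x + -x := by abel
        rw [e]; exact h2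
      omega
  · intro h'
    have h2 := negm_add h' h'
    have : rkm S θ x < rkm S θ (-x) := by
      apply rkm_lt hx
      have e : x - -x = x + x := by abel
      rw [e]; exact h2
    omega

theorem dlow_mono (S : Finset (ℝ × ℝ)) (θ : ℝ) {c c' : ℝ} (hc : c ≤ c') :
    dlow S (F θ) c ≤ dlow S (F θ) c' := by
  classical
  unfold dlow
  apply card_le_card
  intro v hv
  rw [mem_filter] at hv ⊢
  exact ⟨hv.1, lt_of_lt_of_le hv.2 hc⟩

theorem dup_anti (S : Finset (ℝ × ℝ)) (θ : ℝ) {c c' : ℝ} (hc : c ≤ c') :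
    dup S (F θ) c' ≤ dup S (F θ) c := by
  classical
  unfold dup
  apply card_le_card
  intro v hv
  rw [mem_filter] at hv ⊢
  exact ⟨hv.1, lt_of_le_of_lt hc hv.2⟩

/-- inner levels are pairs -/
theorem inner (H : Sym S h) {θ : ℝ} {x x' y : ℝ × ℝ} (hx : x ∈ S) (hx' : x' ∈ S) (hne : x ≠ x')
    (hF : F θ x = F θ x') (hy : y ∈ S) (hle : |F θ y| ≤ |F θ x|) :
    ∃ y' ∈ S, y' ≠ y ∧ F θ y' = F θ y := by
  have h1 := H.adm θ x hx x' hx' hne hF
  have h2 := H.adm θ (-x) (H.sym x hx) (-x') (H.sym x' hx') (fun h => hne (neg_injective h))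
    (by rw [F_neg, F_neg, hF])
  rw [F_neg] at h2
  have h3 : dlow S (F θ) |F θ x| < h := by
    rcases abs_choice (F θ x) with h | h
    · rw [h]; exact h1.1
    · rw [h]; exact h2.1
  have h4 : dup S (F θ) (-|F θ x|) < h := by
    rcases abs_choice (F θ x) with h | h
    · rw [h]; exact h2.2
    · rw [h, neg_neg]; exact h1.2
  obtain ⟨l1, l2⟩ := abs_le.mp hle
  exact (H.levels θ).1 y hy (lt_of_le_of_lt (dlow_mono S θ l2) h3)
    (lt_of_le_of_lt (dup_anti S θ l1) h4)

/-- at a critical angle which is not a zero of a point of `S`, the two highest negative points are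
on the same level. -/
theorem top_pair (H : Sym S h) {θ : ℝ} (hα : ∀ x ∈ S, F θ x ≠ 0) {u u' : ℝ × ℝ} (hu : u ∈ S)
    (hu' : u' ∈ S) (hne : u ≠ u') (hF : F θ u = F θ u') {y z : ℝ × ℝ} (hy : y ∈ S) (hz : z ∈ S)
    (hyr : rk S θ y = h - 1) (hzr : rk S θ z = h - 2) : F θ y = F θ z := by
  have h2 := H.two
  have hyneg : F θ y < 0 := by
    rcases (H.rk_lt_h (θ := θ) hy).mp (by omega) with h' | h'
    · exact h'
    · exact absurd h'.1 (hα y hy)
  -- y is the top negative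
  have htop : ∀ w ∈ S, F θ w < 0 → F θ w ≤ F θ y := by
    intro w hw hw0
    by_contra hcon
    push Not at hcon
    have : neg θ (y - w) := Or.inl (by rw [F_sub]; linarith)
    have h3 := rk_lt hy this
    have h4 := (H.rk_lt_h (θ := θ) hw).mpr (Or.inl hw0)
    omega
  have hmin : |F θ y| ≤ |F θ u| := by
    rw [abs_of_neg hyneg]
    rcases lt_or_gt_of_ne (hα u hu) with h' | h'
    · rw [abs_of_neg h']
      linarith [htop u hu h']
    · rw [abs_of_pos h']
      have := htop (-u) (H.sym u hu) (by rw [F_neg]; linarith)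
      rw [F_neg] at this
      linarith
  obtain ⟨y', hy', hyne, hyF⟩ := H.inner hu hu' hne hF hy hmin
  have h5 : rk S θ y' < h := (H.rk_lt_h (θ := θ) hy').mpr (Or.inl (by rw [hyF]; exact hyneg))
  have h6 : rk S θ y' ≠ rk S θ y := fun e => hyne (rk_inj hy' hy e)
  by_cases hyz : y' = z
  · rw [← hyz, hyF]
  · exfalso
    have h7 : rk S θ y' ≠ rk S θ z := fun e => hyz (rk_inj hy' hz e)
    have h8 : F θ y' ≤ F θ z := rk_le_of_lt hz (by omega)
    have h9 : F θ z ≤ F θ y := rk_le_of_lt hy (by omega)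
    have h10 : F θ z = F θ y := by linarith
    rcases H.three θ y hy y' hy' z hz hyF.symm (by rw [hyF, h10]) with h' | h' | h'
    · exact hyne h'.symm
    · exact hyz h'
    · rw [h'] at hyr; omega

theorem rkm_eq_rk (θ : ℝ) (hno : ∀ x ∈ S, ∀ y ∈ S, x ≠ y → F θ x ≠ F θ y) {x : ℝ × ℝ}
    (hx : x ∈ S) : rkm S θ x = rk S θ x := by
  classical
  unfold rk rkm
  congr 1
  ext z
  simp only [mem_filter, negm, neg, F_sub, G_sub]
  constructor
  · rintro ⟨hz, h' | h'⟩
    · exact ⟨hz, Or.inl h'⟩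
    · exfalso
      by_cases hzx : z = x
      · subst hzx; linarith [h'.2]
      · exact hno z hz x hx hzx (by linarith [h'.1])
  · rintro ⟨hz, h' | h'⟩
    · exact ⟨hz, Or.inl h'⟩
    · exfalso
      by_cases hzx : z = x
      · subst hzx; linarith [h'.2]
      · exact hno z hz x hx hzx (by linarith [h'.1])

/-- the unordered pair of the two highest negative points does not change at `θ` -/
theorem top_const (H : Sym S h) {θ : ℝ} (hα : ∀ x ∈ S, F θ x ≠ 0) {x : ℝ × ℝ} (hx : x ∈ S) :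
    (rkm S θ x = h - 1 ∨ rkm S θ x = h - 2) ↔ (rk S θ x = h - 1 ∨ rk S θ x = h - 2) := by
  have h2 := H.two
  have hc := H.card
  by_cases hno : ∀ x ∈ S, ∀ y ∈ S, x ≠ y → F θ x ≠ F θ y
  · rw [rkm_eq_rk θ hno hx]
  · push Not at hno
    obtain ⟨u, hu, u', hu', hne, hF⟩ := hno
    obtain ⟨y, hy, hyr⟩ := rk_surj (S := S) θ (k := h - 1) (by omega)
    obtain ⟨z, hz, hzr⟩ := rk_surj (S := S) θ (k := h - 2) (by omega)
    have hyz := H.top_pair hα hu hu' hne hF hy hz hyr hzr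
    have hyz' : y ≠ z := by rintro rfl; omega
    obtain ⟨y2, hy2, hyr2⟩ := rkm_surj (S := S) θ (k := h - 1) (by omega)
    obtain ⟨z2, hz2, hzr2⟩ := rkm_surj (S := S) θ (k := h - 2) (by omega)
    have hyz2 : y2 ≠ z2 := by rintro rfl; omega
    have ey : F θ y = F θ y2 := same_level hy hy2 (by omega)
    have ez : F θ z = F θ z2 := same_level hz hz2 (by omega)
    have t1 := H.three θ y hy z hz y2 hy2 hyz (by rw [← hyz, ey])
    have t2 := H.three θ y hy z hz z2 hz2 hyz ez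
    have hy2' : y2 = y ∨ y2 = z := by
      rcases t1 with h | h | h
      · exact absurd h hyz'
      · exact Or.inr h.symm
      · exact Or.inl h.symm
    have hz2' : z2 = y ∨ z2 = z := by
      rcases t2 with h | h | h
      · exact absurd h hyz'
      · exact Or.inr h.symm
      · exact Or.inl h.symm
    constructor
    · rintro (hr | hr)
      · have : x = y2 := rkm_inj (θ := θ) hx hy2 (by omega)
        rw [this]
        rcases hy2' with h | h
        · rw [h]; exact Or.inl hyr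
        · rw [h]; exact Or.inr hzr
      · have : x = z2 := rkm_inj (θ := θ) hx hz2 (by omega)
        rw [this]
        rcases hz2' with h | h
        · rw [h]; exact Or.inl hyr
        · rw [h]; exact Or.inr hzr
    · have hy3 : rkm S θ y = h - 1 ∨ rkm S θ y = h - 2 := by
        rcases hy2' with h | h
        · rw [← h]; exact Or.inl hyr2
        · rcases hz2' with h'' | h''
          · rw [← h'']; exact Or.inr hzr2
          · exact absurd (h.trans h''.symm) hyz2
      have hz3 : rkm S θ z = h - 1 ∨ rkm S θ z = h - 2 := by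
        rcases hy2' with h | h
        · rcases hz2' with h'' | h''
          · exact absurd (h.trans h''.symm) hyz2
          · rw [← h'']; exact Or.inr hzr2
        · rw [← h]; exact Or.inl hyr2
      rintro (hr | hr)
      · have : x = y := rk_inj (θ := θ) hx hy (by omega)
        rw [this]; exact hy3
      · have : x = z := rk_inj (θ := θ) hx hz (by omega)
        rw [this]; exact hz3

theorem rk_at (H : Sym S h) {θ : ℝ} {a : ℝ × ℝ} (ha : a ∈ S) (h1 : F θ a = 0) (h2 : G θ a < 0) :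
    rk S θ a = h - 1 := by
  have htwo := H.two
  have hc := H.card
  obtain ⟨w, hw, hwr⟩ := rk_surj (S := S) θ (k := h - 1) (by omega)
  have hneg : neg θ w := (H.rk_lt_h hw).mp (by omega)
  have ha' : rk S θ a < h := (H.rk_lt_h ha).mpr (Or.inr ⟨h1, h2⟩)
  by_contra hcon
  have hle : F θ a ≤ F θ w := rk_le_of_lt hw (by omega)
  have hw0 : F θ w = 0 := by
    rcases hneg with h' | h'
    · linarith
    · exact h'.1
  rcases H.F_zero_both ha hw h1 hw0 with h' | h'
  · rw [h'] at hwr; exact hcon hwr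
  · rw [h'] at hneg
    rcases hneg with h'' | h''
    · rw [F_neg, h1] at h''; linarith
    · rw [G_neg] at h''; linarith [h''.2]

theorem rkm_at (H : Sym S h) {θ : ℝ} {a : ℝ × ℝ} (ha : a ∈ S) (h1 : F θ a = 0) (h2 : G θ a < 0) :
    rkm S θ (-a) = h - 1 := by
  have htwo := H.two
  have hc := H.card
  obtain ⟨w, hw, hwr⟩ := rkm_surj (S := S) θ (k := h - 1) (by omega)
  have hneg : negm θ w := (H.rkm_lt_h hw).mp (by omega)
  have hma := H.sym a ha
  have ha' : rkm S θ (-a) < h := (H.rkm_lt_h hma).mpr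
    (Or.inr ⟨by rw [F_neg, h1, neg_zero], by rw [G_neg]; linarith⟩)
  by_contra hcon
  have hle : F θ (-a) ≤ F θ w := rkm_le_of_lt hw (by omega)
  rw [F_neg, h1, neg_zero] at hle
  have hw0 : F θ w = 0 := by
    rcases hneg with h' | h'
    · linarith
    · exact h'.1
  rcases H.F_zero_both ha hw h1 hw0 with h' | h'
  · rw [h'] at hneg
    rcases hneg with h'' | h''
    · rw [h1] at h''; linarith
    · linarith [h''.2]
  · rw [h'] at hwr; exact hcon hwr

end Sym

/-- Two consecutive zeros. -/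
structure Gap (S : Finset (ℝ × ℝ)) (θ0 θ1 : ℝ) (a a' : ℝ × ℝ) : Prop where
  ha : a ∈ S
  ha' : a' ∈ S
  lt : θ0 < θ1
  ltpi : θ1 < θ0 + Real.pi
  F0 : F θ0 a = 0
  G0 : G θ0 a < 0
  F1 : F θ1 a' = 0
  G1 : G θ1 a' < 0
  no : ∀ θ ∈ Set.Ioo θ0 θ1, ∀ x ∈ S, F θ x ≠ 0

namespace Gap

variable {θ0 θ1 θ2 θ3 : ℝ} {a0 a1 a2 a3 : ℝ × ℝ}

theorem ne (H : Sym S h) (g : Gap S θ0 θ1 a0 a1) : F θ0 a1 ≠ 0 := by
  intro h'
  have := two_zeros h' g.F1 (H.ne_zero g.ha') (by linarith [g.ltpi]) (by linarith [g.lt, Real.pi_pos])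
  linarith [g.lt]

theorem ne' (H : Sym S h) (g : Gap S θ0 θ1 a0 a1) : F θ1 a0 ≠ 0 := by
  intro h'
  have := two_zeros g.F0 h' (H.ne_zero g.ha) (by linarith [g.ltpi]) (by linarith [g.lt, Real.pi_pos])
  linarith [g.lt]

theorem cross_ne (H : Sym S h) (g : Gap S θ0 θ1 a0 a1) : cross a0 a1 ≠ 0 := by
  intro hc
  rcases H.cross_zero g.ha g.ha' hc with h' | h'
  · apply g.ne H; rw [h']; exact g.F0
  · apply g.ne H; rw [h', F_neg, g.F0, neg_zero]

theorem ne_neg (H : Sym S h) (g : Gap S θ0 θ1 a0 a1) : a0 ≠ -a1 := by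
  intro h'
  apply g.ne H
  have : a1 = -a0 := by rw [h', neg_neg]
  rw [this, F_neg, g.F0, neg_zero]

theorem sweepP (H : Sym S h) (g : Gap S θ0 θ1 a0 a1) {x : ℝ × ℝ} (hx : x ∈ S) :
    (∀ θ ∈ Set.Ioo θ0 θ1, ((rk S θ x = h - 1 ∨ rk S θ x = h - 2) ↔
      (rk S θ0 x = h - 1 ∨ rk S θ0 x = h - 2))) ∧
    ((rk S θ0 x = h - 1 ∨ rk S θ0 x = h - 2) ↔ (rkm S θ1 x = h - 1 ∨ rkm S θ1 x = h - 2)) :=
  sweep S x x (fun k _ => k = h - 1 ∨ k = h - 2) g.lt
    (fun θ hθ => H.top_const (g.no θ hθ) hx)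

theorem rk_next (H : Sym S h) (g : Gap S θ0 θ1 a0 a1) : rk S θ0 (-a1) = h - 2 := by
  have htwo := H.two
  have h1 := H.rk_at g.ha g.F0 g.G0
  have h2 := H.rkm_at g.ha' g.F1 g.G1
  have h3 := ((g.sweepP H (H.sym _ g.ha')).2).mpr (Or.inl h2)
  rcases h3 with h3 | h3
  · exact absurd (rk_inj g.ha (H.sym _ g.ha') (h1.trans h3.symm)) (g.ne_neg H)
  · exact h3

theorem rkm_prev (H : Sym S h) (g : Gap S θ0 θ1 a0 a1) : rkm S θ1 a0 = h - 2 := by
  have htwo := H.two
  have h1 := H.rk_at g.ha g.F0 g.G0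
  have h2 := H.rkm_at g.ha' g.F1 g.G1
  have h3 := ((g.sweepP H g.ha).2).mp (Or.inl h1)
  rcases h3 with h3 | h3
  · exact absurd (rkm_inj g.ha (H.sym _ g.ha') (h3.trans h2.symm)) (g.ne_neg H)
  · exact h3

/-- the unique critical angle of the gap -/
theorem crit (H : Sym S h) (g : Gap S θ0 θ1 a0 a1) : ∃ γ ∈ Set.Ioo θ0 θ1, F γ (a0 + a1) = 0 ∧
    ∀ θ ∈ Set.Ioo θ0 θ1, θ ≠ γ → ∀ x ∈ S, ∀ y ∈ S, x ≠ y → F θ x ≠ F θ y := by
  have htwo := H.two
  have hc := H.card
  have hm1 := H.sym _ g.ha'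
  have s0 : 0 < F θ0 (a0 + a1) := by
    rw [F_add, g.F0, zero_add]
    have h1 : neg θ0 (-a1) := (H.rk_lt_h hm1).mp (by rw [g.rk_next H]; omega)
    rcases h1 with h1 | h1
    · rw [F_neg] at h1; linarith
    · exfalso; apply g.ne H; rw [F_neg] at h1; linarith [h1.1]
  have s1 : F θ1 (a0 + a1) < 0 := by
    rw [F_add, g.F1, add_zero]
    have h1 : negm θ1 a0 := (H.rkm_lt_h g.ha).mp (by rw [g.rkm_prev H]; omega)
    rcases h1 with h1 | h1
    · exact h1
    · exact absurd h1.1 (g.ne' H)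
  have hcont : ContinuousOn (fun t => F t (a0 + a1)) (Set.Icc θ0 θ1) := (F_cont _).continuousOn
  obtain ⟨γ, hγ, hγ0⟩ := intermediate_value_Ioo' g.lt.le hcont ⟨s1, s0⟩
  have hγ0' : F γ (a0 + a1) = 0 := hγ0
  refine ⟨γ, hγ, hγ0', ?_⟩
  intro θ hθ hne u hu u' hu' huu hF
  obtain ⟨y, hy, hyr⟩ := rk_surj (S := S) θ (k := h - 1) (by omega)
  obtain ⟨z, hz, hzr⟩ := rk_surj (S := S) θ (k := h - 2) (by omega)
  have hyz := H.top_pair (g.no θ hθ) hu hu' huu hF hy hz hyr hzr
  have p0 := ((g.sweepP H g.ha).1 θ hθ).mpr (Or.inl (H.rk_at g.ha g.F0 g.G0))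
  have p1 := ((g.sweepP H hm1).1 θ hθ).mpr (Or.inr (g.rk_next H))
  have hF0 : F θ a0 = F θ y := by
    rcases p0 with p | p
    · rw [rk_inj g.ha hy (p.trans hyr.symm)]
    · rw [rk_inj g.ha hz (p.trans hzr.symm), hyz]
  have hF1 : F θ (-a1) = F θ y := by
    rcases p1 with p | p
    · rw [rk_inj hm1 hy (p.trans hyr.symm)]
    · rw [rk_inj hm1 hz (p.trans hzr.symm), hyz]
  have hw : F θ (a0 + a1) = 0 := by
    rw [F_neg] at hF1
    rw [F_add]; linarith
  have hw0 : a0 + a1 ≠ 0 := by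
    intro h0
    rw [h0, F_zero] at s0
    exact lt_irrefl _ s0
  apply hne
  apply two_zeros hγ0' hw hw0
  · linarith [hθ.2, hγ.1, g.ltpi]
  · linarith [hθ.1, hγ.2, g.ltpi]

/-- relation at a zero -/
theorem rel1 (H : Sym S h) (g : Gap S θ0 θ1 a0 a1) (g' : Gap S θ1 θ2 a1 a2) :
    F θ1 a0 = F θ1 (-a2) := by
  have h1 := g.rkm_prev H
  have h2 := g'.rk_next H
  exact (same_level (H.sym _ g'.ha') g.ha (h2.trans h1.symm)).symm

theorem cross1 (H : Sym S h) (g : Gap S θ0 θ1 a0 a1) (g' : Gap S θ1 θ2 a1 a2) :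
    cross (a0 + a2) a1 = 0 := by
  apply cross_of_F (θ := θ1) _ g.F1
  rw [F_add, g.rel1 H g', F_neg]; ring

theorem third (H : Sym S h) (g : Gap S θ0 θ1 a0 a1) (g' : Gap S θ1 θ2 a1 a2) (hne : a0 ≠ -a2) :
    3 ≤ h ∧ rk S θ1 a0 = h - 3 ∧ rkm S θ1 (-a2) = h - 3 := by
  have htwo := H.two
  have hc := H.card
  have hrel := g.rel1 H g'
  have hm2 := H.sym _ g'.ha'
  have hm1 := H.sym _ g.ha'
  -- values after θ1
  have r1 := H.rk_at g'.ha g'.F0 g'.G0
  have r2 := g'.rk_next H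
  have n0 : F θ1 a0 ≠ 0 := g.ne' H
  have hneg0 : F θ1 a0 < 0 := by
    have : negm θ1 a0 := (H.rkm_lt_h g.ha).mp (by rw [g.rkm_prev H]; omega)
    rcases this with h1 | h1
    · exact h1
    · exact absurd h1.1 n0
  have r0 : rk S θ1 a0 < h := (H.rk_lt_h g.ha).mpr (Or.inl hneg0)
  have r01 : rk S θ1 a0 ≠ h - 1 := by
    intro h'
    have := rk_inj g.ha g'.ha (h'.trans r1.symm)
    apply n0; rw [this]; exact g'.F0
  have r02 : rk S θ1 a0 ≠ h - 2 := by
    intro h'
    exact hne (rk_inj g.ha hm2 (h'.trans r2.symm))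
  have h3 : 3 ≤ h := by omega
  have q1 := H.rkm_at g.ha' g.F1 g.G1
  have q2 := g.rkm_prev H
  have q0 : rkm S θ1 (-a2) < h := (H.rkm_lt_h hm2).mpr (Or.inl (by rw [← hrel]; exact hneg0))
  have q01 : rkm S θ1 (-a2) ≠ h - 1 := by
    intro h'
    have := rkm_inj hm2 hm1 (h'.trans q1.symm)
    apply n0; rw [hrel, this, F_neg, g.F1, neg_zero]
  have q02 : rkm S θ1 (-a2) ≠ h - 2 := by
    intro h'
    exact hne (rkm_inj g.ha hm2 (q2.trans h'.symm))
  refine ⟨h3, ?_, ?_⟩
  · by_contra hcon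
    obtain ⟨w, hw, hwr⟩ := rk_surj (S := S) θ1 (k := h - 3) (by omega)
    have e1 : F θ1 a0 ≤ F θ1 w := rk_le_of_lt hw (by omega)
    have e2 : F θ1 w ≤ F θ1 (-a2) := rk_le_of_lt hm2 (by omega)
    rcases H.three θ1 a0 g.ha w hw (-a2) hm2 (by linarith) (by linarith) with h' | h' | h'
    · rw [h'] at hcon; exact hcon hwr
    · rw [h'] at hwr; omega
    · exact hne h'
  · by_contra hcon
    obtain ⟨w, hw, hwr⟩ := rkm_surj (S := S) θ1 (k := h - 3) (by omega)
    have e1 : F θ1 (-a2) ≤ F θ1 w := rkm_le_of_lt hw (by omega)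
    have e2 : F θ1 w ≤ F θ1 a0 := rkm_le_of_lt g.ha (by omega)
    rcases H.three θ1 a0 g.ha w hw (-a2) hm2 (by linarith) (by linarith) with h' | h' | h'
    · rw [h'] at q2; omega
    · rw [h'] at hwr; exact hcon hwr
    · exact hne h'

theorem cross2 (H : Sym S h) (g : Gap S θ0 θ1 a0 a1) (g' : Gap S θ1 θ2 a1 a2)
    (g'' : Gap S θ2 θ3 a2 a3) (hne : a0 ≠ -a2) (hne' : a1 ≠ -a3) :
    cross (a0 + a3) (a1 + a2) = 0 := by
  obtain ⟨_, t1, _⟩ := g.third H g' hne
  obtain ⟨_, _, t2⟩ := g'.third H g'' hne'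
  obtain ⟨γ, hγ, hγ0, hno⟩ := g'.crit H
  have hm3 := H.sym _ g''.ha'
  have s1 : rkm S γ a0 = h - 3 := by
    have := (sweep S a0 a0 (fun k _ => k = h - 3) (a := θ1) (b := γ) hγ.1 (fun θ hθ => by
      have hr := Sym.rkm_eq_rk θ (hno θ ⟨hθ.1, hθ.2.trans hγ.2⟩ (ne_of_lt hθ.2)) g.ha
      simp only [hr])).2
    exact this.mp t1
  have s2 : rk S γ (-a3) = h - 3 := by
    have := (sweep S (-a3) (-a3) (fun k _ => k = h - 3) (a := γ) (b := θ2) hγ.2 (fun θ hθ => by
      have hr := Sym.rkm_eq_rk θ (hno θ ⟨hγ.1.trans hθ.1, hθ.2⟩ (ne_of_gt hθ.1)) hm3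
      simp only [hr])).2
    exact this.mpr t2
  have h3 := same_level hm3 g.ha (s2.trans s1.symm)
  apply cross_of_F (θ := γ) _ hγ0
  rw [F_neg] at h3
  rw [F_add]; linarith

theorem exists_other (S : Finset (ℝ × ℝ)) (hc : 2 < S.card) (a b : ℝ × ℝ) :
    ∃ x ∈ S, x ≠ a ∧ x ≠ b := by
  classical
  have : (S \ {a, b}).Nonempty := by
    rw [← card_pos]
    have h1 := le_card_sdiff ({a, b} : Finset (ℝ × ℝ)) S
    have h2 : ({a, b} : Finset (ℝ × ℝ)).card ≤ 2 := card_le_two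
    omega
  obtain ⟨x, hx⟩ := this
  rw [Finset.mem_sdiff, Finset.mem_insert, Finset.mem_singleton] at hx
  push Not at hx
  exact ⟨x, hx.1, hx.2.1, hx.2.2⟩

theorem G_ne (H : Sym S h) {θ : ℝ} {x : ℝ × ℝ} (hx : x ∈ S) (hF : F θ x = 0) : G θ x ≠ 0 :=
  fun hG => H.ne_zero hx (FG_zero hF hG)

theorem exists_next (H : Sym S h) {θ0 : ℝ} {a0 : ℝ × ℝ} (ha : a0 ∈ S) (hF : F θ0 a0 = 0)
    (hG : G θ0 a0 < 0) : ∃ θ1 a1, Gap S θ0 θ1 a0 a1 := by
  have htwo := H.two
  have hc := H.card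
  have hpi := Real.pi_pos
  choose g hg1 hg2 hg3 using (fun w : ℝ × ℝ => exists_F_zero θ0 w)
  obtain ⟨x0, hx0, hmin⟩ := Finset.exists_min_image S g ⟨a0, ha⟩
  obtain ⟨b, hb, hb1, hb2⟩ := exists_other S (by omega) a0 (-a0)
  have hgb : g b < θ0 + Real.pi := by
    refine lt_of_le_of_ne (hg2 b) ?_
    intro h'
    have h1 := hg3 b
    rw [h', F_rot, Real.cos_pi, Real.sin_pi] at h1
    have h2 : F θ0 b = 0 := by linarith
    rcases H.F_zero_both ha hb hF h2 with h'' | h''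
    · exact hb1 h''
    · exact hb2 h''
  have hlt : g x0 < θ0 + Real.pi := lt_of_le_of_lt (hmin b hb) hgb
  have hno : ∀ θ ∈ Set.Ioo θ0 (g x0), ∀ x ∈ S, F θ x ≠ 0 := by
    intro θ hθ x hx h0
    have h1 := two_zeros (hg3 x) h0 (H.ne_zero hx) (by linarith [hθ.2, hg1 x])
      (by linarith [hθ.1, hg2 x])
    have := hmin x hx
    linarith [hθ.2]
  rcases lt_or_gt_of_ne (G_ne H hx0 (hg3 x0)) with h' | h'
  · exact ⟨g x0, x0, ⟨ha, hx0, hg1 x0, hlt, hF, hG, hg3 x0, h', hno⟩⟩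
  · refine ⟨g x0, -x0, ⟨ha, H.sym _ hx0, hg1 x0, hlt, hF, hG, ?_, ?_, hno⟩⟩
    · rw [F_neg, hg3 x0, neg_zero]
    · rw [G_neg]; linarith

end Gap

end Pool.Agent.MP4c9d8f
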