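import Mathlib
import Pool.Agent.MP_4c9d8f_co.Gap

set_option autoImplicit false

open Finset Filter Topology

namespace Pool.Agent.MP4c9d8f

variable {S : Finset (ℝ × ℝ)} {h : ℕ}

theorem exists_smul_of_cross {w u : ℝ × ℝ} (hu : u ≠ 0) (hc : cross w u = 0) :
    ∃ c : ℝ, w = c • u := by
  unfold cross at hc
  by_cases h1 : u.1 = 0
  · have h2 : u.2 ≠ 0 := by
      intro h2; apply hu; ext <;> simp [h1, h2]
    refine ⟨w.2 / u.2, ?_⟩
    have hw1 : w.1 = 0 := by
      rw [h1, mul_zero, sub_zero] at hc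
      exact (mul_eq_zero.mp hc).resolve_right h2
    ext
    · simp [h1, hw1]
    · simp only [Prod.smul_snd, smul_eq_mul]; field_simp
  · refine ⟨w.1 / u.1, ?_⟩
    ext
    · simp only [Prod.smul_fst, smul_eq_mul]; field_simp
    · simp only [Prod.smul_snd, smul_eq_mul]; field_simp; linarith

/-- The sequence of consecutive zeros. -/
theorem exists_seq (H : Sym S h) : ∃ (θ : ℕ → ℝ) (a : ℕ → ℝ × ℝ),
    ∀ i, Gap S (θ i) (θ (i + 1)) (a i) (a (i + 1)) := by
  have htwo := H.two
  have hc := H.card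
  -- initial state
  let St := {p : ℝ × (ℝ × ℝ) // p.2 ∈ S ∧ F p.1 p.2 = 0 ∧ G p.1 p.2 < 0}
  have hne : S.Nonempty := by rw [← card_pos]; omega
  obtain ⟨x, hx⟩ := hne
  have init : Nonempty St := by
    obtain ⟨t, _, _, ht⟩ := exists_F_zero 0 x
    rcases lt_or_gt_of_ne (Gap.G_ne H hx ht) with h' | h'
    · exact ⟨⟨(t, x), hx, ht, h'⟩⟩
    · exact ⟨⟨(t, -x), H.sym x hx, by rw [F_neg, ht, neg_zero], by rw [G_neg]; linarith⟩⟩
  have step : ∀ s : St, ∃ s' : St, Gap S s.1.1 s'.1.1 s.1.2 s'.1.2 := by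
    rintro ⟨⟨t, y⟩, hy, hF, hG⟩
    obtain ⟨θ1, a1, g⟩ := Gap.exists_next H hy hF hG
    exact ⟨⟨(θ1, a1), g.ha', g.F1, g.G1⟩, g⟩
  choose nxt hnxt using step
  let s : ℕ → St := fun n => Nat.rec init.some (fun _ s => nxt s) n
  refine ⟨fun n => (s n).1.1, fun n => (s n).1.2, fun i => hnxt (s i)⟩

theorem seq_cover (H : Sym S h) {θ : ℕ → ℝ} {a : ℕ → ℝ × ℝ}
    (g : ∀ i, Gap S (θ i) (θ (i + 1)) (a i) (a (i + 1))) :
    ∀ x ∈ S, ∃ i, a i = x := by
  have hpi := Real.pi_pos
  have mono : StrictMono θ := strictMono_nat_of_lt_succ fun i => (g i).lt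
  have hmem : ∀ i, a i ∈ S := fun i => (g i).ha
  -- pigeonhole
  obtain ⟨i, j, hij, haij⟩ : ∃ i j, i < j ∧ a i = a j := by
    obtain ⟨i, _, j, _, hne, he⟩ := Finset.exists_ne_map_eq_of_card_lt_of_maps_to
      (s := range (S.card + 1)) (t := S) (f := a) (by simp) (fun i _ => hmem i)
    rcases lt_or_gt_of_ne hne with h' | h'
    · exact ⟨i, j, h', he⟩
    · exact ⟨j, i, h', he.symm⟩
  have hbig : θ i + 2 * Real.pi ≤ θ j := by
    by_contra hcon
    push Not at hcon
    have hlt := mono hij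
    have h1 : F (θ j) (a i) = 0 := by rw [haij]; exact (g j).F0
    have h2 : G (θ j) (a i) < 0 := by rw [haij]; exact (g j).G0
    have h0 := (g i).F0
    have hG0 := (g i).G0
    rw [F_rot' (θ i) (θ j), h0, zero_mul, zero_add] at h1
    have hs : Real.sin (θ j - θ i) = 0 := (mul_eq_zero.mp h1).resolve_left (ne_of_lt hG0)
    have hpi' : θ j - θ i = Real.pi := by
      have h3 : Real.sin (θ j - θ i - Real.pi) = 0 := by
        rw [Real.sin_sub_pi, hs, neg_zero]
      have := (Real.sin_eq_zero_iff_of_lt_of_lt (by linarith) (by linarith)).mp h3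
      linarith
    have h4 := G_rot (θ i) Real.pi (a i)
    have h5 : θ i + Real.pi = θ j := by linarith
    rw [h5, Real.sin_pi, Real.cos_pi] at h4
    linarith
  have h0i : θ 0 ≤ θ i := mono.monotone (Nat.zero_le i)
  intro x hx
  -- an angle for x
  obtain ⟨t, ht0, ht1, htF, htG⟩ : ∃ t, θ 0 < t ∧ t ≤ θ 0 + 2 * Real.pi ∧ F t x = 0 ∧ G t x < 0 := by
    obtain ⟨t, h1, h2, h3⟩ := exists_F_zero (θ 0) x
    rcases lt_or_gt_of_ne (Gap.G_ne H hx h3) with h' | h'
    · exact ⟨t, h1, by linarith, h3, h'⟩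
    · refine ⟨t + Real.pi, by linarith, by linarith, ?_, ?_⟩
      · rw [F_rot, h3]; simp
      · rw [G_rot, h3]; simp [h']
  classical
  have hex : ∃ k, t ≤ θ k := ⟨j, by linarith⟩
  let k := Nat.find hex
  have hk : t ≤ θ k := Nat.find_spec hex
  have hkpos : 0 < k := by
    rcases Nat.eq_zero_or_pos k with h' | h'
    · rw [h'] at hk; linarith
    · exact h'
  have hk1 : ¬ t ≤ θ (k - 1) := Nat.find_min hex (by omega)
  push Not at hk1
  have gk := g (k - 1)
  have ek : k - 1 + 1 = k := by omega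
  rw [ek] at gk
  have htk : t = θ k := by
    rcases lt_or_eq_of_le hk with h' | h'
    · exact absurd htF (gk.no t ⟨hk1, h'⟩ x hx)
    · exact h'
  refine ⟨k, ?_⟩
  rw [htk] at htF htG
  rcases H.F_zero_both hx gk.ha' htF gk.F1 with h' | h'
  · exact h'
  · exfalso
    have := gk.G1
    rw [h', G_neg] at this
    linarith

theorem ne_of_three (H : Sym S h) (h3 : 3 ≤ h) {θ0 θ1 θ2 : ℝ} {a0 a1 a2 : ℝ × ℝ}
    (g : Gap S θ0 θ1 a0 a1) (g' : Gap S θ1 θ2 a1 a2) : a0 ≠ -a2 := by
  classical
  intro he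
  have hc := H.card
  have hpi := Real.pi_pos
  have hF2 : F θ2 a0 = 0 := by rw [he, F_neg, g'.F1, neg_zero]
  have hge : θ0 + Real.pi ≤ θ2 := by
    by_contra hcon
    push Not at hcon
    have := two_zeros g.F0 hF2 (H.ne_zero g.ha) (by linarith) (by linarith [g.lt, g'.lt])
    linarith [g.lt, g'.lt]
  -- another point
  have : (S \ {a0, -a0, a1, -a1}).Nonempty := by
    rw [← card_pos]
    have h1 := le_card_sdiff ({a0, -a0, a1, -a1} : Finset (ℝ × ℝ)) S
    have h2 : ({a0, -a0, a1, -a1} : Finset (ℝ × ℝ)).card ≤ 4 := card_le_four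
    omega
  obtain ⟨x, hx⟩ := this
  rw [Finset.mem_sdiff] at hx
  obtain ⟨hxS, hx'⟩ := hx
  simp only [Finset.mem_insert, Finset.mem_singleton] at hx'
  push Not at hx'
  obtain ⟨n1, n2, n3, n4⟩ := hx'
  obtain ⟨t, t1, t2, t3⟩ := exists_F_zero θ0 x
  have t4 : t < θ0 + Real.pi := by
    refine lt_of_le_of_ne t2 ?_
    intro h'
    rw [h', F_rot, Real.cos_pi, Real.sin_pi] at t3
    have h2 : F θ0 x = 0 := by linarith
    rcases H.F_zero_both g.ha hxS g.F0 h2 with h'' | h''
    · exact n1 h''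
    · exact n2 h''
  rcases lt_trichotomy t θ1 with h' | h' | h'
  · exact g.no t ⟨t1, h'⟩ x hxS t3
  · rw [h'] at t3
    rcases H.F_zero_both g.ha' hxS g.F1 t3 with h'' | h''
    · exact n3 h''
    · exact n4 h''
  · exact g'.no t ⟨h', by linarith⟩ x hxS t3

/-- the linear recurrence -/
theorem recurrence (H : Sym S h) : ∃ (a : ℕ → ℝ × ℝ) (c : ℝ), (∀ i, a i ∈ S) ∧
    (∀ x ∈ S, ∃ i, a i = x) ∧ cross (a 0) (a 1) ≠ 0 ∧ ∀ i, a (i + 2) = c • a (i + 1) - a i := by
  obtain ⟨θ, a, g⟩ := exists_seq H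
  have hcover := seq_cover H g
  have hc1 : ∀ i, ∃ c : ℝ, a i + a (i + 2) = c • a (i + 1) := fun i =>
    exists_smul_of_cross (H.ne_zero (g (i + 1)).ha) ((g i).cross1 H (g (i + 1)))
  choose c hc using hc1
  have hconst : ∀ i, c i = c 0 := by
    by_cases h3 : 3 ≤ h
    · have key : ∀ i, c (i + 1) = c i := by
        intro i
        have hn1 := ne_of_three H h3 (g i) (g (i + 1))
        have hn2 := ne_of_three H h3 (g (i + 1)) (g (i + 2))
        have hcr := (g i).cross2 H (g (i + 1)) (g (i + 2)) hn1 hn2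
        have e1 := hc i
        have e2 := hc (i + 1)
        have hne := (g (i + 1)).cross_ne H
        have ei2 : i + 1 + 1 = i + 2 := rfl
        have ei3 : i + 1 + 2 = i + 3 := rfl
        have ei4 : i + 2 + 1 = i + 3 := rfl
        simp only [ei2, ei3] at *
        have e11 : (a i).1 + (a (i + 2)).1 = c i * (a (i + 1)).1 := by
          have := congrArg Prod.fst e1; simpa using this
        have e12 : (a i).2 + (a (i + 2)).2 = c i * (a (i + 1)).2 := by
          have := congrArg Prod.snd e1; simpa using this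
        have e21 : (a (i + 1)).1 + (a (i + 3)).1 = c (i + 1) * (a (i + 2)).1 := by
          have := congrArg Prod.fst e2; simpa using this
        have e22 : (a (i + 1)).2 + (a (i + 3)).2 = c (i + 1) * (a (i + 2)).2 := by
          have := congrArg Prod.snd e2; simpa using this
        have hmul : (c (i + 1) - c i) * cross (a (i + 1)) (a (i + 2)) = 0 := by
          simp only [cross, Prod.fst_add, Prod.snd_add] at *
          have f1 : (a i).1 = c i * (a (i + 1)).1 - (a (i + 2)).1 := by linarith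
          have f2 : (a i).2 = c i * (a (i + 1)).2 - (a (i + 2)).2 := by linarith
          have f3 : (a (i + 3)).1 = c (i + 1) * (a (i + 2)).1 - (a (i + 1)).1 := by linarith
          have f4 : (a (i + 3)).2 = c (i + 1) * (a (i + 2)).2 - (a (i + 1)).2 := by linarith
          rw [f1, f2, f3, f4] at hcr
          linear_combination -hcr
        rcases mul_eq_zero.mp hmul with h' | h'
        · linarith
        · exact absurd h' hne
      intro i
      induction i with
      | zero => rfl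
      | succ n ih => rw [key n, ih]
    · have h0 : ∀ i, c i = 0 := by
        intro i
        have heq : a i = -a (i + 2) := by
          by_contra hne
          exact h3 ((g i).third H (g (i + 1)) hne).1
        have e1 := hc i
        rw [heq, neg_add_cancel] at e1
        rcases smul_eq_zero.mp e1.symm with h' | h'
        · exact h'
        · exact absurd h' (H.ne_zero (g (i + 1)).ha)
      intro i
      rw [h0, h0]
  refine ⟨a, c 0, fun i => (g i).ha, hcover, (g 0).cross_ne H, ?_⟩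
  intro i
  have := hc i
  rw [hconst i] at this
  rw [← this]; abel

end Pool.Agent.MP4c9d8f
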