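import Mathlib
import Pool.Agent.MP_4c9d8f_co.Defs
import Pool.Agent.MP_4c9d8f_co.Sequence
import Pool.Agent.MP_4c9d8f_co.Algebra

set_option autoImplicit false

open Finset

namespace Pool.Agent.MP4c9d8f

theorem mem_regularPolygon {k : ℕ} (hk : k ≠ 0) (z : ℂ) :
    ![z.re, z.im] ∈ regularPolygon k ↔ z ^ k = 1 := by
  have hprim := Complex.isPrimitiveRoot_exp k hk
  have hexp : ∀ j : ℕ, (Complex.exp (2 * Real.pi * Complex.I / k)) ^ j =
      ⟨Real.cos (2 * Real.pi * j / k), Real.sin (2 * Real.pi * j / k)⟩ := by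
    intro j
    rw [← Complex.exp_nat_mul]
    have : (j : ℂ) * (2 * Real.pi * Complex.I / k) =
        ((2 * Real.pi * j / k : ℝ) : ℂ) * Complex.I := by
      push_cast; ring
    rw [this]
    apply Complex.ext
    · rw [Complex.exp_ofReal_mul_I_re]
    · rw [Complex.exp_ofReal_mul_I_im]
  constructor
  · rintro ⟨j, hj⟩
    have h0 := congrFun hj 0
    have h1 := congrFun hj 1
    simp only [Matrix.cons_val_zero, Matrix.cons_val_one] at h0 h1
    have : z = (Complex.exp (2 * Real.pi * Complex.I / k)) ^ (j : ℕ) := by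
      rw [hexp]
      apply Complex.ext
      · exact h0.symm
      · exact h1.symm
    rw [this, pow_right_comm, hprim.pow_eq_one, one_pow]
  · intro hz
    have : NeZero k := ⟨hk⟩
    obtain ⟨i, hi, hzi⟩ := hprim.eq_pow_of_pow_eq_one hz
    refine ⟨⟨i, hi⟩, ?_⟩
    rw [← hzi, hexp]

/-- transfer to `ℝ × ℝ` -/
theorem good_of_admissible (S : Finset (Fin 2 → ℝ)) (h : ℕ) (hcard : S.card = 2 * h) (h2 : 2 ≤ h)
    (hgen : ∀ x ∈ S, ∀ y ∈ S, ∀ z ∈ S, x ≠ y → y ≠ z → x ≠ z →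
      ¬ Collinear ℝ ({x, y, z} : Set (Fin 2 → ℝ)))
    (hadm : Admissible S) :
    Good (S.map (LinearEquiv.finTwoArrow ℝ ℝ).toEquiv.toEmbedding) h := by
  classical
  set e := (LinearEquiv.finTwoArrow ℝ ℝ) with he
  have hmem : ∀ u, u ∈ S.map e.toEquiv.toEmbedding ↔ ∃ x ∈ S, e x = u := by
    intro u
    rw [Finset.mem_map]
    rfl
  have e1 : ∀ x : Fin 2 → ℝ, (e x).1 = x 0 := fun x => rfl
  have e2 : ∀ x : Fin 2 → ℝ, (e x).2 = x 1 := fun x => rfl
  refine ⟨by rw [card_map]; exact hcard, h2, ?_, ?_⟩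
  · intro u hu v hv w hw huv hvw huw hc
    obtain ⟨x, hx, rfl⟩ := (hmem u).mp hu
    obtain ⟨y, hy, rfl⟩ := (hmem v).mp hv
    obtain ⟨z, hz, rfl⟩ := (hmem w).mp hw
    apply hgen x hx y hy z hz (fun h' => huv (by rw [h'])) (fun h' => hvw (by rw [h']))
      (fun h' => huw (by rw [h']))
    obtain ⟨c, hc'⟩ := exists_smul_of_cross (sub_ne_zero.mpr hvw) hc
    rw [collinear_iff_of_mem (p₀ := z) (by simp)]
    refine ⟨y - z, ?_⟩
    intro p hp
    simp only [Set.mem_insert_iff, Set.mem_singleton_iff] at hp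
    rcases hp with rfl | rfl | rfl
    · refine ⟨c, ?_⟩
      have h3 : e (p - z) = e (c • (y - z)) := by rw [map_sub, map_smul, map_sub, hc']
      have h4 := e.injective h3
      rw [vadd_eq_add, ← h4]; abel
    · exact ⟨1, by rw [one_smul, vadd_eq_add]; abel⟩
    · exact ⟨0, by rw [zero_smul, vadd_eq_add]; abel⟩
  · intro θ u hu v hv huv hF
    obtain ⟨x, hx, rfl⟩ := (hmem u).mp hu
    obtain ⟨y, hy, rfl⟩ := (hmem v).mp hv
    have hxy : x ≠ y := fun h' => huv (by rw [h'])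
    let l : (Fin 2 → ℝ) →ₗ[ℝ] ℝ :=
      Real.cos θ • LinearMap.proj 0 + Real.sin θ • LinearMap.proj 1
    have hl : ∀ z, l z = F θ (e z) := by
      intro z
      simp only [l, F, LinearMap.add_apply, LinearMap.smul_apply, LinearMap.proj_apply,
        smul_eq_mul, e1, e2]
      ring
    have hl0 : l ≠ 0 := by
      intro h0
      have h3 : l ![Real.cos θ, Real.sin θ] = 0 := by rw [h0]; rfl
      simp only [l, LinearMap.add_apply, LinearMap.smul_apply, LinearMap.proj_apply,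
        smul_eq_mul, Matrix.cons_val_zero, Matrix.cons_val_one] at h3
      have := Real.cos_sq_add_sin_sq θ
      nlinarith
    have hA := hadm ![x, y] (by
        intro i; fin_cases i
        · exact hx
        · exact hy) (affineIndependent_of_ne ℝ hxy) l (l x) hl0 (by
        intro i; fin_cases i
        · rfl
        · change l y = l x
          rw [hl, hl, hF])
    have hup : dup (S.map e.toEquiv.toEmbedding) (F θ) (F θ (e x)) =
        (l '' {s | s ∈ S ∧ l x < l s}).ncard := by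
      unfold dup
      rw [← Set.ncard_coe_finset]
      congr 1
      ext v
      simp only [coe_filter, Set.mem_image, Set.mem_ofPred_eq, Finset.mem_image]
      constructor
      · rintro ⟨⟨u, hu, rfl⟩, hlt⟩
        obtain ⟨z, hz, rfl⟩ := (hmem u).mp hu
        exact ⟨z, ⟨hz, by rw [hl, hl]; exact hlt⟩, hl z⟩
      · rintro ⟨z, ⟨hz, hlt⟩, rfl⟩
        exact ⟨⟨e z, (hmem _).mpr ⟨z, hz, rfl⟩, (hl z).symm⟩, by rw [← hl x]; exact hlt⟩
    have hlow : dlow (S.map e.toEquiv.toEmbedding) (F θ) (F θ (e x)) =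
        (l '' {s | s ∈ S ∧ l s < l x}).ncard := by
      unfold dlow
      rw [← Set.ncard_coe_finset]
      congr 1
      ext v
      simp only [coe_filter, Set.mem_image, Set.mem_ofPred_eq, Finset.mem_image]
      constructor
      · rintro ⟨⟨u, hu, rfl⟩, hlt⟩
        obtain ⟨z, hz, rfl⟩ := (hmem u).mp hu
        exact ⟨z, ⟨hz, by rw [hl, hl]; exact hlt⟩, hl z⟩
      · rintro ⟨z, ⟨hz, hlt⟩, rfl⟩
        exact ⟨⟨e z, (hmem _).mpr ⟨z, hz, rfl⟩, (hl z).symm⟩, by rw [← hl x]; exact hlt⟩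
    rw [hup, hlow]
    rw [hcard] at hA
    have h5 := le_trans (le_max_left _ _) hA
    have h6 := le_trans (le_max_right _ _) hA
    omega

theorem main (S : Finset (Fin 2 → ℝ)) (h4 : 4 ≤ S.card) (heven : Even S.card)
    (hgen : ∀ x ∈ S, ∀ y ∈ S, ∀ z ∈ S, x ≠ y → y ≠ z → x ≠ z →
      ¬ Collinear ℝ ({x, y, z} : Set (Fin 2 → ℝ)))
    (hadm : Admissible S) : IsAffinelyRegular S.card (S : Set (Fin 2 → ℝ)) := by
  classical
  obtain ⟨h, hh⟩ := heven
  have hcard : S.card = 2 * h := by omega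
  set e := (LinearEquiv.finTwoArrow ℝ ℝ) with he
  have G1 := good_of_admissible S h hcard (by omega) hgen hadm
  rw [← he] at G1
  obtain ⟨o, ho⟩ := G1.central
  have G2 := G1.translate ((1 / 2 : ℝ) • o)
  have hS1 : ∀ u, u ∈ S.map e.toEquiv.toEmbedding ↔ e.symm u ∈ S := by
    intro u
    rw [Finset.mem_map]
    constructor
    · rintro ⟨x, hx, rfl⟩
      have : e.symm (e.toEquiv.toEmbedding x) = x := e.symm_apply_apply x
      rw [this]; exact hx
    · intro hu
      exact ⟨e.symm u, hu, e.apply_symm_apply u⟩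
  set S2 := (S.map e.toEquiv.toEmbedding).map (Equiv.subRight ((1 / 2 : ℝ) • o)).toEmbedding
    with hS2
  have hS2m : ∀ u, u ∈ S2 ↔ u + (1 / 2 : ℝ) • o ∈ S.map e.toEquiv.toEmbedding := by
    intro u
    rw [hS2, Finset.mem_map]
    constructor
    · rintro ⟨x, hx, rfl⟩
      have : (Equiv.subRight ((1 / 2 : ℝ) • o)).toEmbedding x + (1 / 2 : ℝ) • o = x := by
        change x - (1 / 2 : ℝ) • o + (1 / 2 : ℝ) • o = x
        abel
      rw [this]; exact hx
    · intro hu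
      refine ⟨_, hu, ?_⟩
      change u + (1 / 2 : ℝ) • o - (1 / 2 : ℝ) • o = u
      abel
  have hsym : ∀ x ∈ S2, -x ∈ S2 := by
    intro x hx
    rw [hS2m] at hx ⊢
    have h5 := ho _ hx
    have h6 : o - (x + (1 / 2 : ℝ) • o) = -x + (1 / 2 : ℝ) • o := by
      have : o = (1 / 2 : ℝ) • o + (1 / 2 : ℝ) • o := by rw [← add_smul]; norm_num
      nth_rewrite 1 [this]
      abel
    rwa [h6] at h5
  have Hs : Sym S2 h := ⟨G2, hsym⟩
  obtain ⟨a, c, hmem, hcov, hcr, hrec⟩ := recurrence Hs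
  obtain ⟨Λ, hΛ⟩ := roots_of_recurrence S2 a c hmem hcov hcr hrec
  have hcard2 : S2.card = S.card := by rw [hS2, card_map, card_map]
  rw [hcard2] at hΛ
  -- the affine map
  let E : ℂ ≃ₗ[ℝ] (Fin 2 → ℝ) := Complex.basisOneI.equivFun
  have hE : ∀ z : ℂ, E z = ![z.re, z.im] := fun z => by
    rw [Complex.basisOneI.equivFun_apply, Complex.coe_basisOneI_repr]
  let Ψ : (Fin 2 → ℝ) ≃ᵃ[ℝ] (Fin 2 → ℝ) :=
    (AffineEquiv.constVAdd ℝ (Fin 2 → ℝ) (-(e.symm ((1 / 2 : ℝ) • o)))).trans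
      ((e.trans (Λ.trans E)).toAffineEquiv)
  have hΨ : ∀ x, Ψ x = E (Λ (e x - (1 / 2 : ℝ) • o)) := by
    intro x
    have h7 : Ψ x = E (Λ (e (-(e.symm ((1 / 2 : ℝ) • o)) + x))) := rfl
    rw [h7, map_add e, map_neg e, e.apply_symm_apply]
    congr 2
    abel
  refine ⟨Ψ.symm, ?_⟩
  have key : ∀ x, x ∈ S ↔ Ψ x ∈ regularPolygon S.card := by
    intro x
    rw [hΨ, hE, mem_regularPolygon (by omega), ← hΛ, hS2m, sub_add_cancel, hS1,
      e.symm_apply_apply]
  ext x
  rw [Finset.mem_coe, key, Set.mem_image]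
  constructor
  · intro hx
    exact ⟨Ψ x, hx, Ψ.symm_apply_apply x⟩
  · rintro ⟨y, hy, rfl⟩
    rw [Ψ.apply_symm_apply]; exact hy

end Pool.Agent.MP4c9d8f
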