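import Mathlib
import Pool.Agent.MP_4c9d8f_co.Sweep

set_option autoImplicit false

open Finset

namespace Pool.Agent.MP4c9d8f

/-! ### Counting pairs -/

/-- increasing pairs of elements of `X` -/
def prs (X : Finset ℕ) : Finset (ℕ × ℕ) := (X ×ˢ X).filter (fun p => p.1 < p.2)

theorem mem_prs {X : Finset ℕ} {p : ℕ × ℕ} : p ∈ prs X ↔ p.1 ∈ X ∧ p.2 ∈ X ∧ p.1 < p.2 := by
  unfold prs
  rw [mem_filter, mem_product, and_assoc]

theorem card_prs (X : Finset ℕ) : 2 * (prs X).card + X.card = X.card * X.card := by
  classical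
  have h1 : X ×ˢ X = (prs X) ∪ ((prs X).image Prod.swap) ∪ (X.image (fun x => (x, x))) := by
    ext ⟨x, y⟩
    simp only [mem_product, mem_union, mem_prs, mem_image, Prod.mk.injEq, Prod.swap_prod_mk,
      Prod.exists]
    constructor
    · rintro ⟨hx, hy⟩
      rcases lt_trichotomy x y with h | h | h
      · left; left; exact ⟨hx, hy, h⟩
      · right; exact ⟨x, hx, rfl, h⟩
      · left; right; exact ⟨y, x, ⟨hy, hx, h⟩, rfl, rfl⟩
    · rintro ((⟨hx, hy, _⟩ | ⟨a, b, ⟨ha, hb, _⟩, rfl, rfl⟩) | ⟨a, ha, rfl, rfl⟩)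
      · exact ⟨hx, hy⟩
      · exact ⟨hb, ha⟩
      · exact ⟨ha, ha⟩
  have h2 : (X ×ˢ X).card = X.card * X.card := card_product _ _
  have d1 : Disjoint (prs X) ((prs X).image Prod.swap) := by
    rw [disjoint_left]
    rintro ⟨x, y⟩ hp hq
    simp only [mem_prs, mem_image, Prod.exists, Prod.swap_prod_mk, Prod.mk.injEq] at hp hq
    obtain ⟨a, b, ⟨_, _, hab⟩, rfl, rfl⟩ := hq
    omega
  have d2 : Disjoint ((prs X) ∪ ((prs X).image Prod.swap)) (X.image (fun x => (x, x))) := by
    rw [disjoint_left]
    rintro ⟨x, y⟩ hp hq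
    simp only [mem_union, mem_prs, mem_image, Prod.exists, Prod.swap_prod_mk, Prod.mk.injEq] at hp hq
    obtain ⟨c, _, rfl, rfl⟩ := hq
    rcases hp with ⟨_, _, h⟩ | ⟨a, b, ⟨_, _, hab⟩, rfl, h'⟩ <;> omega
  rw [h1, card_union_of_disjoint d2, card_union_of_disjoint d1,
    card_image_of_injective _ Prod.swap_injective,
    card_image_of_injective _ (fun x y h => (Prod.mk.inj h).1)] at h2
  omega

/-- Many points with few values give many equal pairs. -/
theorem eq_pairs (X : Finset ℕ) (f : ℕ → ℝ) (a : ℕ) (ha : (X.image f).card ≤ a) :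
    (X.card - a) + (X.card - 2 * a) ≤ ((prs X).filter (fun p => f p.1 = f p.2)).card := by
  classical
  set Y := X.image f with hY
  let k : ℝ → ℕ := fun y => (X.filter (fun x => f x = y)).card
  let C : ℝ → ℕ := fun y => (prs (X.filter (fun x => f x = y))).card
  have hk : ∑ y ∈ Y, k y = X.card :=
    (card_eq_sum_card_fiberwise (fun x hx => mem_image_of_mem f hx)).symm
  have hC : ∑ y ∈ Y, C y = ((prs X).filter (fun p => f p.1 = f p.2)).card := by
    rw [card_eq_sum_card_fiberwise (f := fun p : ℕ × ℕ => f p.1) (t := Y)]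
    · refine sum_congr rfl (fun y _ => ?_)
      change (prs _).card = _
      congr 1
      ext ⟨u, v⟩
      simp only [mem_prs, mem_filter]
      constructor
      · rintro ⟨⟨hu, h1⟩, ⟨hv, h2⟩, h3⟩
        exact ⟨⟨⟨hu, hv, h3⟩, by rw [h1, h2]⟩, h1⟩
      · rintro ⟨⟨⟨hu, hv, h3⟩, h4⟩, h5⟩
        exact ⟨⟨hu, h5⟩, ⟨hv, by rw [← h4, h5]⟩, h3⟩
    · intro p hp
      rw [mem_coe, mem_filter, mem_prs] at hp
      exact mem_image_of_mem f hp.1.1
  have hkpos : ∀ y ∈ Y, 1 ≤ k y := by
    intro y hy
    obtain ⟨x, hx, hxy⟩ := mem_image.mp hy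
    exact card_pos.mpr ⟨x, mem_filter.mpr ⟨hx, hxy⟩⟩
  have hCk : ∀ y, 2 * C y + k y = k y * k y := fun y => card_prs _
  have h1 : ∀ y ∈ Y, k y ≤ C y + 1 := by
    intro y hy
    have e := hCk y
    have p := hkpos y hy
    by_contra hcon
    push Not at hcon
    obtain ⟨t, ht⟩ : ∃ t, k y = t + 1 := ⟨k y - 1, by omega⟩
    rw [ht] at e hcon
    have : t ≤ t * t := Nat.le_mul_self t
    nlinarith
  have h2 : ∀ y ∈ Y, 2 * k y ≤ C y + 3 := by
    intro y hy
    have e := hCk y
    by_contra hcon
    push Not at hcon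
    have e' : (2 : ℤ) * C y + k y = k y * k y := by exact_mod_cast e
    have hc' : (C y : ℤ) + 4 ≤ 2 * k y := by exact_mod_cast hcon
    have h5 : ((k y : ℤ) - 2) * ((k y : ℤ) - 3) < 0 := by nlinarith
    have h6 : (0 : ℤ) ≤ ((k y : ℤ) - 2) * ((k y : ℤ) - 3) := by
      rcases le_or_gt (k y : ℤ) 2 with h | h
      · nlinarith
      · have : (3 : ℤ) ≤ k y := by omega
        nlinarith
    omega
  have s1 : X.card ≤ ∑ y ∈ Y, C y + Y.card := by
    rw [← hk]
    calc ∑ y ∈ Y, k y ≤ ∑ y ∈ Y, (C y + 1) := sum_le_sum h1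
      _ = _ := by rw [sum_add_distrib]; simp
  have s2 : 2 * X.card ≤ ∑ y ∈ Y, C y + 3 * Y.card := by
    rw [← hk, mul_sum]
    calc ∑ y ∈ Y, 2 * k y ≤ ∑ y ∈ Y, (C y + 3) := sum_le_sum h2
      _ = _ := by rw [sum_add_distrib]; simp [mul_comm]
  rw [← hC]
  omega

/-- Points in a small grid have many inversions. -/
theorem grid (X : Finset ℕ) (hX : X.Nonempty) (f g : ℕ → ℝ)
    (hinj : ∀ u ∈ X, ∀ v ∈ X, f u = f v → g u = g v → u = v) (a b : ℕ)
    (ha : (X.image f).card ≤ a) (hb : (X.image g).card ≤ b) :
    X.card + 1 ≤ a + b + ((X ×ˢ X).filter (fun p => f p.1 < f p.2 ∧ g p.2 < g p.1)).card := by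
  classical
  set I := (X ×ˢ X).filter (fun p => f p.1 < f p.2 ∧ g p.2 < g p.1) with hI
  set R := I.image Prod.fst with hR
  have hRI : R.card ≤ I.card := card_image_le
  have hRX : R ⊆ X := by
    intro x hx
    obtain ⟨p, hp, rfl⟩ := mem_image.mp hx
    rw [hI, mem_filter, mem_product] at hp
    exact hp.1.1
  set X' := X \ R with hX'
  have hcard : X.card = X'.card + R.card := by
    rw [hX', card_sdiff_add_card_eq_card hRX]
  let ρ : ℕ → ℕ := fun x => ((X.image f).filter (fun y => y < f x)).card +
    ((X.image g).filter (fun y => y < g x)).card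
  have hlt : ∀ (h : ℕ → ℝ), ∀ x ∈ X, ∀ x' ∈ X, h x < h x' →
      ((X.image h).filter (fun y => y < h x)).card < ((X.image h).filter (fun y => y < h x')).card := by
    intro h x hx x' hx' hlt
    apply card_lt_card
    rw [ssubset_iff_of_subset]
    · exact ⟨h x, mem_filter.mpr ⟨mem_image_of_mem h hx, hlt⟩,
        fun hc => lt_irrefl _ (mem_filter.mp hc).2⟩
    · intro y hy
      rw [mem_filter] at hy ⊢
      exact ⟨hy.1, hy.2.trans hlt⟩
  have hbd : ∀ (h : ℕ → ℝ), ∀ x ∈ X,
      ((X.image h).filter (fun y => y < h x)).card < (X.image h).card := by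
    intro h x hx
    apply card_lt_card
    rw [ssubset_iff_of_subset (filter_subset _ _)]
    exact ⟨h x, mem_image_of_mem h hx, fun hc => lt_irrefl _ (mem_filter.mp hc).2⟩
  have hnoinv : ∀ x ∈ X', ∀ y ∈ X, f x < f y → g x ≤ g y := by
    intro x hx y hy hxy
    by_contra hcon
    push Not at hcon
    rw [hX', mem_sdiff] at hx
    apply hx.2
    rw [hR, mem_image]
    exact ⟨(x, y), by rw [hI, mem_filter, mem_product]; exact ⟨⟨hx.1, hy⟩, hxy, hcon⟩, rfl⟩
  have hρinj : Set.InjOn ρ (X' : Set ℕ) := by
    have aux : ∀ x ∈ X', ∀ y ∈ X', f x < f y → ρ x < ρ y := by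
      intro x hx y hy hxy
      have hxX : x ∈ X := (mem_sdiff.mp hx).1
      have hyX : y ∈ X := (mem_sdiff.mp hy).1
      have h1 := hlt f x hxX y hyX hxy
      have h2 : ((X.image g).filter (fun z => z < g x)).card ≤
          ((X.image g).filter (fun z => z < g y)).card := by
        apply card_le_card
        intro z hz
        rw [mem_filter] at hz ⊢
        exact ⟨hz.1, lt_of_lt_of_le hz.2 (hnoinv x hx y hyX hxy)⟩
      exact Nat.add_lt_add_of_lt_of_le h1 h2
    intro x hx y hy hxy
    rw [mem_coe] at hx hy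
    have hxX : x ∈ X := (mem_sdiff.mp hx).1
    have hyX : y ∈ X := (mem_sdiff.mp hy).1
    rcases lt_trichotomy (f x) (f y) with h | h | h
    · have := aux x hx y hy h; omega
    · rcases lt_trichotomy (g x) (g y) with h' | h' | h'
      · have := hlt g x hxX y hyX h'
        simp only [ρ, h] at hxy
        omega
      · exact hinj x hxX y hyX h h'
      · have := hlt g y hyX x hxX h'
        simp only [ρ, h] at hxy
        omega
    · have := aux y hy x hx h; omega
  have hcard' : X'.card + 1 ≤ a + b := by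
    rcases X'.eq_empty_or_nonempty with he | ⟨x0, hx0⟩
    · rw [he, card_empty]
      obtain ⟨x, hx⟩ := hX
      have : 0 < (X.image f).card := card_pos.mpr ⟨f x, mem_image_of_mem f hx⟩
      omega
    · have hmaps : ∀ x ∈ X', ρ x ∈ range (a + b - 1) := by
        intro x hx
        have hxX : x ∈ X := (mem_sdiff.mp hx).1
        have h1 := hbd f x hxX
        have h2 := hbd g x hxX
        rw [mem_range]
        simp only [ρ]
        omega
      have h3 := card_le_card_of_injOn ρ hmaps hρinj
      rw [card_range] at h3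
      have h4 : 0 < X'.card := card_pos.mpr ⟨x0, hx0⟩
      omega
  omega

/-! ### The fan -/

/-- The position of the direction `q j - q i` relative to `q k`. -/
def cc (q : ℕ → ℝ × ℝ) (k i j : ℕ) : ℝ := cross (q k) (q j) - cross (q k) (q i)

/-- a fan of `N` vectors in counterclockwise order -/
def IsFan (N : ℕ) (q : ℕ → ℝ × ℝ) : Prop := ∀ i j, i < j → j < N → 0 < cross (q i) (q j)

theorem cross_self (u : ℝ × ℝ) : cross u u = 0 := by unfold cross; ring

theorem cross_comm' (u v : ℝ × ℝ) : cross u v = - cross v u := by unfold cross; ring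

section OneSide

variable {N a : ℕ} {q : ℕ → ℝ × ℝ}

theorem cc_self_pos (hq : IsFan N q) {i j : ℕ} (hij : i < j) (hj : j < N) : 0 < cc q i i j := by
  unfold cc
  rw [cross_self, sub_zero]
  exact hq i j hij hj

theorem cc_mono (hq : IsFan N q) {k k' i j : ℕ} (hk : k < k') (hk' : k' ≤ i) (hij : i < j)
    (hj : j < N) (h : cc q k' i j ≤ 0) : cc q k i j < 0 := by
  have hpos := cc_self_pos hq hij hj
  rcases eq_or_lt_of_le hk' with he | hlt
  · rw [he] at h; linarith
  · have h1 := hq k i (by omega) (by omega)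
    have h2 := hq k' i hlt (by omega)
    have h3 := hq k k' hk (by omega)
    have hid : cross (q k) (q i) * cc q k' i j =
        cross (q k') (q i) * cc q k i j + cross (q k) (q k') * cc q i i j := by
      unfold cc cross; ring
    by_contra hcon
    push Not at hcon
    have e1 : 0 ≤ cross (q k') (q i) * cc q k i j := mul_nonneg h2.le hcon
    have e2 : 0 < cross (q k) (q k') * cc q i i j := mul_pos h3 hpos
    have e3 : cross (q k) (q i) * cc q k' i j ≤ 0 := mul_nonpos_of_nonneg_of_nonpos h1.le h
    linarith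

/-- pairs whose direction is opposite to `q k`, or between the opposites of `q k`, `q (k+1)` -/
noncomputable def Cset (N : ℕ) (q : ℕ → ℝ × ℝ) (k : ℕ) : Finset (ℕ × ℕ) := by
  classical exact (prs (range N)).filter (fun p => k < p.1 ∧ (cc q k p.1 p.2 = 0 ∨
    (k + 1 < p.1 ∧ cc q k p.1 p.2 < 0 ∧ 0 < cc q (k + 1) p.1 p.2)))

/-- pairs of the left type -/
noncomputable def TL (N : ℕ) (q : ℕ → ℝ × ℝ) : Finset (ℕ × ℕ) := by
  classical exact (prs (range N)).filter (fun p => cc q 0 p.1 p.2 ≤ 0)

theorem sum_Cset_le (hq : IsFan N q) : ∑ k ∈ range N, (Cset N q k).card ≤ (TL N q).card := by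
  classical
  rw [← card_biUnion]
  · apply card_le_card
    intro p hp
    rw [mem_biUnion] at hp
    obtain ⟨k, _, hp⟩ := hp
    unfold Cset at hp
    unfold TL
    rw [mem_filter] at hp ⊢
    refine ⟨hp.1, ?_⟩
    have hp1 := mem_prs.mp hp.1
    rw [mem_range, mem_range] at hp1
    have hle : cc q k p.1 p.2 ≤ 0 := by
      rcases hp.2.2 with h | h
      · exact h.le
      · exact h.2.1.le
    rcases Nat.eq_zero_or_pos k with h0 | h0
    · rw [← h0]; exact hle
    · exact (cc_mono hq h0 hp.2.1.le hp1.2.2 hp1.2.1 hle).le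
  · have key : ∀ k k', k < k' → Disjoint (Cset N q k) (Cset N q k') := by
      intro k k' hk
      rw [disjoint_left]
      intro p hp hp'
      unfold Cset at hp hp'
      rw [mem_filter] at hp hp'
      have hp1 := mem_prs.mp hp.1
      rw [mem_range, mem_range] at hp1
      have hle : cc q k' p.1 p.2 ≤ 0 := by
        rcases hp'.2.2 with h | h
        · exact h.le
        · exact h.2.1.le
      have hlt : cc q k p.1 p.2 < 0 := cc_mono hq hk hp'.2.1.le hp1.2.2 hp1.2.1 hle
      rcases hp.2.2 with h | h
      · linarith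
      · have : cc q (k + 1) p.1 p.2 ≤ 0 := by
          rcases Nat.lt_or_ge (k + 1) k' with h' | h'
          · exact (cc_mono hq h' hp'.2.1.le hp1.2.2 hp1.2.1 hle).le
          · have : k + 1 = k' := by omega
            rw [this]; exact hle
        linarith [h.2.2]
    intro k _ k' _ hne
    rcases lt_or_gt_of_ne hne with h | h
    · exact key k k' h
    · exact (key k' k h).symm

theorem card_Cset (hq : IsFan N q)
    (hL : ∀ k < N, ((Ioo k N).image (fun j => cross (q k) (q j))).card ≤ a) {k : ℕ} (hk : k < N) :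
    (N - 1 - k - a) + 2 * (N - 1 - k - 2 * a) ≤ (Cset N q k).card := by
  classical
  have hcardI : (Ioo k N).card = N - 1 - k := by rw [Nat.card_Ioo]; omega
  -- equal pairs
  have h1 := eq_pairs (Ioo k N) (fun j => cross (q k) (q j)) a (hL k hk)
  rw [hcardI] at h1
  set E1 := (prs (Ioo k N)).filter (fun p => cross (q k) (q p.1) = cross (q k) (q p.2)) with hE1
  -- inversions
  set E2 := ((Ioo (k + 1) N) ×ˢ (Ioo (k + 1) N)).filter (fun p =>
    cross (q k) (q p.1) < cross (q k) (q p.2) ∧
      cross (q (k + 1)) (q p.2) < cross (q (k + 1)) (q p.1)) with hE2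
  have h2 : N - 1 - k - 2 * a ≤ E2.card := by
    rcases (Ioo (k + 1) N).eq_empty_or_nonempty with he | hne
    · have he' : (Ioo (k + 1) N).card = 0 := by rw [he, card_empty]
      rw [Nat.card_Ioo] at he'
      have ha := hL k hk
      rcases Nat.eq_zero_or_pos a with h0 | h0
      · rw [h0, Nat.le_zero, card_eq_zero, image_eq_empty] at ha
        rw [ha, card_empty] at hcardI
        omega
      · omega
    · have hk1 : k + 1 < N := by
        obtain ⟨x, hx⟩ := hne
        rw [mem_Ioo] at hx; omega
      have h3 := grid (Ioo (k + 1) N) hne (fun j => cross (q k) (q j))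
        (fun j => cross (q (k + 1)) (q j)) ?_ a a ?_ (hL (k + 1) hk1)
      · rw [Nat.card_Ioo] at h3
        change _ ≤ a + a + E2.card at h3
        omega
      · intro u hu v hv e1 e2
        rw [mem_Ioo] at hu hv
        have hc := hq k (k + 1) (by omega) hk1
        by_contra hne'
        have huv : cross (q u) (q v) = 0 := by
          have : cross (q k) (q (k + 1)) * cross (q u) (q v) = 0 := by
            unfold cross at *
            linear_combination ((q (k + 1)).1 * (q v).2 - (q (k + 1)).2 * (q v).1) * e1 -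
              ((q k).1 * (q v).2 - (q k).2 * (q v).1) * e2
          exact (mul_eq_zero.mp this).resolve_left hc.ne'
        rcases lt_or_gt_of_ne hne' with h | h
        · have := hq u v h hv.2; linarith
        · have := hq v u h hu.2
          rw [cross_comm'] at this; linarith
      · refine le_trans (card_le_card ?_) (hL k hk)
        intro y hy
        rw [mem_image] at hy ⊢
        obtain ⟨j, hj, rfl⟩ := hy
        rw [mem_Ioo] at hj
        exact ⟨j, mem_Ioo.mpr ⟨by omega, hj.2⟩, rfl⟩
  have hE2img : (E2.image Prod.swap).card = E2.card :=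
    card_image_of_injective _ Prod.swap_injective
  have hdisj : Disjoint E1 (E2.image Prod.swap) := by
    rw [disjoint_left]
    rintro ⟨u, v⟩ h3 h4
    rw [mem_image] at h4
    obtain ⟨⟨u', v'⟩, h4, h5⟩ := h4
    simp only [Prod.swap_prod_mk, Prod.mk.injEq] at h5
    obtain ⟨rfl, rfl⟩ := h5
    rw [hE1, mem_filter] at h3
    rw [hE2, mem_filter] at h4
    linarith [h3.2, h4.2.1]
  have hsub : E1 ∪ E2.image Prod.swap ⊆ Cset N q k := by
    intro p hp
    rw [mem_union] at hp
    unfold Cset
    rw [mem_filter]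
    rcases hp with hp | hp
    · rw [hE1, mem_filter, mem_prs, mem_Ioo, mem_Ioo] at hp
      refine ⟨mem_prs.mpr ⟨mem_range.mpr (by omega), mem_range.mpr (by omega), hp.1.2.2⟩,
        hp.1.1.1, Or.inl ?_⟩
      unfold cc; linarith [hp.2]
    · rw [mem_image] at hp
      obtain ⟨⟨u, v⟩, hp, rfl⟩ := hp
      rw [hE2, mem_filter, mem_product, mem_Ioo, mem_Ioo] at hp
      simp only at hp
      obtain ⟨⟨hu, hv⟩, h5, h6⟩ := hp
      have hvu : v < u := by
        by_contra hcon
        push Not at hcon
        rcases eq_or_lt_of_le hcon with h | h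
        · rw [h] at h5; exact lt_irrefl _ h5
        · have h7 : cc q (k + 1) u v ≤ 0 := by unfold cc; linarith
          have h8 := cc_mono hq (Nat.lt_succ_self k) (by omega) h hv.2 h7
          unfold cc at h8; linarith
      simp only [Prod.swap_prod_mk]
      refine ⟨mem_prs.mpr ⟨mem_range.mpr hv.2, mem_range.mpr hu.2, hvu⟩, by omega, Or.inr
        ⟨hv.1, ?_, ?_⟩⟩
      · unfold cc; linarith
      · unfold cc; linarith
  have h6 := card_le_card hsub
  rw [card_union_of_disjoint hdisj, hE2img] at h6
  omega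

theorem sum_trunc (N a : ℕ) : 2 * ∑ k ∈ range N, (k - a) = (N - a) * (N - a - 1) := by
  induction N with
  | zero => simp
  | succ n ih =>
    rw [sum_range_succ, mul_add, ih]
    rcases Nat.lt_or_ge n a with h | h
    · have e1 : n - a = 0 := by omega
      have e2 : n + 1 - a = 0 := by omega
      simp [e1, e2]
    · obtain ⟨t, rfl⟩ : ∃ t, n = a + t := ⟨n - a, by omega⟩
      have e1 : a + t - a = t := by omega
      have e2 : a + t + 1 - a = t + 1 := by omega
      rw [e1, e2]
      cases t with
      | zero => simp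
      | succ t => simp only [Nat.add_sub_cancel]; ring

/-- lower bound for the number of pairs of the left type -/
theorem card_TL (hq : IsFan N q)
    (hL : ∀ k < N, ((Ioo k N).image (fun j => cross (q k) (q j))).card ≤ a) :
    (N - a) * (N - a - 1) + 2 * ((N - 2 * a) * (N - 2 * a - 1)) ≤ 2 * (TL N q).card := by
  have h1 := sum_Cset_le hq
  have h2 : ∑ k ∈ range N, ((N - 1 - k - a) + 2 * (N - 1 - k - 2 * a)) ≤
      ∑ k ∈ range N, (Cset N q k).card :=
    sum_le_sum (fun k hk => card_Cset hq hL (mem_range.mp hk))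
  have h3 : ∑ k ∈ range N, ((N - 1 - k - a) + 2 * (N - 1 - k - 2 * a)) =
      ∑ k ∈ range N, ((k - a) + 2 * (k - 2 * a)) :=
    Finset.sum_range_reflect (fun k => (k - a) + 2 * (k - 2 * a)) N
  have h4 := sum_trunc N a
  have h5 := sum_trunc N (2 * a)
  have h6 := h2.trans h1
  rw [h3, sum_add_distrib, ← mul_sum] at h6
  rw [← h4, ← h5]
  omega

end OneSide

section TwoSides

variable {N a : ℕ} {q : ℕ → ℝ × ℝ}

/-- pairs of the right type -/
noncomputable def TR (N : ℕ) (q : ℕ → ℝ × ℝ) : Finset (ℕ × ℕ) := by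
  classical exact (prs (range N)).filter (fun p => cc q (N - 1) p.1 p.2 ≤ 0)

/-- pairs whose direction is outside the fan -/
noncomputable def OO (N : ℕ) (q : ℕ → ℝ × ℝ) : Finset (ℕ × ℕ) := by
  classical exact (prs (range N)).filter (fun p => 0 < cc q 0 p.1 p.2 ∧ 0 < cc q (N - 1) p.1 p.2)

/-- the reflected fan -/
def refl (N : ℕ) (q : ℕ → ℝ × ℝ) (j : ℕ) : ℝ × ℝ := ((q (N - 1 - j)).2, (q (N - 1 - j)).1)

theorem cross_refl (i j : ℕ) :
    cross (refl N q i) (refl N q j) = - cross (q (N - 1 - i)) (q (N - 1 - j)) := by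
  unfold refl cross; ring

theorem refl_fan (hq : IsFan N q) : IsFan N (refl N q) := by
  intro i j hij hj
  rw [cross_refl, cross_comm', neg_neg]
  exact hq _ _ (by omega) (by omega)

theorem refl_L (hR : ∀ k < N, ((range k).image (fun j => cross (q k) (q j))).card ≤ a) :
    ∀ k < N, ((Ioo k N).image (fun j => cross (refl N q k) (refl N q j))).card ≤ a := by
  classical
  intro k hk
  have h1 := hR (N - 1 - k) (by omega)
  have h2 : (Ioo k N).image (fun j => cross (refl N q k) (refl N q j)) ⊆
      ((range (N - 1 - k)).image (fun j => cross (q (N - 1 - k)) (q j))).image (fun y => -y) := by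
    intro y hy
    rw [mem_image] at hy
    obtain ⟨j, hj, rfl⟩ := hy
    rw [mem_Ioo] at hj
    rw [cross_refl, mem_image]
    exact ⟨_, mem_image_of_mem _ (mem_range.mpr (by omega : N - 1 - j < N - 1 - k)), rfl⟩
  exact (card_le_card h2).trans (card_image_le.trans h1)

theorem card_TR (hq : IsFan N q)
    (hR : ∀ k < N, ((range k).image (fun j => cross (q k) (q j))).card ≤ a) :
    (N - a) * (N - a - 1) + 2 * ((N - 2 * a) * (N - 2 * a - 1)) ≤ 2 * (TR N q).card := by
  classical
  have h1 := card_TL (refl_fan hq) (refl_L hR)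
  have h2 : (TL N (refl N q)).card ≤ (TR N q).card := by
    apply card_le_card_of_injOn (fun p => (N - 1 - p.2, N - 1 - p.1))
    · intro p hp
      rw [mem_coe] at hp ⊢
      unfold TL at hp
      unfold TR
      rw [mem_filter, mem_prs, mem_range, mem_range] at hp ⊢
      refine ⟨⟨by simp only; omega, by simp only; omega, by simp only; omega⟩, ?_⟩
      have := hp.2
      unfold cc at this ⊢
      rw [cross_refl, cross_refl, Nat.sub_zero] at this
      simp only
      linarith
    · intro p hp p' hp' he
      rw [mem_coe] at hp hp'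
      unfold TL at hp hp'
      rw [mem_filter, mem_prs, mem_range, mem_range] at hp hp'
      simp only [Prod.mk.injEq] at he
      ext <;> omega
  omega

theorem cc_not_both (hq : IsFan N q) {i j : ℕ} (hij : i < j) (hj : j < N)
    (h1 : cc q 0 i j ≤ 0) (h2 : cc q (N - 1) i j ≤ 0) : False := by
  have hpos := cc_self_pos hq hij hj
  rcases Nat.eq_zero_or_pos i with h0 | h0
  · rw [h0] at hpos h1; linarith
  · have e1 := hq 0 i h0 (by omega)
    have e2 := hq i (N - 1) (by omega) (by omega)
    have e3 := hq 0 (N - 1) (by omega) (by omega)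
    have hid : cross (q 0) (q (N - 1)) * cc q i i j =
        cross (q i) (q (N - 1)) * cc q 0 i j + cross (q 0) (q i) * cc q (N - 1) i j := by
      unfold cc cross; ring
    have f1 : 0 < cross (q 0) (q (N - 1)) * cc q i i j := mul_pos e3 hpos
    have f2 := mul_nonpos_of_nonneg_of_nonpos e2.le h1
    have f3 := mul_nonpos_of_nonneg_of_nonpos e1.le h2
    linarith

theorem card_OO (hq : IsFan N q) (hN : 2 ≤ N)
    (hL : ∀ k < N, ((Ioo k N).image (fun j => cross (q k) (q j))).card ≤ a)
    (hR : ∀ k < N, ((range k).image (fun j => cross (q k) (q j))).card ≤ a) :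
    N ≤ 2 * a + (OO N q).card := by
  classical
  set f : ℕ → ℝ := fun j => cross (q 0) (q j) with hf
  set g : ℕ → ℝ := fun j => -cross (q (N - 1)) (q j) with hg
  set X := Ioo 0 N with hX
  have hXne : X.Nonempty := ⟨1, by rw [hX, mem_Ioo]; omega⟩
  have hinj : ∀ u ∈ X, ∀ v ∈ X, f u = f v → g u = g v → u = v := by
    intro u hu v hv e1 e2
    rw [hX, mem_Ioo] at hu hv
    have hc := hq 0 (N - 1) (by omega) (by omega)
    simp only [hf, hg] at e1 e2
    by_contra hne'
    have huv : cross (q u) (q v) = 0 := by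
      have : cross (q 0) (q (N - 1)) * cross (q u) (q v) = 0 := by
        unfold cross at *
        linear_combination ((q (N - 1)).1 * (q v).2 - (q (N - 1)).2 * (q v).1) * e1 +
          ((q 0).1 * (q v).2 - (q 0).2 * (q v).1) * e2
      exact (mul_eq_zero.mp this).resolve_left hc.ne'
    rcases lt_or_gt_of_ne hne' with h | h
    · have := hq u v h hv.2; linarith
    · have := hq v u h hu.2
      rw [cross_comm'] at this; linarith
  have hfa : (X.image f).card ≤ a := hL 0 (by omega)
  have hgb : (X.image g).card ≤ a + 1 := by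
    have h1 : X.image g ⊆
        insert 0 (((range (N - 1)).image (fun j => cross (q (N - 1)) (q j))).image (fun y => -y)) := by
      intro y hy
      rw [mem_image] at hy
      obtain ⟨j, hj, rfl⟩ := hy
      rw [hX, mem_Ioo] at hj
      rw [mem_insert]
      rcases Nat.lt_or_ge j (N - 1) with h | h
      · right
        rw [mem_image]
        exact ⟨_, mem_image_of_mem _ (mem_range.mpr h), rfl⟩
      · left
        have : j = N - 1 := by omega
        simp only [hg, this, cross_self, neg_zero]
    refine (card_le_card h1).trans ((card_insert_le _ _).trans ?_)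
    have := hR (N - 1) (by omega)
    have h2 := (card_image_le (s := (range (N - 1)).image (fun j => cross (q (N - 1)) (q j)))
      (f := fun y : ℝ => -y)).trans this
    omega
  have h3 := grid X hXne f g hinj a (a + 1) hfa hgb
  rw [hX, Nat.card_Ioo] at h3
  set I := ((Ioo 0 N) ×ˢ (Ioo 0 N)).filter (fun p => f p.1 < f p.2 ∧ g p.2 < g p.1) with hI
  have h4 : insert (0, N - 1) I ⊆ OO N q := by
    intro p hp
    unfold OO
    rw [mem_filter, mem_prs, mem_range, mem_range]
    rw [mem_insert] at hp
    rcases hp with rfl | hp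
    · have hc := hq 0 (N - 1) (by omega) (by omega)
      refine ⟨⟨by simp only; omega, by simp only; omega, by simp only; omega⟩, ?_, ?_⟩
      · unfold cc; simp only [cross_self]; linarith
      · unfold cc; simp only [cross_self]
        rw [cross_comm' (q (N - 1)) (q 0)]; linarith
    · rw [hI, mem_filter, mem_product, mem_Ioo, mem_Ioo] at hp
      obtain ⟨⟨hu, hv⟩, h5, h6⟩ := hp
      simp only [hf, hg] at h5 h6
      have hlt : p.1 < p.2 := by
        by_contra hcon
        push Not at hcon
        rcases eq_or_lt_of_le hcon with h | h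
        · rw [h] at h5; exact lt_irrefl _ h5
        · apply cc_not_both hq h hu.2
          · unfold cc; linarith
          · unfold cc; linarith
      refine ⟨⟨hu.2, hv.2, hlt⟩, ?_, ?_⟩
      · unfold cc; linarith
      · unfold cc; linarith
  have h5 : (0, N - 1) ∉ I := by
    intro h
    rw [hI, mem_filter, mem_product, mem_Ioo] at h
    exact lt_irrefl _ h.1.1.1
  have h6 := card_le_card h4
  rw [card_insert_of_notMem h5] at h6
  omega

/-- **The fan inequality.** -/
theorem fan_ineq (hq : IsFan N q) (hN : 2 ≤ N)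
    (hL : ∀ k < N, ((Ioo k N).image (fun j => cross (q k) (q j))).card ≤ a)
    (hR : ∀ k < N, ((range k).image (fun j => cross (q k) (q j))).card ≤ a)
    (D : ℕ) (hD : N = D + 2 * a) : 5 * (D * D) ≤ 2 * (a * a) + 3 * D := by
  classical
  have h1 := card_TL hq hL
  have h2 := card_TR hq hR
  have h3 := card_OO hq hN hL hR
  have h4 := card_prs (range N)
  rw [card_range] at h4
  have d1 : Disjoint (TL N q) (TR N q) := by
    rw [disjoint_left]
    intro p hp hp'
    unfold TL at hp
    unfold TR at hp'
    rw [mem_filter, mem_prs, mem_range, mem_range] at hp hp'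
    exact cc_not_both hq hp.1.2.2 hp.1.2.1 hp.2 hp'.2
  have d2 : Disjoint (TL N q ∪ TR N q) (OO N q) := by
    rw [disjoint_left]
    intro p hp hp'
    rw [mem_union] at hp
    unfold TL TR at hp
    unfold OO at hp'
    rw [mem_filter, mem_filter] at hp
    rw [mem_filter] at hp'
    rcases hp with h | h
    · linarith [h.2, hp'.2.1]
    · linarith [h.2, hp'.2.2]
  have h5 : (TL N q ∪ TR N q ∪ OO N q) ⊆ prs (range N) := by
    intro p hp
    rw [mem_union, mem_union] at hp
    unfold TL TR OO at hp
    rw [mem_filter, mem_filter, mem_filter] at hp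
    tauto
  have h6 := card_le_card h5
  rw [card_union_of_disjoint d2, card_union_of_disjoint d1] at h6
  rcases Nat.eq_zero_or_pos D with h0 | h0
  · rw [h0]; simp
  · obtain ⟨d, rfl⟩ : ∃ d, D = d + 1 := ⟨D - 1, by omega⟩
    have e1 : N - a = d + 1 + a := by omega
    have e2 : N - a - 1 = d + a := by omega
    have e3 : N - 2 * a = d + 1 := by omega
    have e4 : N - 2 * a - 1 = d := by omega
    rw [e2, e1, e4, e3] at h1 h2
    have h7 : d + 1 ≤ (OO N q).card := by omega
    generalize (TL N q).card = x at *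
    generalize (TR N q).card = y at *
    generalize (OO N q).card = z at *
    generalize (prs (range N)).card = w at *
    rw [hD] at h4
    clear h3 h5 d1 d2
    linarith

end TwoSides

end Pool.Agent.MP4c9d8f
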