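import Mathlib
import Pool.Agent.MP_4c9d8f_co.Fan

set_option autoImplicit false
set_option maxRecDepth 100000

open Finset

namespace Pool.Agent.MP4c9d8f

/-! ### A fan of eight vectors has more than three levels somewhere

The finite case checks below concern the levels (numbered `0, 1, 2`) of the vectors `j > k` of the fan
with respect to `q k`. -/

/-- all pairs `(i, j)` of the list satisfy `v j < v i` (`s = true`) or `v j ≤ v i` (`s = false`) -/
def okM (s : Bool) (v : ℕ → Fin 3) (M : List (ℕ × ℕ)) : Bool :=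
  M.all fun p => if s then decide (v p.2 < v p.1) else decide (v p.2 ≤ v p.1)

/-- one of the lists is fine -/
def anyM (s : Bool) (v : ℕ → Fin 3) (Ms : List (List (ℕ × ℕ))) : Bool := Ms.any (okM s v)

/-- the function given by a list of values, starting at `k` -/
def vf (k : ℕ) (l : List (Fin 3)) (j : ℕ) : Fin 3 := l.getD (j - k) 0

def masks3 : List (List (ℕ × ℕ)) := [[(4, 5)],
  [(5, 6)],
  [(6, 7)]]

def masks2 : List (List (ℕ × ℕ)) := [[(3, 5), (4, 5), (4, 6)],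
  [(3, 4), (3, 6), (4, 6), (5, 6)],
  [(3, 6), (4, 5), (4, 6), (5, 6)],
  [(4, 5), (4, 6), (4, 7), (5, 6)],
  [(3, 4), (5, 6), (5, 7)],
  [(4, 6), (5, 6), (5, 7)],
  [(3, 5), (4, 5), (6, 7)],
  [(4, 5), (4, 6), (4, 7), (6, 7)],
  [(3, 4), (5, 7), (6, 7)],
  [(4, 5), (4, 7), (5, 7), (6, 7)],
  [(4, 7), (5, 6), (5, 7), (6, 7)]]

def masks1 : List (List (ℕ × ℕ)) := [[(2, 5), (3, 5), (3, 6), (4, 5), (4, 6), (4, 7)],
  [(2, 5), (2, 6), (3, 4), (3, 5), (3, 6), (4, 5), (4, 6), (5, 6)],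
  [(2, 6), (3, 4), (3, 5), (3, 6), (3, 7), (4, 5), (4, 6), (5, 6)],
  [(2, 6), (3, 5), (3, 6), (4, 5), (4, 6), (4, 7), (5, 6)],
  [(3, 4), (3, 5), (3, 6), (3, 7), (4, 5), (4, 6), (4, 7), (5, 6)],
  [(2, 4), (2, 6), (3, 4), (3, 6), (3, 7), (4, 6), (5, 6), (5, 7)],
  [(2, 6), (3, 4), (3, 5), (3, 6), (3, 7), (4, 6), (5, 6), (5, 7)],
  [(2, 3), (2, 6), (3, 6), (4, 6), (4, 7), (5, 6), (5, 7)],
  [(2, 6), (3, 4), (3, 6), (3, 7), (4, 6), (4, 7), (5, 6), (5, 7)],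
  [(2, 6), (3, 6), (3, 7), (4, 5), (4, 6), (4, 7), (5, 6), (5, 7)],
  [(2, 5), (3, 4), (3, 5), (3, 7), (4, 5), (4, 7), (6, 7)],
  [(2, 5), (3, 5), (3, 7), (4, 5), (4, 6), (4, 7), (6, 7)],
  [(2, 4), (2, 7), (3, 4), (3, 5), (3, 7), (4, 7), (5, 7), (6, 7)],
  [(2, 7), (3, 4), (3, 5), (3, 6), (3, 7), (4, 5), (4, 7), (5, 7), (6, 7)],
  [(2, 3), (2, 7), (3, 7), (4, 5), (4, 6), (4, 7), (5, 7), (6, 7)],
  [(2, 7), (3, 5), (3, 7), (4, 5), (4, 6), (4, 7), (5, 7), (6, 7)],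
  [(3, 4), (3, 5), (3, 6), (3, 7), (4, 5), (4, 6), (4, 7), (5, 7), (6, 7)],
  [(2, 4), (3, 4), (3, 7), (5, 6), (5, 7), (6, 7)],
  [(3, 4), (3, 5), (3, 6), (3, 7), (4, 7), (5, 6), (5, 7), (6, 7)],
  [(2, 3), (2, 7), (3, 7), (4, 6), (4, 7), (5, 6), (5, 7), (6, 7)],
  [(2, 7), (3, 4), (3, 6), (3, 7), (4, 6), (4, 7), (5, 6), (5, 7), (6, 7)],
  [(2, 3), (4, 5), (4, 6), (4, 7), (5, 6), (5, 7), (6, 7)],
  [(3, 6), (3, 7), (4, 5), (4, 6), (4, 7), (5, 6), (5, 7), (6, 7)]]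

/-- the weight of the inverted pairs -/
def wt (v : ℕ → Fin 3) : ℕ :=
  (if v 4 ≤ v 2 then 2 else 0) + (if v 5 ≤ v 3 then 2 else 0) + (if v 4 ≤ v 1 then 1 else 0) +
  (if v 6 ≤ v 3 then 1 else 0) + (if v 3 ≤ v 2 then 1 else 0) + (if v 5 ≤ v 4 then 1 else 0) +
  (if v 5 ≤ v 2 then 1 else 0) + (if v 4 ≤ v 3 then 1 else 0)

theorem stepA : ∀ b4 b5 b6 b7 : Fin 3, anyM false (vf 4 [b4, b5, b6, b7]) masks3 = true := by
  decide +kernel

theorem stepB : ∀ b3 b4 b5 b6 b7 : Fin 3, anyM true (vf 3 [b3, b4, b5, b6, b7]) masks3 = true →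
    anyM false (vf 3 [b3, b4, b5, b6, b7]) masks2 = true := by
  decide +kernel

theorem stepC : ∀ b2 b3 b4 b5 b6 b7 : Fin 3,
    anyM true (vf 2 [b2, b3, b4, b5, b6, b7]) masks2 = true →
    anyM false (vf 2 [b2, b3, b4, b5, b6, b7]) masks1 = true := by
  decide +kernel

theorem stepD : ∀ b1 b2 b3 b4 b5 b6 b7 : Fin 3,
    anyM true (vf 1 [b1, b2, b3, b4, b5, b6, b7]) masks1 = true →
    6 ≤ wt (vf 1 [b1, b2, b3, b4, b5, b6, b7]) := by
  decide +kernel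

theorem anyM_mono {Ms : List (List (ℕ × ℕ))} {v v' : ℕ → Fin 3} (s s' : Bool)
    (h : ∀ M ∈ Ms, ∀ p ∈ M, (if s then v p.2 < v p.1 else v p.2 ≤ v p.1) →
      (if s' then v' p.2 < v' p.1 else v' p.2 ≤ v' p.1)) (ha : anyM s v Ms = true) :
    anyM s' v' Ms = true := by
  unfold anyM at ha ⊢
  rw [List.any_eq_true] at ha ⊢
  obtain ⟨M, hM, hok⟩ := ha
  refine ⟨M, hM, ?_⟩
  unfold okM at hok ⊢
  rw [List.all_eq_true] at hok ⊢
  intro p hp
  have h1 := hok p hp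
  have h2 := h M hM p hp
  cases s <;> cases s' <;> simp_all

theorem rng3 : ∀ M ∈ masks3, ∀ p ∈ M, 3 < p.1 ∧ p.1 < p.2 ∧ p.2 < 8 := by decide
theorem rng2 : ∀ M ∈ masks2, ∀ p ∈ M, 2 < p.1 ∧ p.1 < p.2 ∧ p.2 < 8 := by decide
theorem rng1 : ∀ M ∈ masks1, ∀ p ∈ M, 1 < p.1 ∧ p.1 < p.2 ∧ p.2 < 8 := by decide

theorem vf4 (v : ℕ → Fin 3) (j : ℕ) (h1 : 4 ≤ j) (h2 : j < 8) :
    vf 4 [v 4, v 5, v 6, v 7] j = v j := by
  interval_cases j <;> rfl

theorem vf3 (v : ℕ → Fin 3) (j : ℕ) (h1 : 3 ≤ j) (h2 : j < 8) :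
    vf 3 [v 3, v 4, v 5, v 6, v 7] j = v j := by
  interval_cases j <;> rfl

theorem vf2 (v : ℕ → Fin 3) (j : ℕ) (h1 : 2 ≤ j) (h2 : j < 8) :
    vf 2 [v 2, v 3, v 4, v 5, v 6, v 7] j = v j := by
  interval_cases j <;> rfl

theorem vf1 (v : ℕ → Fin 3) (j : ℕ) (h1 : 1 ≤ j) (h2 : j < 8) :
    vf 1 [v 1, v 2, v 3, v 4, v 5, v 6, v 7] j = v j := by
  interval_cases j <;> rfl

/-- The four level functions together. -/
theorem levels_chain (v0 v1 v2 v3 : ℕ → Fin 3)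
    (h01 : ∀ i j, 1 < i → i < j → j < 8 → v1 j ≤ v1 i → v0 j < v0 i)
    (h12 : ∀ i j, 2 < i → i < j → j < 8 → v2 j ≤ v2 i → v1 j < v1 i)
    (h23 : ∀ i j, 3 < i → i < j → j < 8 → v3 j ≤ v3 i → v2 j < v2 i) : 6 ≤ wt v0 := by
  have a3 := stepA (v3 4) (v3 5) (v3 6) (v3 7)
  have b2 := stepB (v2 3) (v2 4) (v2 5) (v2 6) (v2 7) (anyM_mono false true (fun M hM p hp h => by
    obtain ⟨r1, r2, r3⟩ := rng3 M hM p hp
    simp only [Bool.false_eq_true, if_false, if_true] at h ⊢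
    rw [vf4 v3 _ (by omega) (by omega), vf4 v3 _ (by omega) (by omega)] at h
    rw [vf3 v2 _ (by omega) (by omega), vf3 v2 _ (by omega) (by omega)]
    exact h23 _ _ r1 r2 r3 h) a3)
  have c1 := stepC (v1 2) (v1 3) (v1 4) (v1 5) (v1 6) (v1 7)
    (anyM_mono false true (fun M hM p hp h => by
    obtain ⟨r1, r2, r3⟩ := rng2 M hM p hp
    simp only [Bool.false_eq_true, if_false, if_true] at h ⊢
    rw [vf3 v2 _ (by omega) (by omega), vf3 v2 _ (by omega) (by omega)] at h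
    rw [vf2 v1 _ (by omega) (by omega), vf2 v1 _ (by omega) (by omega)]
    exact h12 _ _ r1 r2 r3 h) b2)
  have d0 := stepD (v0 1) (v0 2) (v0 3) (v0 4) (v0 5) (v0 6) (v0 7)
    (anyM_mono false true (fun M hM p hp h => by
    obtain ⟨r1, r2, r3⟩ := rng1 M hM p hp
    simp only [Bool.false_eq_true, if_false, if_true] at h ⊢
    rw [vf2 v1 _ (by omega) (by omega), vf2 v1 _ (by omega) (by omega)] at h
    rw [vf1 v0 _ (by omega) (by omega), vf1 v0 _ (by omega) (by omega)]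
    exact h01 _ _ r1 r2 r3 h) c1)
  exact d0

/-- the level of the vector `j` with respect to `q k` -/
noncomputable def lev (q : ℕ → ℝ × ℝ)
    (hL : ∀ k < 8, ((Ioo k 8).image (fun j => cross (q k) (q j))).card ≤ 3) (k j : ℕ) : Fin 3 :=
  if h : j ∈ Ioo k 8 then
    ⟨(((Ioo k 8).image (fun j => cross (q k) (q j))).filter
      (fun y => y < cross (q k) (q j))).card, by
        have hk : k < 8 := by rw [mem_Ioo] at h; omega
        refine lt_of_lt_of_le (card_lt_card ?_) (hL k hk)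
        rw [ssubset_iff_of_subset (filter_subset _ _)]
        exact ⟨cross (q k) (q j), mem_image_of_mem _ h, fun hc => lt_irrefl _ (mem_filter.mp hc).2⟩⟩
  else 0

theorem lev_le {q : ℕ → ℝ × ℝ}
    {hL : ∀ k < 8, ((Ioo k 8).image (fun j => cross (q k) (q j))).card ≤ 3} {k i j : ℕ}
    (hi : i ∈ Ioo k 8) (hj : j ∈ Ioo k 8) :
    lev q hL k j ≤ lev q hL k i ↔ cc q k i j ≤ 0 := by
  unfold lev cc
  rw [dif_pos hi, dif_pos hj, Fin.mk_le_mk]
  constructor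
  · intro h
    by_contra hcon
    push Not at hcon
    have : ((Ioo k 8).image (fun j => cross (q k) (q j))).filter (fun y => y < cross (q k) (q i)) ⊂
        ((Ioo k 8).image (fun j => cross (q k) (q j))).filter (fun y => y < cross (q k) (q j)) := by
      rw [ssubset_iff_of_subset]
      · exact ⟨cross (q k) (q i), mem_filter.mpr ⟨mem_image_of_mem _ hi, by linarith⟩,
          fun hc => lt_irrefl _ (mem_filter.mp hc).2⟩
      · intro y hy
        rw [mem_filter] at hy ⊢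
        exact ⟨hy.1, by linarith [hy.2]⟩
    have := card_lt_card this
    omega
  · intro h
    apply card_le_card
    intro y hy
    rw [mem_filter] at hy ⊢
    exact ⟨hy.1, by linarith [hy.2]⟩

theorem lev_lt {q : ℕ → ℝ × ℝ}
    {hL : ∀ k < 8, ((Ioo k 8).image (fun j => cross (q k) (q j))).card ≤ 3} {k i j : ℕ}
    (hi : i ∈ Ioo k 8) (hj : j ∈ Ioo k 8) :
    lev q hL k j < lev q hL k i ↔ cc q k i j < 0 := by
  rw [← not_le, lev_le hj hi]
  unfold cc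
  constructor
  · intro h; push Not at h; linarith
  · intro h; push Not; linarith

theorem lev_mono {q : ℕ → ℝ × ℝ} (hq : IsFan 8 q)
    (hL : ∀ k < 8, ((Ioo k 8).image (fun j => cross (q k) (q j))).card ≤ 3) (k i j : ℕ)
    (h1 : k + 1 < i) (h2 : i < j) (h3 : j < 8) (h : lev q hL (k + 1) j ≤ lev q hL (k + 1) i) :
    lev q hL k j < lev q hL k i := by
  rw [lev_lt (mem_Ioo.mpr ⟨by omega, by omega⟩) (mem_Ioo.mpr ⟨by omega, by omega⟩)]
  rw [lev_le (mem_Ioo.mpr ⟨by omega, by omega⟩) (mem_Ioo.mpr ⟨by omega, by omega⟩)] at h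
  exact cc_mono hq (Nat.lt_succ_self k) (by omega) h2 h3 h

open Classical in
/-- the weight of the left pairs is at least `6` -/
theorem weight_left {q : ℕ → ℝ × ℝ} (hq : IsFan 8 q)
    (hL : ∀ k < 8, ((Ioo k 8).image (fun j => cross (q k) (q j))).card ≤ 3) :
    6 ≤ (if cc q 0 2 4 ≤ 0 then 2 else 0) + (if cc q 0 3 5 ≤ 0 then 2 else 0) +
      (if cc q 0 1 4 ≤ 0 then 1 else 0) + (if cc q 0 3 6 ≤ 0 then 1 else 0) +
      (if cc q 0 2 3 ≤ 0 then 1 else 0) + (if cc q 0 4 5 ≤ 0 then 1 else 0) +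
      (if cc q 0 2 5 ≤ 0 then 1 else 0) + (if cc q 0 3 4 ≤ 0 then 1 else 0) := by
  have h := levels_chain (lev q hL 0) (lev q hL 1) (lev q hL 2) (lev q hL 3)
    (fun i j h1 h2 h3 h => lev_mono hq hL 0 i j h1 h2 h3 h)
    (fun i j h1 h2 h3 h => lev_mono hq hL 1 i j h1 h2 h3 h)
    (fun i j h1 h2 h3 h => lev_mono hq hL 2 i j h1 h2 h3 h)
  unfold wt at h
  have e : ∀ i j, 0 < i → i < 8 → 0 < j → j < 8 →
      (lev q hL 0 j ≤ lev q hL 0 i ↔ cc q 0 i j ≤ 0) := fun i j h1 h2 h3 h4 =>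
    lev_le (mem_Ioo.mpr ⟨h1, h2⟩) (mem_Ioo.mpr ⟨h3, h4⟩)
  rw [if_congr (e 2 4 (by norm_num) (by norm_num) (by norm_num) (by norm_num)) rfl rfl,
    if_congr (e 3 5 (by norm_num) (by norm_num) (by norm_num) (by norm_num)) rfl rfl,
    if_congr (e 1 4 (by norm_num) (by norm_num) (by norm_num) (by norm_num)) rfl rfl,
    if_congr (e 3 6 (by norm_num) (by norm_num) (by norm_num) (by norm_num)) rfl rfl,
    if_congr (e 2 3 (by norm_num) (by norm_num) (by norm_num) (by norm_num)) rfl rfl,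
    if_congr (e 4 5 (by norm_num) (by norm_num) (by norm_num) (by norm_num)) rfl rfl,
    if_congr (e 2 5 (by norm_num) (by norm_num) (by norm_num) (by norm_num)) rfl rfl,
    if_congr (e 3 4 (by norm_num) (by norm_num) (by norm_num) (by norm_num)) rfl rfl] at h
  exact h

theorem cc_refl (q : ℕ → ℝ × ℝ) (i j : ℕ) : cc (refl 8 q) 0 i j = cc q 7 (7 - j) (7 - i) := by
  unfold cc
  rw [cross_refl, cross_refl]
  norm_num
  ring

/-- There is no fan of eight vectors with at most three levels on each side. -/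
theorem no_eight {q : ℕ → ℝ × ℝ} (hq : IsFan 8 q)
    (hL : ∀ k < 8, ((Ioo k 8).image (fun j => cross (q k) (q j))).card ≤ 3)
    (hR : ∀ k < 8, ((range k).image (fun j => cross (q k) (q j))).card ≤ 3) : False := by
  classical
  have h1 := weight_left hq hL
  have h2 := weight_left (refl_fan hq) (refl_L hR)
  simp only [cc_refl] at h2
  norm_num at h2
  have hno : ∀ i j, i < j → j < 8 → ¬ (cc q 0 i j ≤ 0 ∧ cc q 7 i j ≤ 0) :=
    fun i j hij hj h => cc_not_both hq hij hj h.1 h.2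
  have e1 := hno 2 4 (by norm_num) (by norm_num)
  have e2 := hno 3 5 (by norm_num) (by norm_num)
  have e3 := hno 1 4 (by norm_num) (by norm_num)
  have e4 := hno 3 6 (by norm_num) (by norm_num)
  have e5 := hno 2 3 (by norm_num) (by norm_num)
  have e6 := hno 4 5 (by norm_num) (by norm_num)
  have e7 := hno 2 5 (by norm_num) (by norm_num)
  have e8 := hno 3 4 (by norm_num) (by norm_num)
  have key : ∀ (p r : Prop) [Decidable p] [Decidable r] (c : ℕ), ¬ (p ∧ r) →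
      (if p then c else 0) + (if r then c else 0) ≤ c := by
    intro p r _ _ c h
    by_cases hp : p <;> by_cases hr : r <;> simp_all
  have f1 := key _ _ 2 e1
  have f2 := key _ _ 2 e2
  have f3 := key _ _ 1 e3
  have f4 := key _ _ 1 e4
  have f5 := key _ _ 1 e5
  have f6 := key _ _ 1 e6
  have f7 := key _ _ 1 e7
  have f8 := key _ _ 1 e8
  omega

end Pool.Agent.MP4c9d8f
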