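import Mathlib
import Pool.Agent.MP_4c9d8f_co.Fan

set_option autoImplicit false

open Finset

namespace Pool.Agent.MP4c9d8f

variable {Φ : Type*} [AddCommGroup Φ] [Module ℝ Φ] [Module.Finite ℝ Φ] {α : Type*} [DecidableEq α]

theorem exists_vanish (e : α → (Φ →ₗ[ℝ] ℝ)) (Z : Finset α) (hZ : Z.card < Module.finrank ℝ Φ) :
    ∃ φ : Φ, φ ≠ 0 ∧ ∀ x ∈ Z, e x φ = 0 := by
  let L : Φ →ₗ[ℝ] (Z → ℝ) := LinearMap.pi (fun x => e x)
  have hlt : Module.finrank ℝ (Z → ℝ) < Module.finrank ℝ Φ := by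
    rw [Module.finrank_fintype_fun_eq_card, Fintype.card_coe]; exact hZ
  obtain ⟨φ, hφ, hne⟩ := Submodule.exists_mem_ne_zero_of_ne_bot
    (LinearMap.ker_ne_bot_of_finrank_lt (f := L) hlt)
  refine ⟨φ, hne, fun x hx => ?_⟩
  have := congrFun (LinearMap.mem_ker.mp hφ) ⟨x, hx⟩
  exact this

/-- the zeros of `φ` in `S` -/
noncomputable def Zr (e : α → (Φ →ₗ[ℝ] ℝ)) (S : Finset α) (φ : Φ) : Finset α := by
  classical exact S.filter (fun x => e x φ = 0)

theorem mem_Zr {e : α → (Φ →ₗ[ℝ] ℝ)} {S : Finset α} {φ : Φ} {x : α} :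
    x ∈ Zr e S φ ↔ x ∈ S ∧ e x φ = 0 := by
  unfold Zr; rw [mem_filter]

theorem facet (e : α → (Φ →ₗ[ℝ] ℝ)) (S : Finset α) (m : ℕ) (hdim : Module.finrank ℝ Φ = m + 1)
    (hGP : ∀ φ : Φ, φ ≠ 0 → (Zr e S φ).card ≤ m) (hpos : ∃ φ0 : Φ, ∀ x ∈ S, 0 < e x φ0)
    (hcard : m + 1 ≤ S.card) :
    ∃ φ : Φ, φ ≠ 0 ∧ (∀ x ∈ S, 0 ≤ e x φ) ∧ (Zr e S φ).card = m := by
  have key : ∀ k, k ≤ m → ∃ φ : Φ, φ ≠ 0 ∧ (∀ x ∈ S, 0 ≤ e x φ) ∧ k ≤ (Zr e S φ).card := by
    intro k
    induction k with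
    | zero =>
      intro _
      obtain ⟨φ0, h0⟩ := hpos
      refine ⟨φ0, ?_, fun x hx => (h0 x hx).le, Nat.zero_le _⟩
      rintro rfl
      have hne : S.Nonempty := by rw [← card_pos]; omega
      obtain ⟨x, hx⟩ := hne
      have := h0 x hx
      rw [map_zero] at this
      exact lt_irrefl _ this
    | succ k ih =>
      intro hk
      obtain ⟨φ, hφ0, hφ, hkz⟩ := ih (by omega)
      rcases Nat.lt_or_ge k (Zr e S φ).card with hlt | hge
      · exact ⟨φ, hφ0, hφ, hlt⟩
      have hZk : (Zr e S φ).card = k := by omega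
      have hZS : Zr e S φ ⊆ S := fun x hx => (mem_Zr.mp hx).1
      -- a point outside
      obtain ⟨s0, hs0, hs0Z⟩ : ∃ s0 ∈ S, s0 ∉ Zr e S φ := by
        by_contra hcon
        push Not at hcon
        have := card_le_card (fun x hx => hcon x hx : S ⊆ Zr e S φ)
        omega
      obtain ⟨φ', hφ'0, hφ'⟩ := exists_vanish e (insert s0 (Zr e S φ)) (by
        rw [card_insert_of_notMem hs0Z, hdim]; omega)
      obtain ⟨s, hs, hsne⟩ : ∃ s ∈ S, e s φ' ≠ 0 := by
        by_contra hcon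
        push Not at hcon
        have h1 := card_le_card (fun x hx => mem_Zr.mpr ⟨hx, hcon x hx⟩ : S ⊆ Zr e S φ')
        have h2 := hGP φ' hφ'0
        omega
      -- choose the sign
      obtain ⟨χ, hχ, s', hs', hneg⟩ : ∃ χ : Φ, (∀ x ∈ insert s0 (Zr e S φ), e x χ = 0) ∧
          ∃ s' ∈ S, e s' χ < 0 := by
        rcases lt_or_gt_of_ne hsne with h | h
        · exact ⟨φ', hφ', s, hs, h⟩
        · refine ⟨-φ', fun x hx => by rw [map_neg, hφ' x hx, neg_zero], s, hs, ?_⟩
          rw [map_neg]; linarith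
      set A := S.filter (fun x => e x χ < 0) with hA
      have hAne : A.Nonempty := ⟨s', by rw [hA, mem_filter]; exact ⟨hs', hneg⟩⟩
      obtain ⟨t, htA, htmin⟩ := Finset.exists_min_image A (fun x => e x φ / (-(e x χ))) hAne
      rw [hA, mem_filter] at htA
      have hnotZ : ∀ x ∈ S, e x χ < 0 → 0 < e x φ := by
        intro x hx hxneg
        rcases lt_or_eq_of_le (hφ x hx) with h | h
        · exact h
        · exfalso
          have := hχ x (mem_insert_of_mem (mem_Zr.mpr ⟨hx, h.symm⟩))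
          linarith
      set τ := e t φ / (-(e t χ)) with hτ
      have hτpos : 0 < τ := div_pos (hnotZ t htA.1 htA.2) (by linarith [htA.2])
      refine ⟨φ + τ • χ, ?_, ?_, ?_⟩
      · intro h0
        have h1 : e s0 (φ + τ • χ) = 0 := by rw [h0, map_zero]
        rw [map_add, map_smul, hχ s0 (mem_insert_self _ _), smul_zero, add_zero] at h1
        exact hs0Z (mem_Zr.mpr ⟨hs0, h1⟩)
      · intro x hx
        rw [map_add, map_smul, smul_eq_mul]
        rcases lt_or_ge (e x χ) 0 with h | h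
        · have h1 := htmin x (by rw [hA, mem_filter]; exact ⟨hx, h⟩)
          have h2 : 0 < -(e x χ) := by linarith
          have h3 : τ ≤ e x φ / (-(e x χ)) := h1
          rw [le_div_iff₀ h2] at h3
          linarith
        · have := mul_nonneg hτpos.le h
          have := hφ x hx
          linarith
      · have hsub : insert t (Zr e S φ) ⊆ Zr e S (φ + τ • χ) := by
          intro x hx
          rw [mem_insert] at hx
          rw [mem_Zr, map_add, map_smul, smul_eq_mul]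
          rcases hx with rfl | hx
          · refine ⟨htA.1, ?_⟩
            rw [hτ]
            have : e x χ ≠ 0 := htA.2.ne
            field_simp
            ring
          · have h1 := mem_Zr.mp hx
            refine ⟨h1.1, ?_⟩
            rw [h1.2, hχ x (mem_insert_of_mem hx)]; ring
        have htZ : t ∉ Zr e S φ := by
          intro h
          have := hnotZ t htA.1 htA.2
          rw [(mem_Zr.mp h).2] at this
          exact lt_irrefl _ this
        have h4 := card_le_card hsub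
        rw [card_insert_of_notMem htZ] at h4
        omega
  obtain ⟨φ, h1, h2, h3⟩ := key m le_rfl
  exact ⟨φ, h1, h2, le_antisymm (hGP φ h1) h3⟩

theorem exists_fan (e : α → (Φ →ₗ[ℝ] ℝ)) (S : Finset α) (m a : ℕ) (hm : 1 ≤ m)
    (hdim : Module.finrank ℝ Φ = m + 1)
    (hGP : ∀ φ : Φ, φ ≠ 0 → (Zr e S φ).card ≤ m) (hpos : ∃ φ0 : Φ, ∀ x ∈ S, 0 < e x φ0)
    (hcard : m + 1 ≤ S.card)
    (hadm : ∀ φ : Φ, φ ≠ 0 → (Zr e S φ).card = m →
      ((S.filter (fun x => 0 < e x φ)).image (fun x => e x φ)).card ≤ a ∧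
      ((S.filter (fun x => e x φ < 0)).image (fun x => e x φ)).card ≤ a) :
    ∃ q : ℕ → ℝ × ℝ, IsFan (S.card - m + 1) q ∧
      (∀ k < S.card - m + 1,
        ((Ioo k (S.card - m + 1)).image (fun j => cross (q k) (q j))).card ≤ a) ∧
      (∀ k < S.card - m + 1, ((range k).image (fun j => cross (q k) (q j))).card ≤ a) := by
  obtain ⟨φ1, hφ10, hφ1, hZ⟩ := facet e S m hdim hGP hpos hcard
  set Z := Zr e S φ1 with hZdef
  have hZS : Z ⊆ S := fun x hx => (mem_Zr.mp hx).1
  obtain ⟨s1, hs1⟩ : Z.Nonempty := by rw [← card_pos]; omega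
  set T := Z.erase s1 with hT
  have hTcard : T.card = m - 1 := by rw [hT, card_erase_of_mem hs1, hZ]
  obtain ⟨s0, hs0, hs0Z⟩ : ∃ s0 ∈ S, s0 ∉ Z := by
    by_contra hcon
    push Not at hcon
    have := card_le_card (fun x hx => hcon x hx : S ⊆ Z)
    omega
  have hs0T : s0 ∉ T := fun h => hs0Z (mem_of_mem_erase h)
  obtain ⟨φ', hφ'0, hφ'⟩ := exists_vanish e (insert s0 T) (by
    rw [card_insert_of_notMem hs0T, hdim, hTcard]; omega)
  have hφ's1 : e s1 φ' ≠ 0 := by
    intro h0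
    have hsub : insert s0 Z ⊆ Zr e S φ' := by
      intro x hx
      rw [mem_insert] at hx
      rw [mem_Zr]
      rcases hx with rfl | hx
      · exact ⟨hs0, hφ' _ (mem_insert_self _ _)⟩
      · refine ⟨hZS hx, ?_⟩
        by_cases hxs : x = s1
        · rw [hxs]; exact h0
        · exact hφ' x (mem_insert_of_mem (mem_erase.mpr ⟨hxs, hx⟩))
    have h1 := card_le_card hsub
    rw [card_insert_of_notMem hs0Z] at h1
    have h2 := hGP φ' hφ'0
    omega
  obtain ⟨φ2, hφ2T, hφ2s1⟩ : ∃ φ2 : Φ, (∀ x ∈ T, e x φ2 = 0) ∧ 0 < e s1 φ2 := by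
    rcases lt_or_gt_of_ne hφ's1 with h | h
    · refine ⟨-φ', fun x hx => ?_, by rw [map_neg]; linarith⟩
      rw [map_neg, hφ' x (mem_insert_of_mem hx), neg_zero]
    · exact ⟨φ', fun x hx => hφ' x (mem_insert_of_mem hx), h⟩
  have hφ1T : ∀ x ∈ T, e x φ1 = 0 := fun x hx => (mem_Zr.mp (mem_of_mem_erase hx)).2
  have hφ1s1 : e s1 φ1 = 0 := (mem_Zr.mp hs1).2
  have hs1S : s1 ∈ S := hZS hs1
  set E := S \ T with hE
  have hTS : T ⊆ S := (erase_subset _ _).trans hZS
  have hEcard : E.card = S.card - m + 1 := by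
    rw [hE, card_sdiff_of_subset hTS, hTcard]; omega
  have hs1E : s1 ∈ E := by
    rw [hE, mem_sdiff]; exact ⟨hs1S, notMem_erase _ _⟩
  have hEpos : ∀ x ∈ E, x ≠ s1 → 0 < e x φ1 := by
    intro x hx hne
    rw [hE, mem_sdiff] at hx
    rcases lt_or_eq_of_le (hφ1 x hx.1) with h | h
    · exact h
    · exact absurd (mem_erase.mpr ⟨hne, mem_Zr.mpr ⟨hx.1, h.symm⟩⟩) hx.2
  let P : α → ℝ × ℝ := fun x => (e x φ1, e x φ2)
  have hP0 : ∀ x ∈ E, P x ≠ 0 := by
    intro x hx h0
    have h1 : e x φ1 = 0 := congrArg Prod.fst h0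
    have h2 : e x φ2 = 0 := congrArg Prod.snd h0
    by_cases hxs : x = s1
    · rw [hxs] at h2; linarith
    · have := hEpos x hx hxs; linarith
  -- the functionals h_s
  let H : α → Φ := fun s => (e s φ1) • φ2 - (e s φ2) • φ1
  have hH : ∀ s x, e x (H s) = cross (P s) (P x) := by
    intro s x
    simp only [H, P, cross, map_sub, map_smul, smul_eq_mul]
  have hH0 : ∀ s ∈ E, H s ≠ 0 := by
    intro s hs h0
    have h1 : e s1 (H s) = 0 := by rw [h0, map_zero]
    rw [hH] at h1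
    simp only [P, cross, hφ1s1, mul_zero, sub_zero] at h1
    have h2 : e s φ1 = 0 := (mul_eq_zero.mp h1).resolve_right hφ2s1.ne'
    have h3 : (e s φ2) • φ1 = 0 := by
      have : H s = -((e s φ2) • φ1) := by simp only [H, h2, zero_smul, zero_sub]
      rw [this] at h0
      exact neg_eq_zero.mp h0
    have h4 : e s φ2 = 0 := (smul_eq_zero.mp h3).resolve_right hφ10
    exact hP0 s hs (by simp only [P, h2, h4]; rfl)
  have hHZ : ∀ s ∈ E, insert s T ⊆ Zr e S (H s) := by
    intro s hs x hx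
    rw [mem_insert] at hx
    rw [mem_Zr, hH]
    rcases hx with rfl | hx
    · exact ⟨(mem_sdiff.mp hs).1, cross_self _⟩
    · refine ⟨hTS hx, ?_⟩
      simp only [P, cross, hφ1T x hx, hφ2T x hx]; ring
  have hsT : ∀ s ∈ E, s ∉ T := fun s hs => (mem_sdiff.mp hs).2
  have hHm : ∀ s ∈ E, (Zr e S (H s)).card = m := by
    intro s hs
    apply le_antisymm (hGP _ (hH0 s hs))
    have := card_le_card (hHZ s hs)
    rw [card_insert_of_notMem (hsT s hs), hTcard] at this
    omega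
  have hcross : ∀ s ∈ E, ∀ s' ∈ E, s ≠ s' → cross (P s) (P s') ≠ 0 := by
    intro s hs s' hs' hne h0
    have hsub : insert s' (insert s T) ⊆ Zr e S (H s) := by
      intro x hx
      rw [mem_insert] at hx
      rcases hx with rfl | hx
      · rw [mem_Zr, hH]; exact ⟨(mem_sdiff.mp hs').1, h0⟩
      · exact hHZ s hs hx
    have h1 := card_le_card hsub
    have h2 : s' ∉ insert s T := by
      rw [mem_insert]; push Not
      exact ⟨hne.symm, hsT s' hs'⟩
    rw [card_insert_of_notMem h2, card_insert_of_notMem (hsT s hs), hTcard, hHm s hs] at h1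
    omega
  -- a positive functional
  set K : ℝ := 1 + ∑ x ∈ E, |e x φ2| / e x φ1 with hK
  have hterm : ∀ x ∈ E, 0 ≤ |e x φ2| / e x φ1 := by
    intro x hx
    exact div_nonneg (abs_nonneg _) (hφ1 x (mem_sdiff.mp hx).1)
  let ψ : α → ℝ := fun x => K * e x φ1 + e x φ2
  have hψ : ∀ x ∈ E, 0 < ψ x := by
    intro x hx
    by_cases hxs : x = s1
    · simp only [ψ, hxs, hφ1s1, mul_zero, zero_add]; exact hφ2s1
    · have hp := hEpos x hx hxs
      have h1 : |e x φ2| / e x φ1 ≤ ∑ x ∈ E, |e x φ2| / e x φ1 :=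
        Finset.single_le_sum (f := fun x => |e x φ2| / e x φ1) hterm hx
      have h2 : 1 + |e x φ2| / e x φ1 ≤ K := by rw [hK]; linarith
      have h3 : (1 + |e x φ2| / e x φ1) * e x φ1 = e x φ1 + |e x φ2| := by
        field_simp
      have h4 : (1 + |e x φ2| / e x φ1) * e x φ1 ≤ K * e x φ1 :=
        mul_le_mul_of_nonneg_right h2 hp.le
      have h5 := neg_abs_le (e x φ2)
      simp only [ψ]
      linarith
  let κ : α → ℝ := fun x => -(e x φ1) / ψ x
  have hcrossκ : ∀ s ∈ E, ∀ s' ∈ E, cross (P s) (P s') = ψ s * ψ s' * (κ s' - κ s) := by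
    intro s hs s' hs'
    have h1 := (hψ s hs).ne'
    have h2 := (hψ s' hs').ne'
    simp only [κ]
    field_simp
    simp only [P, cross, ψ]
    ring
  have hκinj : Set.InjOn κ (E : Set α) := by
    intro x hx y hy hxy
    by_contra hne
    have h1 := hcross x hx y hy hne
    rw [hcrossκ x hx y hy, hxy, sub_self, mul_zero] at h1
    exact h1 rfl
  have hLcard : (E.image κ).card = S.card - m + 1 := by
    rw [card_image_of_injOn hκinj, hEcard]
  set N := S.card - m + 1 with hN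
  let t := (E.image κ).orderEmbOfFin hLcard
  have ht : ∀ i : Fin N, ∃ s ∈ E, κ s = t i := fun i =>
    mem_image.mp ((E.image κ).orderEmbOfFin_mem hLcard i)
  choose s hsE hsκ using ht
  let q : ℕ → ℝ × ℝ := fun i => if h : i < N then P (s ⟨i, h⟩) else 0
  have hq : ∀ i (h : i < N), q i = P (s ⟨i, h⟩) := fun i h => by simp only [q, dif_pos h]
  have hfan : IsFan N q := by
    intro i j hij hj
    have hi : i < N := hij.trans hj
    rw [hq i hi, hq j hj, hcrossκ _ (hsE _) _ (hsE _), hsκ, hsκ]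
    have h1 : t ⟨i, hi⟩ < t ⟨j, hj⟩ := t.strictMono (by exact hij)
    exact mul_pos (mul_pos (hψ _ (hsE _)) (hψ _ (hsE _))) (by linarith)
  refine ⟨q, hfan, ?_, ?_⟩
  · intro k hk
    refine le_trans (card_le_card ?_) (hadm (H (s ⟨k, hk⟩)) (hH0 _ (hsE _)) (hHm _ (hsE _))).1
    intro y hy
    rw [mem_image] at hy
    obtain ⟨j, hj, rfl⟩ := hy
    rw [mem_Ioo] at hj
    have hpos' := hfan k j hj.1 hj.2
    rw [hq k hk, hq j hj.2] at hpos' ⊢
    rw [mem_image]
    refine ⟨s ⟨j, hj.2⟩, ?_, hH _ _⟩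
    rw [mem_filter, hH]
    exact ⟨(mem_sdiff.mp (hsE _)).1, hpos'⟩
  · intro k hk
    refine le_trans (card_le_card ?_) (hadm (H (s ⟨k, hk⟩)) (hH0 _ (hsE _)) (hHm _ (hsE _))).2
    intro y hy
    rw [mem_image] at hy
    obtain ⟨j, hj, rfl⟩ := hy
    rw [mem_range] at hj
    have hjN : j < N := hj.trans hk
    have hpos' := hfan j k hj hk
    rw [cross_comm'] at hpos'
    rw [hq k hk, hq j hjN] at hpos' ⊢
    rw [mem_image]
    refine ⟨s ⟨j, hjN⟩, ?_, hH _ _⟩
    rw [mem_filter, hH]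
    exact ⟨(mem_sdiff.mp (hsE _)).1, by linarith⟩

end Pool.Agent.MP4c9d8f
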