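import Mathlib
import Pool.Agent.MP_4c9d8f_co.Defs
import Pool.Agent.MP_4c9d8f_co.Ridge

set_option autoImplicit false

open Finset

namespace Pool.Agent.MP4c9d8f

/-- affine functionals -/
abbrev AFun (m : ℕ) : Type := Module.Dual ℝ (Fin m → ℝ) × ℝ

/-- evaluation -/
noncomputable def ev {m : ℕ} (x : Fin m → ℝ) : AFun m →ₗ[ℝ] ℝ :=
  (Module.Dual.eval ℝ (Fin m → ℝ) x).comp (LinearMap.fst ℝ _ _) + LinearMap.snd ℝ _ _

theorem ev_apply {m : ℕ} (x : Fin m → ℝ) (φ : AFun m) : ev x φ = φ.1 x + φ.2 := by
  simp [ev]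

theorem finrank_AFun (m : ℕ) : Module.finrank ℝ (AFun m) = m + 1 := by
  rw [Module.finrank_prod, Subspace.dual_finrank_eq, Module.finrank_fin_fun, Module.finrank_self]

variable {m : ℕ} {S : Finset (Fin m → ℝ)}

theorem GeneralPosition.zeros (hS : GeneralPosition S) (φ : AFun m) (hφ : φ ≠ 0) :
    (Zr ev S φ).card ≤ m := by
  classical
  by_contra hcon
  push Not at hcon
  obtain ⟨T, hT, hTc⟩ := Finset.exists_subset_card_eq (n := m + 1) (s := Zr ev S φ) (by omega)
  have hTS : T ⊆ S := fun x hx => (mem_Zr.mp (hT hx)).1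
  have hz : ∀ x ∈ T, φ.1 x + φ.2 = 0 := fun x hx => by
    rw [← ev_apply]; exact (mem_Zr.mp (hT hx)).2
  have hind := hS T hTS hTc
  obtain ⟨x0, hx0⟩ : T.Nonempty := by rw [← card_pos]; omega
  rw [affineIndependent_iff_linearIndependent_vsub ℝ _ (⟨x0, hx0⟩ : T)] at hind
  have hcard : Fintype.card {x : T // x ≠ ⟨x0, hx0⟩} = Module.finrank ℝ (Fin m → ℝ) := by
    rw [Module.finrank_fin_fun]
    have : Fintype.card {x : T // x ≠ ⟨x0, hx0⟩} = Fintype.card T - 1 := by
      rw [Fintype.card_subtype_compl, Fintype.card_subtype_eq]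
    rw [this, Fintype.card_coe, hTc]; rfl
  have hspan := hind.span_eq_top_of_card_eq_finrank' hcard
  have hl : φ.1 = 0 := by
    apply LinearMap.ext_on hspan
    rintro _ ⟨x, rfl⟩
    simp only [vsub_eq_sub, map_sub, LinearMap.zero_apply]
    have h1 := hz x.1 x.1.2
    have h2 := hz x0 hx0
    linarith
  have hc : φ.2 = 0 := by
    have := hz x0 hx0
    rw [hl, LinearMap.zero_apply, zero_add] at this
    exact this
  exact hφ (Prod.ext hl hc)

theorem adm_functional (hS : GeneralPosition S) (hm : 1 ≤ m) (hcard : m + 1 ≤ S.card)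
    (hadm : Admissible S) (φ : AFun m) (hφ : φ ≠ 0) (hZ : (Zr ev S φ).card = m) :
    ((S.filter (fun x => 0 < ev x φ)).image (fun x => ev x φ)).card ≤ (S.card - 1) / m ∧
      ((S.filter (fun x => ev x φ < 0)).image (fun x => ev x φ)).card ≤ (S.card - 1) / m := by
  classical
  obtain ⟨l, c⟩ := φ
  have hZS : Zr ev S (l, c) ⊆ S := fun x hx => (mem_Zr.mp hx).1
  obtain ⟨s0, hs0, hs0Z⟩ : ∃ s0 ∈ S, s0 ∉ Zr ev S (l, c) := by
    by_contra hcon
    push Not at hcon
    have := card_le_card (fun x hx => hcon x hx : S ⊆ Zr ev S (l, c))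
    omega
  have hind := hS (insert s0 (Zr ev S (l, c))) (insert_subset hs0 hZS) (by
    rw [card_insert_of_notMem hs0Z, hZ])
  let eq := (Zr ev S (l, c)).equivFinOfCardEq hZ
  let p : Fin m → (Fin m → ℝ) := fun i => ((eq.symm i : Zr ev S (l, c)) : Fin m → ℝ)
  let emb : Fin m ↪ (insert s0 (Zr ev S (l, c)) : Finset (Fin m → ℝ)) :=
    ⟨fun i => ⟨p i, mem_insert_of_mem (eq.symm i).2⟩, fun i j hij => by
      have h1 : p i = p j := by
        have := congrArg (fun z : (insert s0 (Zr ev S (l, c)) : Finset (Fin m → ℝ)) =>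
          (z : Fin m → ℝ)) hij
        exact this
      exact eq.symm.injective (Subtype.ext h1)⟩
  have hp : AffineIndependent ℝ p := hind.comp_embedding emb
  have hl0 : l ≠ 0 := by
    rintro rfl
    have hc : c ≠ 0 := fun h => hφ (by rw [h]; rfl)
    have h1 := (mem_Zr.mp (eq.symm ⟨0, hm⟩).2).2
    rw [ev_apply] at h1
    simp only [LinearMap.zero_apply, zero_add] at h1
    exact hc h1
  have hpl : ∀ i, l (p i) = -c := by
    intro i
    have h1 := (mem_Zr.mp (eq.symm i).2).2
    rw [ev_apply] at h1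
    simp only at h1
    change l (p i) + c = 0 at h1
    linarith
  have hA := hadm p (fun i => hZS (eq.symm i).2) hp l (-c) hl0 hpl
  have h5 := le_trans (le_max_left _ _) hA
  have h6 := le_trans (le_max_right _ _) hA
  constructor
  · refine le_trans ?_ h5
    have e1 : (S.filter (fun x => 0 < ev x (l, c))).image (fun x => ev x (l, c)) =
        ((S.filter (fun x => -c < l x)).image l).image (fun y => y + c) := by
      rw [image_image]
      have : S.filter (fun x => 0 < ev x (l, c)) = S.filter (fun x => -c < l x) := by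
        ext x
        simp only [mem_filter, ev_apply]
        constructor
        · rintro ⟨a, b⟩; exact ⟨a, by linarith⟩
        · rintro ⟨a, b⟩; exact ⟨a, by linarith⟩
      rw [this]
      apply image_congr
      intro x _
      simp [ev_apply]
    have e2 : l '' {s | s ∈ S ∧ -c < l s} = ((S.filter (fun x => -c < l x)).image l : Finset ℝ) := by
      ext y
      simp only [Set.mem_image, Set.mem_ofPred_eq, coe_image, coe_filter]
    rw [e1, e2, Set.ncard_coe_finset]
    exact card_image_le
  · refine le_trans ?_ h6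
    have e1 : (S.filter (fun x => ev x (l, c) < 0)).image (fun x => ev x (l, c)) =
        ((S.filter (fun x => l x < -c)).image l).image (fun y => y + c) := by
      rw [image_image]
      have : S.filter (fun x => ev x (l, c) < 0) = S.filter (fun x => l x < -c) := by
        ext x
        simp only [mem_filter, ev_apply]
        constructor
        · rintro ⟨a, b⟩; exact ⟨a, by linarith⟩
        · rintro ⟨a, b⟩; exact ⟨a, by linarith⟩
      rw [this]
      apply image_congr
      intro x _
      simp [ev_apply]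
    have e2 : l '' {s | s ∈ S ∧ l s < -c} = ((S.filter (fun x => l x < -c)).image l : Finset ℝ) := by
      ext y
      simp only [Set.mem_image, Set.mem_ofPred_eq, coe_image, coe_filter]
    rw [e1, e2, Set.ncard_coe_finset]
    exact card_image_le

/-- arithmetic of the exceptional cases -/
theorem arith (m n : ℕ) (hm : 3 ≤ m) (hn : m + 1 ≤ n)
    (h : ∀ D, n - m + 1 = D + 2 * ((n - 1) / m) →
      5 * (D * D) ≤ 2 * (((n - 1) / m) * ((n - 1) / m)) + 3 * D) :
    n = m + 1 ∨ n = m + 2 ∨ (m = 3 ∧ n = 7) ∨ (m = 3 ∧ n = 10) := by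
  obtain ⟨μ, rfl⟩ : ∃ μ, m = μ + 3 := ⟨m - 3, by omega⟩
  set a := (n - 1) / (μ + 3) with ha
  set r := (n - 1) % (μ + 3) with hr
  have hdiv : n - 1 = (μ + 3) * a + r := (Nat.div_add_mod (n - 1) (μ + 3)).symm
  have hr3 : r < μ + 3 := Nat.mod_lt _ (by omega)
  have ha1 : 1 ≤ a := by
    rw [ha]
    exact (Nat.one_le_div_iff (by omega)).mpr (by omega)
  obtain ⟨b, hb⟩ : ∃ b, a = b + 1 := ⟨a - 1, by omega⟩
  rw [hb] at h hdiv
  have hn' : n = (μ + 3) * (b + 1) + r + 1 := by omega
  have hD : n - (μ + 3) + 1 = ((1 + μ) * b + r) + 2 * (b + 1) := by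
    rw [hn']
    have : (μ + 3) * (b + 1) + r + 1 = (μ + 3) + ((μ + 3) * b + r + 1) := by ring
    rw [this]
    have h2 : (μ + 3) + ((μ + 3) * b + r + 1) - (μ + 3) + 1 = (μ + 3) * b + r + 2 := by omega
    rw [h2]; ring
  have h1 := h _ hD
  set D := (1 + μ) * b + r with hDdef
  rcases Nat.eq_zero_or_pos b with hb0 | hb0
  · rw [hb0] at hDdef h1 hn'
    simp only [mul_zero, zero_add] at hDdef
    have hD1 : D ≤ 1 := by
      by_contra hcon
      push Not at hcon
      nlinarith
    rw [hDdef] at hD1
    simp only [zero_add, mul_one] at hn'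
    omega
  · by_cases hbig : b + 1 ≤ D
    · exfalso
      have h2 : (b + 1) * (b + 1) ≤ D * D := Nat.mul_le_mul hbig hbig
      have h3 : 2 * D ≤ D * D := Nat.mul_le_mul_right D (by omega)
      nlinarith
    · push Not at hbig
      have hμ : μ = 0 := by
        by_contra hne
        have h2 : 1 ≤ μ := Nat.one_le_iff_ne_zero.mpr hne
        have : 1 * b ≤ μ * b := Nat.mul_le_mul_right b h2
        have h3 : D = b + μ * b + r := by rw [hDdef]; ring
        omega
      rw [hμ] at hDdef hn'
      have h3 : D = b + r := by rw [hDdef]; ring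
      have hr0 : r = 0 := by omega
      have hDb : D = b := by omega
      rw [hDb] at h1
      have hb2 : b ≤ 2 := by
        by_contra hcon
        push Not at hcon
        nlinarith
      rw [hr0] at hn'
      have : b = 1 ∨ b = 2 := by omega
      rcases this with h4 | h4
      · right; right; left
        rw [h4] at hn'
        omega
      · right; right; right
        rw [h4] at hn'
        omega

theorem higher_card (hm : 3 ≤ m) (hS : GeneralPosition S) (hcard : m + 1 ≤ S.card)
    (hadm : Admissible S) :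
    S.card = m + 1 ∨ S.card = m + 2 ∨ (m = 3 ∧ S.card = 7) ∨ (m = 3 ∧ S.card = 10) := by
  classical
  apply arith m S.card hm hcard
  intro D hD
  obtain ⟨q, hq, hL, hR⟩ := exists_fan (Φ := AFun m) ev S m ((S.card - 1) / m) (by omega)
    (finrank_AFun m) hS.zeros ⟨(0, 1), fun x _ => by rw [ev_apply]; simp⟩ hcard
    (fun φ hφ hZ => by
      have := adm_functional hS (by omega) hcard hadm φ hφ hZ
      convert this)
  exact fan_ineq hq (by omega) hL hR D hD

end Pool.Agent.MP4c9d8f
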