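import Mathlib
import Pool.Agent.MP_4c9d8f_co.Higher
import Pool.Agent.MP_4c9d8f_co.Eight

set_option autoImplicit false

open Finset

namespace Pool.Agent.MP4c9d8f

variable {m : ℕ} {S : Finset (Fin m → ℝ)}

/-- a ten point set in general position in dimension three is not admissible -/
theorem not_ten (hm : m = 3) (hS : GeneralPosition S) (hcard : S.card = 10)
    (hadm : Admissible S) : False := by
  classical
  obtain ⟨q, hq, hL, hR⟩ := exists_fan (Φ := AFun m) ev S m ((S.card - 1) / m) (by omega)
    (finrank_AFun m) hS.zeros ⟨(0, 1), fun x _ => by rw [ev_apply]; simp⟩ (by omega)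
    (fun φ hφ hZ => by
      have := adm_functional hS (by omega) (by omega) hadm φ hφ hZ
      convert this)
  have e1 : S.card - m + 1 = 8 := by omega
  have e2 : (S.card - 1) / m = 3 := by rw [hcard, hm]
  rw [e1] at hq hL hR
  rw [e2] at hL hR
  exact no_eight hq hL hR

theorem higher_card' (hm : 3 ≤ m) (hS : GeneralPosition S) (hcard : m + 1 ≤ S.card)
    (hadm : Admissible S) :
    S.card = m + 1 ∨ S.card = m + 2 ∨ (m = 3 ∧ S.card = 7) := by
  rcases higher_card hm hS hcard hadm with h | h | h | h
  · exact Or.inl h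
  · exact Or.inr (Or.inl h)
  · exact Or.inr (Or.inr h)
  · exact (not_ten h.1 hS h.2 hadm).elim

end Pool.Agent.MP4c9d8f
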