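import Mathlib
import Pool.Agent.MP_4c9d8f_co.Higher

set_option autoImplicit false

open Finset

namespace Pool.Agent.MP4c9d8f

variable {m : ℕ} {S : Finset (Fin m → ℝ)}

/-- The complement of `m` affinely independent points. -/
theorem image_card (p : Fin m → (Fin m → ℝ)) (hp : AffineIndependent ℝ p) :
    ∀ [DecidableEq (Fin m → ℝ)], (univ.image p).card = m := by
  intro _
  rw [card_image_of_injective _ hp.injective, card_univ, Fintype.card_fin]

theorem adm_succ (hm : 1 ≤ m) (hcard : S.card = m + 1) : Admissible S := by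
  classical
  intro p hpS hp l c hl hlc
  have hQ := image_card p hp
  have hQS : univ.image p ⊆ S := by
    intro x hx
    obtain ⟨i, _, rfl⟩ := mem_image.mp hx
    exact hpS i
  have hdiff : (S \ univ.image p).card = 1 := by
    rw [card_sdiff_of_subset hQS, hQ, hcard]; omega
  obtain ⟨x, hx⟩ := card_eq_one.mp hdiff
  have hval : ∀ s ∈ S, l s ≠ c → s = x := by
    intro s hs hne
    have : s ∈ S \ univ.image p := by
      rw [mem_sdiff]
      refine ⟨hs, fun h => ?_⟩
      obtain ⟨i, _, rfl⟩ := mem_image.mp h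
      exact hne (hlc i)
    rw [hx, mem_singleton] at this
    exact this
  have hone : (S.card - 1) / m = 1 := by
    rw [hcard, Nat.add_sub_cancel, Nat.div_self (by omega)]
  rw [hone]
  apply max_le
  · refine le_trans (Set.ncard_le_ncard (t := {l x}) ?_ (Set.finite_singleton _))
      (Set.ncard_singleton _).le
    rintro _ ⟨s, ⟨hs, hlt⟩, rfl⟩
    rw [hval s hs (ne_of_gt hlt)]; rfl
  · refine le_trans (Set.ncard_le_ncard (t := {l x}) ?_ (Set.finite_singleton _))
      (Set.ncard_singleton _).le
    rintro _ ⟨s, ⟨hs, hlt⟩, rfl⟩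
    rw [hval s hs (ne_of_lt hlt)]; rfl

theorem adm_of_balanced (hm : 2 ≤ m) (hcard : S.card = m + 2) (hB : Balanced S) :
    Admissible S := by
  classical
  obtain ⟨T, hTS, hT2, T', hT'S, hdisj, hTT', hsum⟩ := hB
  have hU : T ∪ T' = S := by
    apply Finset.eq_of_subset_of_card_le (union_subset hTS hT'S)
    rw [card_union_of_disjoint hdisj]
    omega
  intro p hpS hp l c hl hlc
  have hQ := image_card p hp
  have hQS : univ.image p ⊆ S := by
    intro x hx
    obtain ⟨i, _, rfl⟩ := mem_image.mp hx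
    exact hpS i
  have hdiff : (S \ univ.image p).card = 2 := by
    rw [card_sdiff_of_subset hQS, hQ, hcard]; omega
  obtain ⟨x, y, hxy, hset⟩ := card_eq_two.mp hdiff
  have hval : ∀ s ∈ S, l s ≠ c → s = x ∨ s = y := by
    intro s hs hne
    have : s ∈ S \ univ.image p := by
      rw [mem_sdiff]
      refine ⟨hs, fun h => ?_⟩
      obtain ⟨i, _, rfl⟩ := mem_image.mp h
      exact hne (hlc i)
    rw [hset, mem_insert, mem_singleton] at this
    exact this
  have hxS : x ∈ S := (mem_sdiff.mp (by rw [hset]; simp : x ∈ S \ univ.image p)).1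
  have hyS : y ∈ S := (mem_sdiff.mp (by rw [hset]; simp : y ∈ S \ univ.image p)).1
  -- the key relation
  have hrel : ∑ s ∈ T, (l s - c) = ∑ s ∈ T', (l s - c) := by
    rw [sum_sub_distrib, sum_sub_distrib, ← map_sum, ← map_sum, hsum, sum_const, sum_const, hTT']
  have hsupp : ∀ U ⊆ S, ∑ s ∈ U, (l s - c) =
      (if x ∈ U then l x - c else 0) + (if y ∈ U then l y - c else 0) := by
    intro U hU
    have h1 : ∀ s ∈ U, l s - c = (if s = x then l x - c else 0) + (if s = y then l y - c else 0) := by
      intro s hs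
      by_cases hsx : s = x
      · subst hsx; simp [hxy]
      · by_cases hsy : s = y
        · subst hsy; simp [hsx]
        · simp only [hsx, hsy, if_false, add_zero]
          by_contra hne
          rcases hval s (hU hs) (fun h => hne (by rw [h]; ring)) with h | h
          · exact hsx h
          · exact hsy h
    rw [sum_congr rfl h1, sum_add_distrib, sum_ite_eq', sum_ite_eq']
  rw [hsupp T hTS, hsupp T' hT'S] at hrel
  have hxU : x ∈ T ∨ x ∈ T' := by rw [← mem_union, hU]; exact hxS
  have hyU : y ∈ T ∨ y ∈ T' := by rw [← mem_union, hU]; exact hyS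
  have hnot : ∀ z, z ∈ T → z ∉ T' := fun z hz => disjoint_left.mp hdisj hz
  have hcases : l x = l y ∨ (l x - c) + (l y - c) = 0 := by
    rcases hxU with h1 | h1 <;> rcases hyU with h2 | h2
    · right
      rw [if_pos h1, if_pos h2, if_neg (hnot x h1), if_neg (hnot y h2)] at hrel
      linarith
    · left
      rw [if_pos h1, if_neg (fun h => hnot y h h2), if_neg (hnot x h1), if_pos h2] at hrel
      linarith
    · left
      rw [if_neg (fun h => hnot x h h1), if_pos h2, if_pos h1, if_neg (hnot y h2)] at hrel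
      linarith
    · right
      rw [if_neg (fun h => hnot x h h1), if_neg (fun h => hnot y h h2), if_pos h1, if_pos h2] at hrel
      linarith
  have hone : (S.card - 1) / m = 1 := by
    rw [hcard]
    have : m + 2 - 1 = m + 1 := by omega
    rw [this, Nat.add_div_left _ (by omega), Nat.div_eq_of_lt (by omega)]
  rw [hone]
  apply max_le
  · rw [Set.ncard_le_one_iff_eq (Set.Finite.image _ (S.finite_toSet.subset (fun s hs => hs.1)))]
    by_cases he : l '' {s | s ∈ S ∧ c < l s} = ∅
    · exact Or.inl he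
    · right
      obtain ⟨_, ⟨s, ⟨hs, hlt⟩, rfl⟩⟩ := Set.nonempty_iff_ne_empty.mpr he
      refine ⟨l s, ?_⟩
      ext v
      constructor
      · rintro ⟨s', ⟨hs', hlt'⟩, rfl⟩
        rcases hval s hs (ne_of_gt hlt) with rfl | rfl <;>
          rcases hval s' hs' (ne_of_gt hlt') with rfl | rfl <;>
          rcases hcases with h | h
        all_goals first
          | rfl
          | (rw [h]; rfl)
          | (exfalso; linarith)
      · rintro rfl
        exact ⟨s, ⟨hs, hlt⟩, rfl⟩
  · rw [Set.ncard_le_one_iff_eq (Set.Finite.image _ (S.finite_toSet.subset (fun s hs => hs.1)))]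
    by_cases he : l '' {s | s ∈ S ∧ l s < c} = ∅
    · exact Or.inl he
    · right
      obtain ⟨_, ⟨s, ⟨hs, hlt⟩, rfl⟩⟩ := Set.nonempty_iff_ne_empty.mpr he
      refine ⟨l s, ?_⟩
      ext v
      constructor
      · rintro ⟨s', ⟨hs', hlt'⟩, rfl⟩
        rcases hval s hs (ne_of_lt hlt) with rfl | rfl <;>
          rcases hval s' hs' (ne_of_lt hlt') with rfl | rfl <;>
          rcases hcases with h | h
        all_goals first
          | rfl
          | (rw [h]; rfl)
          | (exfalso; linarith)
      · rintro rfl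
        exact ⟨s, ⟨hs, hlt⟩, rfl⟩

theorem balanced_of_adm (hm : 2 ≤ m) (hcard : S.card = m + 2) (hS : GeneralPosition S)
    (hadm : Admissible S) : Balanced S := by
  classical
  obtain ⟨w, hw1, hw0, y0, hy0, hy0ne⟩ :=
    Module.exists_nontrivial_relation_sum_zero_of_finrank_succ_lt_card (R := ℝ)
      (M := Fin m → ℝ) (t := S) (by rw [Module.finrank_fin_fun, hcard]; omega)
  have hrel : ∀ φ : AFun m, ∑ x ∈ S, w x * ev x φ = 0 := by
    intro φ
    have h1 : φ.1 (∑ x ∈ S, w x • x) = 0 := by rw [hw1, map_zero]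
    rw [map_sum] at h1
    simp only [map_smul, smul_eq_mul] at h1
    calc ∑ x ∈ S, w x * ev x φ = ∑ x ∈ S, (w x * φ.1 x + w x * φ.2) := by
          refine sum_congr rfl (fun x _ => ?_)
          rw [ev_apply]; ring
      _ = 0 := by rw [sum_add_distrib, h1, ← sum_mul, hw0]; ring
  -- for a pair x ≠ y : the functional vanishing on the other points
  have hpair : ∀ x ∈ S, ∀ y ∈ S, x ≠ y → ∃ φ : AFun m, φ ≠ 0 ∧ (Zr ev S φ).card = m ∧
      ev x φ ≠ 0 ∧ ev y φ ≠ 0 ∧ w x * ev x φ + w y * ev y φ = 0 := by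
    intro x hx y hy hxy
    have hyx : y ∈ S.erase x := mem_erase.mpr ⟨hxy.symm, hy⟩
    set Q := (S.erase x).erase y with hQ
    have hQc : Q.card = m := by
      rw [hQ, card_erase_of_mem hyx, card_erase_of_mem hx, hcard]; omega
    obtain ⟨φ, hφ0, hφ⟩ := exists_vanish (Φ := AFun m) ev Q (by rw [finrank_AFun, hQc]; omega)
    have hQS : Q ⊆ S := (erase_subset _ _).trans (erase_subset _ _)
    have hQZ : Q ⊆ Zr ev S φ := fun z hz => mem_Zr.mpr ⟨hQS hz, hφ z hz⟩
    have hZm : (Zr ev S φ).card = m := by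
      apply le_antisymm (hS.zeros φ hφ0)
      exact hQc.symm.le.trans (card_le_card hQZ)
    have hQZ' : Q = Zr ev S φ := eq_of_subset_of_card_le hQZ (by rw [hZm, hQc])
    have hxQ : x ∉ Q := by
      rw [hQ]; intro h; exact (mem_erase.mp (mem_erase.mp h).2).1 rfl
    have hyQ : y ∉ Q := by
      rw [hQ]; intro h; exact (mem_erase.mp h).1 rfl
    refine ⟨φ, hφ0, hZm, ?_, ?_, ?_⟩
    · intro h; apply hxQ; rw [hQZ']; exact mem_Zr.mpr ⟨hx, h⟩
    · intro h; apply hyQ; rw [hQZ']; exact mem_Zr.mpr ⟨hy, h⟩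
    · have h1 := hrel φ
      rw [← add_sum_erase S _ hx, ← add_sum_erase (S.erase x) _ hyx] at h1
      have h2 : ∑ z ∈ (S.erase x).erase y, w z * ev z φ = 0 :=
        sum_eq_zero (fun z hz => by rw [hφ z hz, mul_zero])
      rw [h2] at h1
      linarith
  have hwne : ∀ x ∈ S, w x ≠ 0 := by
    intro x hx h0
    have hne : x ≠ y0 := by rintro rfl; exact hy0ne h0
    obtain ⟨φ, _, _, _, hy', hr⟩ := hpair x hx y0 hy0 hne
    rw [h0, zero_mul, zero_add] at hr
    rcases mul_eq_zero.mp hr with h | h
    · exact hy0ne h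
    · exact hy' h
  have hone : (S.card - 1) / m = 1 := by
    rw [hcard]
    have : m + 2 - 1 = m + 1 := by omega
    rw [this, Nat.add_div_left _ (by omega), Nat.div_eq_of_lt (by omega)]
  have hopp : ∀ x ∈ S, ∀ y ∈ S, 0 < w x → w y < 0 → w x = -w y := by
    intro x hx y hy hwx hwy
    have hne : x ≠ y := by rintro rfl; linarith
    obtain ⟨φ, hφ0, hZm, hex, hey, hr⟩ := hpair x hx y hy hne
    have hA := adm_functional hS (by omega) (by omega) hadm φ hφ0 hZm
    rw [hone] at hA
    have heq : ev x φ = ev y φ := by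
      rcases lt_or_gt_of_ne hex with h | h
      · have hy' : ev y φ < 0 := by
          by_contra hcon
          push Not at hcon
          have h1 : w x * ev x φ < 0 := mul_neg_of_pos_of_neg hwx h
          have h2 : w y * ev y φ ≤ 0 := mul_nonpos_of_nonpos_of_nonneg hwy.le hcon
          linarith
        have := card_le_one.mp hA.2 (ev x φ)
          (mem_image.mpr ⟨x, mem_filter.mpr ⟨hx, h⟩, rfl⟩) (ev y φ)
          (mem_image.mpr ⟨y, mem_filter.mpr ⟨hy, hy'⟩, rfl⟩)
        exact this
      · have hy' : 0 < ev y φ := by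
          by_contra hcon
          push Not at hcon
          have h1 : 0 < w x * ev x φ := mul_pos hwx h
          have h2 : 0 ≤ w y * ev y φ := mul_nonneg_of_nonpos_of_nonpos hwy.le hcon
          linarith
        have := card_le_one.mp hA.1 (ev x φ)
          (mem_image.mpr ⟨x, mem_filter.mpr ⟨hx, h⟩, rfl⟩) (ev y φ)
          (mem_image.mpr ⟨y, mem_filter.mpr ⟨hy, hy'⟩, rfl⟩)
        exact this
    rw [heq, ← add_mul] at hr
    have := (mul_eq_zero.mp hr).resolve_right hey
    linarith
  -- existence of both signs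
  obtain ⟨xp, hxp, hxpp⟩ : ∃ x ∈ S, 0 < w x := by
    by_contra hcon
    push Not at hcon
    have : ∑ e ∈ S, w e < 0 := sum_neg' (fun e he => hcon e he) ⟨y0, hy0, lt_of_le_of_ne (hcon y0 hy0) hy0ne⟩
    linarith
  obtain ⟨xn, hxn, hxnn⟩ : ∃ x ∈ S, w x < 0 := by
    by_contra hcon
    push Not at hcon
    have : 0 < ∑ e ∈ S, w e := sum_pos' (fun e he => hcon e he) ⟨xp, hxp, hxpp⟩
    linarith
  set c := w xp with hc
  have hpos : ∀ x ∈ S, 0 < w x → w x = c := by
    intro x hx h
    have h1 := hopp x hx xn hxn h hxnn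
    have h2 := hopp xp hxp xn hxn hxpp hxnn
    linarith
  have hneg : ∀ x ∈ S, w x < 0 → w x = -c := by
    intro x hx h
    have h1 := hopp xp hxp x hx hxpp h
    linarith
  set T := S.filter (fun x => 0 < w x) with hT
  set T' := S.filter (fun x => ¬ 0 < w x) with hT'
  have hT'neg : ∀ x ∈ T', w x = -c := by
    intro x hx
    rw [hT', mem_filter] at hx
    apply hneg x hx.1
    exact lt_of_le_of_ne (not_lt.mp hx.2) (hwne x hx.1)
  have hTpos : ∀ x ∈ T, w x = c := fun x hx => hpos x (mem_filter.mp hx).1 (mem_filter.mp hx).2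
  have hsplit : ∑ x ∈ T, w x + ∑ x ∈ T', w x = 0 := by
    rw [hT, hT', sum_filter_add_sum_filter_not, hw0]
  have hsplit' : ∑ x ∈ T, w x • x + ∑ x ∈ T', w x • x = 0 := by
    rw [hT, hT', sum_filter_add_sum_filter_not, hw1]
  rw [sum_congr rfl hTpos, sum_congr rfl hT'neg, sum_const, sum_const, nsmul_eq_mul,
    nsmul_eq_mul] at hsplit
  have hcardeq : (T.card : ℝ) = T'.card := by
    have : c * ((T.card : ℝ) - T'.card) = 0 := by linarith
    have := (mul_eq_zero.mp this).resolve_left hxpp.ne'
    linarith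
  have hcardeq' : T.card = T'.card := by exact_mod_cast hcardeq
  have hcs : T.card + T'.card = S.card := by
    rw [hT, hT']; exact card_filter_add_card_filter_not _
  have hs1 : ∑ x ∈ T, w x • x = c • ∑ x ∈ T, x := by
    rw [smul_sum]; exact sum_congr rfl (fun x hx => by rw [hTpos x hx])
  have hs2 : ∑ x ∈ T', w x • x = -(c • ∑ x ∈ T', x) := by
    rw [smul_sum, ← sum_neg_distrib]
    exact sum_congr rfl (fun x hx => by rw [hT'neg x hx, neg_smul])
  rw [hs1, hs2, ← sub_eq_add_neg, ← smul_sub] at hsplit'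
  have hfin := (smul_eq_zero.mp hsplit').resolve_left hxpp.ne'
  refine ⟨T, filter_subset _ _, by omega, T', filter_subset _ _,
    disjoint_filter_filter_not _ _ _, hcardeq'.symm, sub_eq_zero.mp hfin⟩

end Pool.Agent.MP4c9d8f
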