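import Mathlib

set_option autoImplicit false

/-! Determinants of seven points of `ℝ^3`, the sign variables and a small checker for refutations
(unit propagation with hints) working on bit masks. -/

namespace Pool.Agent.MP4c9d8f.Seven

/-! ### Determinants -/

/-- six times the signed volume of the tetrahedron `a b c x` -/
def D (a b c x : Fin 3 → ℝ) : ℝ :=
  ((b 1 - a 1) * (c 2 - a 2) - (b 2 - a 2) * (c 1 - a 1)) * (x 0 - a 0) +
  ((b 2 - a 2) * (c 0 - a 0) - (b 0 - a 0) * (c 2 - a 2)) * (x 1 - a 1) +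
  ((b 0 - a 0) * (c 1 - a 1) - (b 1 - a 1) * (c 0 - a 0)) * (x 2 - a 2)

theorem D12 (a b c x : Fin 3 → ℝ) : D a b c x = -D b a c x := by unfold D; ring
theorem D34 (a b c x : Fin 3 → ℝ) : D a b c x = -D a b x c := by unfold D; ring
theorem D13 (a b c x : Fin 3 → ℝ) : D a b c x = -D c b a x := by unfold D; ring
theorem D24 (a b c x : Fin 3 → ℝ) : D a b c x = -D a x c b := by unfold D; ring
theorem D23 (a b c x : Fin 3 → ℝ) : D a b c x = -D a c b x := by unfold D; ring
theorem D33 (a b c : Fin 3 → ℝ) : D a b c c = 0 := by unfold D; ring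
theorem D_gp (p q a b c e : Fin 3 → ℝ) :
    D p q a b * D p q c e - D p q a c * D p q b e + D p q a e * D p q b c = 0 := by
  unfold D; ring

/-! ### Signs -/

/-- `x` has the sign `v` (`0` negative, `1` zero, otherwise positive) -/
def HasSign (x : ℝ) (v : ℕ) : Prop := if v = 0 then x < 0 else if v = 1 then x = 0 else 0 < x

def mulS (a b : ℕ) : ℕ :=
  if a = 1 then 1 else if b = 1 then 1 else
    if a = 0 then (if b = 0 then 2 else 0) else (if b = 0 then 0 else 2)

def negS (a : ℕ) : ℕ := if a = 0 then 2 else if a = 1 then 1 else 0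

def sgS (s : Bool) (a : ℕ) : ℕ := if s then negS a else a

theorem hasSign_mul {x y : ℝ} {a b : ℕ} (hx : HasSign x a) (hy : HasSign y b) :
    HasSign (x * y) (mulS a b) := by
  unfold HasSign at *
  unfold mulS
  by_cases ha1 : a = 1
  · subst ha1
    simp only [one_ne_zero, if_false, if_true] at hx ⊢
    rw [hx, zero_mul]
  · by_cases hb1 : b = 1
    · subst hb1
      simp only [one_ne_zero, if_false, if_true] at hy ⊢
      simp only [ha1, if_false, one_ne_zero, if_true]
      rw [hy, mul_zero]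
    · by_cases ha0 : a = 0
      · by_cases hb0 : b = 0
        · simp only [ha0, hb0, if_true, zero_ne_one, if_false, OfNat.ofNat_ne_zero,
            OfNat.ofNat_ne_one] at hx hy ⊢
          exact mul_pos_of_neg_of_neg hx hy
        · simp only [ha0, hb0, hb1, if_true, zero_ne_one, if_false] at hx hy ⊢
          exact mul_neg_of_neg_of_pos hx hy
      · by_cases hb0 : b = 0
        · simp only [ha0, ha1, hb0, if_true, zero_ne_one, if_false] at hx hy ⊢
          exact mul_neg_of_pos_of_neg hx hy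
        · simp only [ha0, ha1, hb0, hb1, if_false, OfNat.ofNat_ne_zero,
            OfNat.ofNat_ne_one] at hx hy ⊢
          exact mul_pos hx hy

theorem hasSign_neg {x : ℝ} {a : ℕ} (hx : HasSign x a) : HasSign (-x) (negS a) := by
  unfold HasSign at *
  unfold negS
  by_cases ha0 : a = 0
  · simp only [ha0, if_true, OfNat.ofNat_ne_zero, OfNat.ofNat_ne_one, if_false] at hx ⊢
    linarith
  · by_cases ha1 : a = 1
    · simp only [ha1, if_true, one_ne_zero, if_false] at hx ⊢
      linarith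
    · simp only [ha0, ha1, if_true, if_false] at hx ⊢
      linarith

/-- the signs exclude that the sum of the three numbers is zero -/
def bad3 (a b c : ℕ) : Bool :=
  (a != 0 && b != 0 && c != 0 && (decide (2 ≤ a) || decide (2 ≤ b) || decide (2 ≤ c))) ||
  (decide (a ≤ 1) && decide (b ≤ 1) && decide (c ≤ 1) && (a == 0 || b == 0 || c == 0))

theorem hasSign_nonneg {x : ℝ} {a : ℕ} (hx : HasSign x a) (h : a ≠ 0) : 0 ≤ x := by
  unfold HasSign at hx
  rw [if_neg h] at hx
  split_ifs at hx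
  · exact hx.ge
  · exact hx.le

theorem hasSign_nonpos {x : ℝ} {a : ℕ} (hx : HasSign x a) (h : a ≤ 1) : x ≤ 0 := by
  unfold HasSign at hx
  split_ifs at hx
  · exact hx.le
  · exact hx.le
  · omega

theorem hasSign_pos {x : ℝ} {a : ℕ} (hx : HasSign x a) (h : 2 ≤ a) : 0 < x := by
  unfold HasSign at hx
  rw [if_neg (by omega), if_neg (by omega)] at hx
  exact hx

theorem hasSign_lt {x : ℝ} {a : ℕ} (hx : HasSign x a) (h : a = 0) : x < 0 := by
  unfold HasSign at hx
  rw [if_pos h] at hx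
  exact hx

theorem bad3_sound {x y z : ℝ} {a b c : ℕ} (hx : HasSign x a) (hy : HasSign y b)
    (hz : HasSign z c) (h : bad3 a b c = true) : x + y + z ≠ 0 := by
  unfold bad3 at h
  simp only [Bool.or_eq_true, Bool.and_eq_true, bne_iff_ne, ne_eq, decide_eq_true_eq,
    beq_iff_eq] at h
  rcases h with ⟨⟨⟨h1, h2⟩, h3⟩, h4⟩ | ⟨⟨⟨h1, h2⟩, h3⟩, h4⟩
  · have e1 := hasSign_nonneg hx h1
    have e2 := hasSign_nonneg hy h2
    have e3 := hasSign_nonneg hz h3
    rcases h4 with (h | h) | h
    · have := hasSign_pos hx h; intro h0; linarith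
    · have := hasSign_pos hy h; intro h0; linarith
    · have := hasSign_pos hz h; intro h0; linarith
  · have e1 := hasSign_nonpos hx h1
    have e2 := hasSign_nonpos hy h2
    have e3 := hasSign_nonpos hz h3
    rcases h4 with (h | h) | h
    · have := hasSign_lt hx h; intro h0; linarith
    · have := hasSign_lt hy h; intro h0; linarith
    · have := hasSign_lt hz h; intro h0; linarith

/-! ### Keys -/

/-- index of the sorted triple -/
def ti (a b c : ℕ) : ℕ := a + b * (b - 1) / 2 + c * (c - 1) * (c - 2) / 6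

/-- index of the sorted pair -/
def pri (x y : ℕ) : ℕ := x + y * (y - 1) / 2

/-- index of the sorted quadruple -/
def qi (a b c d : ℕ) : ℕ :=
  a + b * (b - 1) / 2 + c * (c - 1) * (c - 2) / 6 + d * (d - 1) * (d - 2) * (d - 3) / 24

def quads : List (ℕ × ℕ × ℕ × ℕ) :=
  (List.range 7).flatMap fun d => (List.range d).flatMap fun c => (List.range c).flatMap fun b =>
    (List.range b).map fun a => (a, b, c, d)

def trips : List (ℕ × ℕ × ℕ) :=
  (List.range 7).flatMap fun c => (List.range c).flatMap fun b => (List.range b).map fun a =>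
    (a, b, c)

def prs7 : List (ℕ × ℕ) :=
  (List.range 7).flatMap fun b => (List.range b).map fun a => (a, b)

theorem quads_all : ((List.range 7).all fun d => (List.range d).all fun c =>
    (List.range c).all fun b => (List.range b).all fun a =>
    decide (quads.getD (qi a b c d) (0, 0, 0, 0) = (a, b, c, d)) && decide (qi a b c d < 35)) =
    true := by
  decide +kernel

theorem quads_get (d : ℕ) (hd : d < 7) (c : ℕ) (hc : c < d) (b : ℕ) (hb : b < c) (a : ℕ)
    (ha : a < b) :
    quads.getD (qi a b c d) (0, 0, 0, 0) = (a, b, c, d) ∧ qi a b c d < 35 := by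
  have h := quads_all
  rw [List.all_eq_true] at h
  have h1 := h d (List.mem_range.mpr hd)
  rw [List.all_eq_true] at h1
  have h2 := h1 c (List.mem_range.mpr hc)
  rw [List.all_eq_true] at h2
  have h3 := h2 b (List.mem_range.mpr hb)
  rw [List.all_eq_true] at h3
  have h4 := h3 a (List.mem_range.mpr ha)
  rw [Bool.and_eq_true, decide_eq_true_eq, decide_eq_true_eq] at h4
  exact h4

theorem quads_lt : ∀ k < 35, (quads.getD k (0, 0, 0, 0)).1 < (quads.getD k (0, 0, 0, 0)).2.1 ∧
    (quads.getD k (0, 0, 0, 0)).2.1 < (quads.getD k (0, 0, 0, 0)).2.2.1 ∧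
    (quads.getD k (0, 0, 0, 0)).2.2.1 < (quads.getD k (0, 0, 0, 0)).2.2.2 ∧
    (quads.getD k (0, 0, 0, 0)).2.2.2 < 7 := by
  decide +kernel

theorem trips_get : ∀ c < 7, ∀ b < c, ∀ a < b,
    trips.getD (ti a b c) (0, 0, 0) = (a, b, c) := by
  decide +kernel

theorem prs7_get : ∀ y < 7, ∀ x < y, prs7.getD (pri x y) (0, 0) = (x, y) ∧ pri x y < 21 := by
  decide +kernel

/-- key of the difference `D(F,x) - D(F,y)` -/
def tk (a b c x y : ℕ) : ℕ := 35 + (21 * ti a b c + pri x y)

variable (P : ℕ → (Fin 3 → ℝ))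

/-- the difference `D(F,x) - D(F,y)` -/
def T (a b c x y : ℕ) : ℝ := D (P a) (P b) (P c) (P x) - D (P a) (P b) (P c) (P y)

/-- the number with the key `k` -/
noncomputable def val (k : ℕ) : ℝ :=
  if k < 35 then
    D (P (quads.getD k (0, 0, 0, 0)).1) (P (quads.getD k (0, 0, 0, 0)).2.1)
      (P (quads.getD k (0, 0, 0, 0)).2.2.1) (P (quads.getD k (0, 0, 0, 0)).2.2.2)
  else
    T P (trips.getD ((k - 35) / 21) (0, 0, 0)).1 (trips.getD ((k - 35) / 21) (0, 0, 0)).2.1
      (trips.getD ((k - 35) / 21) (0, 0, 0)).2.2 (prs7.getD ((k - 35) % 21) (0, 0)).1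
      (prs7.getD ((k - 35) % 21) (0, 0)).2

theorem val_qi {a b c d : ℕ} (h1 : a < b) (h2 : b < c) (h3 : c < d) (h4 : d < 7) :
    val P (qi a b c d) = D (P a) (P b) (P c) (P d) := by
  obtain ⟨h, h'⟩ := quads_get d h4 c h3 b h2 a h1
  unfold val
  rw [if_pos h', h]

theorem val_tk {a b c x y : ℕ} (h1 : a < b) (h2 : b < c) (h3 : c < 7) (h4 : x < y) (h5 : y < 7) :
    val P (tk a b c x y) = T P a b c x y := by
  have h := trips_get c h3 b h2 a h1
  obtain ⟨h', h''⟩ := prs7_get y h5 x h4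
  unfold val tk
  have e1 : (35 + (21 * ti a b c + pri x y) - 35) / 21 = ti a b c := by omega
  have e2 : (35 + (21 * ti a b c + pri x y) - 35) % 21 = pri x y := by omega
  rw [if_neg (by omega), e1, e2, h, h']

/-- `x` up to the sign `s` -/
noncomputable def sg (s : Bool) (x : ℝ) : ℝ := if s then -x else x

theorem sg_not (s : Bool) (x : ℝ) : sg (!s) x = -sg s x := by
  cases s <;> simp [sg]

theorem sg_neg (s : Bool) (x : ℝ) : sg s (-x) = -sg s x := by
  cases s <;> simp [sg]

theorem hasSign_sg {s : Bool} {x : ℝ} {a : ℕ} (hx : HasSign x a) :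
    HasSign (sg s x) (sgS s a) := by
  cases s
  · exact hx
  · exact hasSign_neg hx

/-- sorting and the key of a determinant; the first component says whether everything is fine -/
def n4 (a b c d : ℕ) : Bool × Bool × ℕ :=
  let p1 : Bool × ℕ × ℕ := if b < a then (true, b, a) else (false, a, b)
  let p2 : Bool × ℕ × ℕ := if d < c then (!p1.1, d, c) else (p1.1, c, d)
  let a1 := p1.2.1
  let b1 := p1.2.2
  let c1 := p2.2.1
  let d1 := p2.2.2
  let p3 : Bool × ℕ × ℕ := if c1 < a1 then (!p2.1, c1, a1) else (p2.1, a1, c1)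
  let p4 : Bool × ℕ × ℕ := if d1 < b1 then (!p3.1, d1, b1) else (p3.1, b1, d1)
  let a2 := p3.2.1
  let c2 := p3.2.2
  let b2 := p4.2.1
  let d2 := p4.2.2
  let p5 : Bool × ℕ × ℕ := if c2 < b2 then (!p4.1, c2, b2) else (p4.1, b2, c2)
  let b3 := p5.2.1
  let c3 := p5.2.2
  (decide (a2 < b3) && decide (b3 < c3) && decide (c3 < d2) && decide (d2 < 7), p5.1,
    qi a2 b3 c3 d2)

theorem n4_sound {a b c d : ℕ} (h : (n4 a b c d).1 = true) :
    D (P a) (P b) (P c) (P d) = sg (n4 a b c d).2.1 (val P (n4 a b c d).2.2) := by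
  unfold n4 at h ⊢
  dsimp only at h ⊢
  -- step 1
  obtain ⟨s1, a1, b1, hp1, e1⟩ : ∃ s1 a1 b1,
      (if b < a then (true, b, a) else (false, a, b) : Bool × ℕ × ℕ) = (s1, a1, b1) ∧
      D (P a) (P b) (P c) (P d) = sg s1 (D (P a1) (P b1) (P c) (P d)) := by
    by_cases hlt : b < a
    · exact ⟨true, b, a, by rw [if_pos hlt], by rw [D12]; rfl⟩
    · exact ⟨false, a, b, by rw [if_neg hlt], rfl⟩
  rw [hp1] at h ⊢
  dsimp only at h ⊢
  obtain ⟨s2, c1, d1, hp2, e2⟩ : ∃ s2 c1 d1,
      (if d < c then (!s1, d, c) else (s1, c, d) : Bool × ℕ × ℕ) = (s2, c1, d1) ∧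
      D (P a) (P b) (P c) (P d) = sg s2 (D (P a1) (P b1) (P c1) (P d1)) := by
    by_cases hlt : d < c
    · exact ⟨!s1, d, c, by rw [if_pos hlt], by rw [e1, D34, sg_not, sg_neg]⟩
    · exact ⟨s1, c, d, by rw [if_neg hlt], e1⟩
  rw [hp2] at h ⊢
  dsimp only at h ⊢
  obtain ⟨s3, a2, c2, hp3, e3⟩ : ∃ s3 a2 c2,
      (if c1 < a1 then (!s2, c1, a1) else (s2, a1, c1) : Bool × ℕ × ℕ) = (s3, a2, c2) ∧
      D (P a) (P b) (P c) (P d) = sg s3 (D (P a2) (P b1) (P c2) (P d1)) := by
    by_cases hlt : c1 < a1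
    · exact ⟨!s2, c1, a1, by rw [if_pos hlt], by rw [e2, D13, sg_not, sg_neg]⟩
    · exact ⟨s2, a1, c1, by rw [if_neg hlt], e2⟩
  rw [hp3] at h ⊢
  dsimp only at h ⊢
  obtain ⟨s4, b2, d2, hp4, e4⟩ : ∃ s4 b2 d2,
      (if d1 < b1 then (!s3, d1, b1) else (s3, b1, d1) : Bool × ℕ × ℕ) = (s4, b2, d2) ∧
      D (P a) (P b) (P c) (P d) = sg s4 (D (P a2) (P b2) (P c2) (P d2)) := by
    by_cases hlt : d1 < b1
    · exact ⟨!s3, d1, b1, by rw [if_pos hlt], by rw [e3, D24, sg_not, sg_neg]⟩
    · exact ⟨s3, b1, d1, by rw [if_neg hlt], e3⟩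
  rw [hp4] at h ⊢
  dsimp only at h ⊢
  obtain ⟨s5, b3, c3, hp5, e5⟩ : ∃ s5 b3 c3,
      (if c2 < b2 then (!s4, c2, b2) else (s4, b2, c2) : Bool × ℕ × ℕ) = (s5, b3, c3) ∧
      D (P a) (P b) (P c) (P d) = sg s5 (D (P a2) (P b3) (P c3) (P d2)) := by
    by_cases hlt : c2 < b2
    · exact ⟨!s4, c2, b2, by rw [if_pos hlt], by rw [e4, D23, sg_not, sg_neg]⟩
    · exact ⟨s4, b2, c2, by rw [if_neg hlt], e4⟩
  rw [hp5] at h ⊢
  dsimp only at h ⊢
  simp only [Bool.and_eq_true, decide_eq_true_eq] at h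
  obtain ⟨⟨⟨h1, h2⟩, h3⟩, h4⟩ := h
  rw [val_qi P h1 h2 h3 h4]
  exact e5

/-- the key of a difference `D(p,q,c,x) - D(p,q,c,y)` -/
def nT (p q c x y : ℕ) : Bool × Bool × ℕ :=
  if x = c then
    let r := n4 p q c y
    (r.1, !r.2.1, r.2.2)
  else if y = c then n4 p q c x
  else
    let p1 : Bool × ℕ × ℕ := if q < p then (true, q, p) else (false, p, q)
    let a1 := p1.2.1
    let b1 := p1.2.2
    let p2 : Bool × ℕ × ℕ := if c < a1 then (!p1.1, c, a1) else (p1.1, a1, c)
    let a2 := p2.2.1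
    let c1 := p2.2.2
    let p3 : Bool × ℕ × ℕ := if c1 < b1 then (!p2.1, c1, b1) else (p2.1, b1, c1)
    let b2 := p3.2.1
    let c2 := p3.2.2
    (decide (a2 < b2) && decide (b2 < c2) && decide (c2 < 7) && decide (x < y) && decide (y < 7),
      p3.1, tk a2 b2 c2 x y)

theorem T12 (a b c x y : ℕ) : T P a b c x y = -T P b a c x y := by
  unfold T; rw [D12 (P a) (P b) (P c) (P x), D12 (P a) (P b) (P c) (P y)]; ring
theorem T13 (a b c x y : ℕ) : T P a b c x y = -T P c b a x y := by
  unfold T; rw [D13 (P a) (P b) (P c) (P x), D13 (P a) (P b) (P c) (P y)]; ring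
theorem T23 (a b c x y : ℕ) : T P a b c x y = -T P a c b x y := by
  unfold T; rw [D23 (P a) (P b) (P c) (P x), D23 (P a) (P b) (P c) (P y)]; ring

theorem nT_sound {p q c x y : ℕ} (h : (nT p q c x y).1 = true) :
    T P p q c x y = sg (nT p q c x y).2.1 (val P (nT p q c x y).2.2) := by
  unfold nT at h ⊢
  by_cases hx : x = c
  · rw [if_pos hx] at h ⊢
    dsimp only at h ⊢
    rw [sg_not, ← n4_sound P h]
    unfold T
    rw [hx, D33]; ring
  rw [if_neg hx] at h ⊢
  by_cases hy : y = c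
  · rw [if_pos hy] at h ⊢
    rw [← n4_sound P h]
    unfold T
    rw [hy, D33]; ring
  rw [if_neg hy] at h ⊢
  dsimp only at h ⊢
  obtain ⟨s1, a1, b1, hp1, e1⟩ : ∃ s1 a1 b1,
      (if q < p then (true, q, p) else (false, p, q) : Bool × ℕ × ℕ) = (s1, a1, b1) ∧
      T P p q c x y = sg s1 (T P a1 b1 c x y) := by
    by_cases hlt : q < p
    · exact ⟨true, q, p, by rw [if_pos hlt], by rw [T12]; rfl⟩
    · exact ⟨false, p, q, by rw [if_neg hlt], rfl⟩
  rw [hp1] at h ⊢
  dsimp only at h ⊢
  obtain ⟨s2, a2, c1, hp2, e2⟩ : ∃ s2 a2 c1,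
      (if c < a1 then (!s1, c, a1) else (s1, a1, c) : Bool × ℕ × ℕ) = (s2, a2, c1) ∧
      T P p q c x y = sg s2 (T P a2 b1 c1 x y) := by
    by_cases hlt : c < a1
    · exact ⟨!s1, c, a1, by rw [if_pos hlt], by rw [e1, T13, sg_not, sg_neg]⟩
    · exact ⟨s1, a1, c, by rw [if_neg hlt], e1⟩
  rw [hp2] at h ⊢
  dsimp only at h ⊢
  obtain ⟨s3, b2, c2, hp3, e3⟩ : ∃ s3 b2 c2,
      (if c1 < b1 then (!s2, c1, b1) else (s2, b1, c1) : Bool × ℕ × ℕ) = (s3, b2, c2) ∧
      T P p q c x y = sg s3 (T P a2 b2 c2 x y) := by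
    by_cases hlt : c1 < b1
    · exact ⟨!s2, c1, b1, by rw [if_pos hlt], by rw [e2, T23, sg_not, sg_neg]⟩
    · exact ⟨s2, b1, c1, by rw [if_neg hlt], e2⟩
  rw [hp3] at h ⊢
  dsimp only at h ⊢
  simp only [Bool.and_eq_true, decide_eq_true_eq] at h
  obtain ⟨⟨⟨⟨h1, h2⟩, h3⟩, h4⟩, h5⟩ := h
  rw [val_tk P h1 h2 h3 h4 h5]
  exact e3

/-! ### Literals -/

/-- the literal with the code `c` is true -/
def Lit (c : ℕ) : Prop :=
  if c % 6 = 0 then 0 < val P (c / 6)
  else if c % 6 = 1 then ¬ 0 < val P (c / 6)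
  else if c % 6 = 2 then val P (c / 6) < 0
  else if c % 6 = 3 then ¬ val P (c / 6) < 0
  else if c % 6 = 4 then val P (c / 6) = 0
  else ¬ val P (c / 6) = 0

/-- the opposite literal -/
def opp (c : ℕ) : ℕ := bif Nat.beq (c % 2) 0 then c + 1 else c - 1

/-- some literal of the list is true -/
def Sat (l : List ℕ) : Prop := ∃ c ∈ l, Lit P c

/-- the literals which say that the key `k` does not have the sign `v` -/
def litNot (k v : ℕ) : List ℕ :=
  if v = 0 then (if k < 35 then [6 * k] else [6 * k + 3])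
  else if v = 1 then [6 * k, 6 * k + 2] else [6 * k + 1]

theorem lit0 {k : ℕ} : Lit P (6 * k) ↔ 0 < val P k := by
  unfold Lit
  rw [if_pos (by omega), show 6 * k / 6 = k by omega]
theorem lit1 {k : ℕ} : Lit P (6 * k + 1) ↔ ¬ 0 < val P k := by
  unfold Lit
  rw [if_neg (by omega), if_pos (by omega), show (6 * k + 1) / 6 = k by omega]
theorem lit2 {k : ℕ} : Lit P (6 * k + 2) ↔ val P k < 0 := by
  unfold Lit
  rw [if_neg (by omega), if_neg (by omega), if_pos (by omega), show (6 * k + 2) / 6 = k by omega]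
theorem lit3 {k : ℕ} : Lit P (6 * k + 3) ↔ ¬ val P k < 0 := by
  unfold Lit
  rw [if_neg (by omega), if_neg (by omega), if_neg (by omega), if_pos (by omega),
    show (6 * k + 3) / 6 = k by omega]
theorem lit4 {k : ℕ} : Lit P (6 * k + 4) ↔ val P k = 0 := by
  unfold Lit
  rw [if_neg (by omega), if_neg (by omega), if_neg (by omega), if_neg (by omega),
    if_pos (by omega), show (6 * k + 4) / 6 = k by omega]
theorem lit5 {k : ℕ} : Lit P (6 * k + 5) ↔ ¬ val P k = 0 := by
  unfold Lit
  rw [if_neg (by omega), if_neg (by omega), if_neg (by omega), if_neg (by omega),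
    if_neg (by omega), show (6 * k + 5) / 6 = k by omega]

theorem opp_even {c : ℕ} (h : c % 2 = 0) : opp c = c + 1 := by
  unfold opp; rw [h]; rfl

theorem opp_odd {c : ℕ} (h : c % 2 = 1) : opp c = c - 1 := by
  unfold opp; rw [h]; rfl

theorem lit_opp {c : ℕ} (h : Lit P c) : ¬ Lit P (opp c) := by
  obtain ⟨k, r, hr, rfl⟩ : ∃ k r, r < 6 ∧ c = 6 * k + r := ⟨c / 6, c % 6, by omega, by omega⟩
  interval_cases r
  · rw [show opp (6 * k + 0) = 6 * k + 1 by rw [opp_even (by omega)], lit1]
    rw [Nat.add_zero, lit0] at h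
    exact not_not_intro h
  · rw [show opp (6 * k + 1) = 6 * k by rw [opp_odd (by omega)]; omega, lit0]
    rw [lit1] at h
    exact h
  · rw [show opp (6 * k + 2) = 6 * k + 3 by rw [opp_even (by omega)], lit3]
    rw [lit2] at h
    exact not_not_intro h
  · rw [show opp (6 * k + 3) = 6 * k + 2 by rw [opp_odd (by omega)]; omega, lit2]
    rw [lit3] at h
    exact h
  · rw [show opp (6 * k + 4) = 6 * k + 5 by rw [opp_even (by omega)], lit5]
    rw [lit4] at h
    exact not_not_intro h
  · rw [show opp (6 * k + 5) = 6 * k + 4 by rw [opp_odd (by omega)]; omega, lit4]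
    rw [lit5] at h
    exact h

theorem litNot_sound (hgen : ∀ k < 35, val P k ≠ 0) {k v : ℕ} (h : ¬ Sat P (litNot k v)) :
    HasSign (val P k) v := by
  unfold litNot Sat at h
  unfold HasSign
  by_cases h0 : v = 0
  · rw [if_pos h0] at h ⊢
    by_cases hk : k < 35
    · rw [if_pos hk] at h
      simp only [List.mem_singleton, exists_eq_left, lit0] at h
      exact lt_of_le_of_ne (not_lt.mp h) (hgen k hk)
    · rw [if_neg hk] at h
      simp only [List.mem_singleton, exists_eq_left, lit3, not_not] at h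
      exact h
  · rw [if_neg h0] at h ⊢
    by_cases h1 : v = 1
    · rw [if_pos h1] at h ⊢
      simp only [List.mem_cons, List.not_mem_nil, or_false, exists_eq_or_imp, lit0,
        exists_eq_left, lit2, not_or] at h
      exact le_antisymm (not_lt.mp h.1) (not_lt.mp h.2)
    · rw [if_neg h1] at h ⊢
      simp only [List.mem_singleton, exists_eq_left, lit1, not_not] at h
      exact h

theorem sat_append {l l' : List ℕ} : Sat P (l ++ l') ↔ Sat P l ∨ Sat P l' := by
  unfold Sat
  constructor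
  · rintro ⟨c, hc, h⟩
    rw [List.mem_append] at hc
    rcases hc with hc | hc
    · exact Or.inl ⟨c, hc, h⟩
    · exact Or.inr ⟨c, hc, h⟩
  · rintro (⟨c, hc, h⟩ | ⟨c, hc, h⟩)
    · exact ⟨c, List.mem_append_left _ hc, h⟩
    · exact ⟨c, List.mem_append_right _ hc, h⟩

/-! ### The clauses -/

/-- three-term relation `D(p,q,a,b) D(p,q,c,e) - D(p,q,a,c) D(p,q,b,e) + D(p,q,a,e) D(p,q,b,c) = 0`;
`v1, ..., v6` are the signs of the keys -/
def clGP (p q a b c e v1 v2 v3 v4 v5 v6 : ℕ) : Bool × List ℕ :=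
  let r1 := n4 p q a b
  let r2 := n4 p q c e
  let r3 := n4 p q a c
  let r4 := n4 p q b e
  let r5 := n4 p q a e
  let r6 := n4 p q b c
  (r1.1 && r2.1 && r3.1 && r4.1 && r5.1 && r6.1 &&
    bad3 (mulS (sgS r1.2.1 v1) (sgS r2.2.1 v2)) (negS (mulS (sgS r3.2.1 v3) (sgS r4.2.1 v4)))
      (mulS (sgS r5.2.1 v5) (sgS r6.2.1 v6)),
   litNot r1.2.2 v1 ++ (litNot r2.2.2 v2 ++ (litNot r3.2.2 v3 ++ (litNot r4.2.2 v4 ++
     (litNot r5.2.2 v5 ++ litNot r6.2.2 v6)))))

theorem clGP_sound (hgen : ∀ k < 35, val P k ≠ 0) {p q a b c e v1 v2 v3 v4 v5 v6 : ℕ}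
    (h : (clGP p q a b c e v1 v2 v3 v4 v5 v6).1 = true) :
    Sat P (clGP p q a b c e v1 v2 v3 v4 v5 v6).2 := by
  by_contra hcon
  unfold clGP at h hcon
  dsimp only at h hcon
  simp only [Bool.and_eq_true] at h
  obtain ⟨⟨⟨⟨⟨⟨g1, g2⟩, g3⟩, g4⟩, g5⟩, g6⟩, hb⟩ := h
  simp only [sat_append, not_or] at hcon
  obtain ⟨c1, c2, c3, c4, c5, c6⟩ := hcon
  have s1 := hasSign_sg (s := (n4 p q a b).2.1) (litNot_sound P hgen c1)
  have s2 := hasSign_sg (s := (n4 p q c e).2.1) (litNot_sound P hgen c2)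
  have s3 := hasSign_sg (s := (n4 p q a c).2.1) (litNot_sound P hgen c3)
  have s4 := hasSign_sg (s := (n4 p q b e).2.1) (litNot_sound P hgen c4)
  have s5 := hasSign_sg (s := (n4 p q a e).2.1) (litNot_sound P hgen c5)
  have s6 := hasSign_sg (s := (n4 p q b c).2.1) (litNot_sound P hgen c6)
  rw [← n4_sound P g1] at s1
  rw [← n4_sound P g2] at s2
  rw [← n4_sound P g3] at s3
  rw [← n4_sound P g4] at s4
  rw [← n4_sound P g5] at s5
  rw [← n4_sound P g6] at s6
  apply bad3_sound (hasSign_mul s1 s2) (hasSign_neg (hasSign_mul s3 s4)) (hasSign_mul s5 s6) hb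
  have := D_gp (P p) (P q) (P a) (P b) (P c) (P e)
  linarith

/-- the same with `e = x - y` -/
def clGD (p q a b c x y v1 v2 v3 v4 v5 v6 : ℕ) : Bool × List ℕ :=
  let r1 := n4 p q a b
  let r2 := nT p q c x y
  let r3 := n4 p q a c
  let r4 := nT p q b x y
  let r5 := nT p q a x y
  let r6 := n4 p q b c
  (r1.1 && r2.1 && r3.1 && r4.1 && r5.1 && r6.1 &&
    bad3 (mulS (sgS r1.2.1 v1) (sgS r2.2.1 v2)) (negS (mulS (sgS r3.2.1 v3) (sgS r4.2.1 v4)))
      (mulS (sgS r5.2.1 v5) (sgS r6.2.1 v6)),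
   litNot r1.2.2 v1 ++ (litNot r2.2.2 v2 ++ (litNot r3.2.2 v3 ++ (litNot r4.2.2 v4 ++
     (litNot r5.2.2 v5 ++ litNot r6.2.2 v6)))))

theorem clGD_sound (hgen : ∀ k < 35, val P k ≠ 0) {p q a b c x y v1 v2 v3 v4 v5 v6 : ℕ}
    (h : (clGD p q a b c x y v1 v2 v3 v4 v5 v6).1 = true) :
    Sat P (clGD p q a b c x y v1 v2 v3 v4 v5 v6).2 := by
  by_contra hcon
  unfold clGD at h hcon
  dsimp only at h hcon
  simp only [Bool.and_eq_true] at h
  obtain ⟨⟨⟨⟨⟨⟨g1, g2⟩, g3⟩, g4⟩, g5⟩, g6⟩, hb⟩ := h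
  simp only [sat_append, not_or] at hcon
  obtain ⟨c1, c2, c3, c4, c5, c6⟩ := hcon
  have s1 := hasSign_sg (s := (n4 p q a b).2.1) (litNot_sound P hgen c1)
  have s2 := hasSign_sg (s := (nT p q c x y).2.1) (litNot_sound P hgen c2)
  have s3 := hasSign_sg (s := (n4 p q a c).2.1) (litNot_sound P hgen c3)
  have s4 := hasSign_sg (s := (nT p q b x y).2.1) (litNot_sound P hgen c4)
  have s5 := hasSign_sg (s := (nT p q a x y).2.1) (litNot_sound P hgen c5)
  have s6 := hasSign_sg (s := (n4 p q b c).2.1) (litNot_sound P hgen c6)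
  rw [← n4_sound P g1] at s1
  rw [← nT_sound P g2] at s2
  rw [← n4_sound P g3] at s3
  rw [← nT_sound P g4] at s4
  rw [← nT_sound P g5] at s5
  rw [← n4_sound P g6] at s6
  apply bad3_sound (hasSign_mul s1 s2) (hasSign_neg (hasSign_mul s3 s4)) (hasSign_mul s5 s6) hb
  have e1 := D_gp (P p) (P q) (P a) (P b) (P c) (P x)
  have e2 := D_gp (P p) (P q) (P a) (P b) (P c) (P y)
  unfold T
  linear_combination e1 - e2

/-- `T(x,y) - D(x) + D(y) = 0` -/
def clSum (a b c x y v1 v2 v3 : ℕ) : Bool × List ℕ :=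
  let r1 := nT a b c x y
  let r2 := n4 a b c x
  let r3 := n4 a b c y
  (r1.1 && r2.1 && r3.1 && bad3 (sgS r1.2.1 v1) (negS (sgS r2.2.1 v2)) (sgS r3.2.1 v3),
   litNot r1.2.2 v1 ++ (litNot r2.2.2 v2 ++ litNot r3.2.2 v3))

theorem clSum_sound (hgen : ∀ k < 35, val P k ≠ 0) {a b c x y v1 v2 v3 : ℕ}
    (h : (clSum a b c x y v1 v2 v3).1 = true) : Sat P (clSum a b c x y v1 v2 v3).2 := by
  by_contra hcon
  unfold clSum at h hcon
  dsimp only at h hcon
  simp only [Bool.and_eq_true] at h
  obtain ⟨⟨⟨g1, g2⟩, g3⟩, hb⟩ := h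
  simp only [sat_append, not_or] at hcon
  obtain ⟨c1, c2, c3⟩ := hcon
  have s1 := hasSign_sg (s := (nT a b c x y).2.1) (litNot_sound P hgen c1)
  have s2 := hasSign_sg (s := (n4 a b c x).2.1) (litNot_sound P hgen c2)
  have s3 := hasSign_sg (s := (n4 a b c y).2.1) (litNot_sound P hgen c3)
  rw [← nT_sound P g1] at s1
  rw [← n4_sound P g2] at s2
  rw [← n4_sound P g3] at s3
  apply bad3_sound s1 (hasSign_neg s2) s3 hb
  unfold T
  ring

/-- `T(x,y) + T(y,z) - T(x,z) = 0` -/
def clTri (a b c x y z v1 v2 v3 : ℕ) : Bool × List ℕ :=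
  let r1 := nT a b c x y
  let r2 := nT a b c y z
  let r3 := nT a b c x z
  (r1.1 && r2.1 && r3.1 && bad3 (sgS r1.2.1 v1) (sgS r2.2.1 v2) (negS (sgS r3.2.1 v3)),
   litNot r1.2.2 v1 ++ (litNot r2.2.2 v2 ++ litNot r3.2.2 v3))

theorem clTri_sound (hgen : ∀ k < 35, val P k ≠ 0) {a b c x y z v1 v2 v3 : ℕ}
    (h : (clTri a b c x y z v1 v2 v3).1 = true) : Sat P (clTri a b c x y z v1 v2 v3).2 := by
  by_contra hcon
  unfold clTri at h hcon
  dsimp only at h hcon
  simp only [Bool.and_eq_true] at h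
  obtain ⟨⟨⟨g1, g2⟩, g3⟩, hb⟩ := h
  simp only [sat_append, not_or] at hcon
  obtain ⟨c1, c2, c3⟩ := hcon
  have s1 := hasSign_sg (s := (nT a b c x y).2.1) (litNot_sound P hgen c1)
  have s2 := hasSign_sg (s := (nT a b c y z).2.1) (litNot_sound P hgen c2)
  have s3 := hasSign_sg (s := (nT a b c x z).2.1) (litNot_sound P hgen c3)
  rw [← nT_sound P g1] at s1
  rw [← nT_sound P g2] at s2
  rw [← nT_sound P g3] at s3
  apply bad3_sound s1 s2 (hasSign_neg s3) hb
  unfold T
  ring

/-- the condition on the levels -/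
def Lev : Prop := ∀ a b c x y z : ℕ, a < b → b < c → c < 7 → x < y → y < z → z < 7 →
  x ≠ a → x ≠ b → x ≠ c → y ≠ a → y ≠ b → y ≠ c → z ≠ a → z ≠ b → z ≠ c → ∀ s : Bool,
  0 < sg s (D (P a) (P b) (P c) (P x)) → 0 < sg s (D (P a) (P b) (P c) (P y)) →
  0 < sg s (D (P a) (P b) (P c) (P z)) →
  T P a b c x y = 0 ∨ T P a b c y z = 0 ∨ T P a b c x z = 0

/-- among three points on one side (the positive one if `s = 0`) two are on the same level -/
def clLev (a b c x y z s : ℕ) : Bool × List ℕ :=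
  let r1 := n4 a b c x
  let r2 := n4 a b c y
  let r3 := n4 a b c z
  let v := if s = 0 then 2 else 0
  (decide (a < b) && decide (b < c) && decide (c < 7) && decide (x < y) && decide (y < z) &&
    decide (z < 7) && r1.1 && r2.1 && r3.1 && (x != a && x != b && x != c && (y != a && y != b &&
    y != c) && (z != a && z != b && z != c)),
   litNot r1.2.2 (sgS r1.2.1 v) ++ (litNot r2.2.2 (sgS r2.2.1 v) ++
    (litNot r3.2.2 (sgS r3.2.1 v) ++
    [6 * tk a b c x y + 4, 6 * tk a b c y z + 4, 6 * tk a b c x z + 4])))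

theorem pos_of_sign {s : ℕ} {r : Bool} {x : ℝ}
    (h : HasSign x (sgS r (if s = 0 then 2 else 0))) :
    0 < sg (!decide (s = 0)) (sg r x) := by
  unfold HasSign sgS negS at h
  unfold sg
  by_cases hs : s = 0
  · cases r
    · simpa [hs] using h
    · simpa [hs] using h
  · cases r
    · simpa [hs] using h
    · simpa [hs] using h

theorem clLev_sound (hgen : ∀ k < 35, val P k ≠ 0) (hlev : Lev P) {a b c x y z s : ℕ}
    (h : (clLev a b c x y z s).1 = true) : Sat P (clLev a b c x y z s).2 := by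
  by_contra hcon
  unfold clLev at h hcon
  dsimp only at h hcon
  simp only [Bool.and_eq_true, decide_eq_true_eq, bne_iff_ne, ne_eq] at h
  obtain ⟨⟨⟨⟨⟨⟨⟨⟨⟨h1, h2⟩, h3⟩, h4⟩, h5⟩, h6⟩, g1⟩, g2⟩, g3⟩, ⟨⟨⟨⟨x1, x2⟩, x3⟩, ⟨⟨y1, y2⟩, y3⟩⟩,
    ⟨⟨z1, z2⟩, z3⟩⟩⟩ := h
  simp only [sat_append, not_or] at hcon
  obtain ⟨c1, c2, c3, c4⟩ := hcon
  have s1 := pos_of_sign (litNot_sound P hgen c1)
  have s2 := pos_of_sign (litNot_sound P hgen c2)
  have s3 := pos_of_sign (litNot_sound P hgen c3)
  rw [← n4_sound P g1] at s1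
  rw [← n4_sound P g2] at s2
  rw [← n4_sound P g3] at s3
  have hL := hlev a b c x y z h1 h2 h3 h4 h5 h6 x1 x2 x3 y1 y2 y3 z1 z2 z3 _ s1 s2 s3
  apply c4
  unfold Sat
  simp only [List.mem_cons, List.not_mem_nil, or_false, exists_eq_or_imp, lit4,
        exists_eq_left]
  rw [val_tk P h1 h2 h3 h4 (by omega), val_tk P h1 h2 h3 h5 h6, val_tk P h1 h2 h3 (by omega) h6]
  exact hL

/-- the order of the points around the edge `0 1` -/
def Fan : Prop := ∀ i j : ℕ, 2 ≤ i → i < j → j < 7 → 0 < D (P 0) (P 1) (P i) (P j)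

def clFan (i j : ℕ) : Bool × List ℕ :=
  (decide (2 ≤ i) && decide (i < j) && decide (j < 7), [6 * qi 0 1 i j])

theorem clFan_sound (hfan : Fan P) {i j : ℕ} (h : (clFan i j).1 = true) :
    Sat P (clFan i j).2 := by
  unfold clFan at h ⊢
  simp only [Bool.and_eq_true, decide_eq_true_eq] at h
  obtain ⟨⟨h1, h2⟩, h3⟩ := h
  refine ⟨_, List.mem_singleton.mpr rfl, ?_⟩
  rw [lit0, val_qi P (by omega) (by omega) h2 h3]
  exact hfan i j h1 h2 h3

/-- clauses about a single key -/
def clKey (k t : ℕ) : Bool × List ℕ :=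
  (true, if t = 0 then [6 * k + 1, 6 * k + 3] else if t = 1 then [6 * k + 5, 6 * k + 1]
    else if t = 2 then [6 * k + 5, 6 * k + 3] else [6 * k + 4, 6 * k, 6 * k + 2])

theorem clKey_sound {k t : ℕ} : Sat P (clKey k t).2 := by
  unfold clKey Sat
  dsimp only
  split_ifs
  · simp only [List.mem_cons, List.not_mem_nil, or_false, exists_eq_or_imp, lit1, lit3,
        exists_eq_left]
    rcases lt_trichotomy (val P k) 0 with h | h | h
    · left; linarith
    · left; linarith
    · right; linarith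
  · simp only [List.mem_cons, List.not_mem_nil, or_false, exists_eq_or_imp, lit5, lit1,
        exists_eq_left]
    rcases lt_trichotomy (val P k) 0 with h | h | h
    · right; linarith
    · right; linarith
    · left; exact h.ne'
  · simp only [List.mem_cons, List.not_mem_nil, or_false, exists_eq_or_imp, lit5, lit3,
        exists_eq_left]
    rcases lt_trichotomy (val P k) 0 with h | h | h
    · left; exact h.ne
    · right; linarith
    · right; linarith
  · simp only [List.mem_cons, List.not_mem_nil, or_false, exists_eq_or_imp, lit4, lit0, lit2,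
        exists_eq_left]
    rcases lt_trichotomy (val P k) 0 with h | h | h
    · right; right; exact h
    · left; exact h
    · right; left; exact h

/-- description of a clause -/
inductive Cl where
  | gp (p q a b c e v1 v2 v3 v4 v5 v6 : ℕ)
  | gd (p q a b c x y v1 v2 v3 v4 v5 v6 : ℕ)
  | su (a b c x y v1 v2 v3 : ℕ)
  | tr (a b c x y z v1 v2 v3 : ℕ)
  | le (a b c x y z s : ℕ)
  | fa (i j : ℕ)
  | ke (a b c x y t : ℕ)

/-- the clause with the given description -/
def mk : Cl → Bool × List ℕ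
  | .gp p q a b c e v1 v2 v3 v4 v5 v6 => clGP p q a b c e v1 v2 v3 v4 v5 v6
  | .gd p q a b c x y v1 v2 v3 v4 v5 v6 => clGD p q a b c x y v1 v2 v3 v4 v5 v6
  | .su a b c x y v1 v2 v3 => clSum a b c x y v1 v2 v3
  | .tr a b c x y z v1 v2 v3 => clTri a b c x y z v1 v2 v3
  | .le a b c x y z s => clLev a b c x y z s
  | .fa i j => clFan i j
  | .ke a b c x y t => clKey (tk a b c x y) t

theorem mk_sound (hgen : ∀ k < 35, val P k ≠ 0) (hlev : Lev P) (hfan : Fan P) (l : Cl)
    (h : (mk l).1 = true) : Sat P (mk l).2 := by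
  cases l
  · exact clGP_sound P hgen h
  · exact clGD_sound P hgen h
  · exact clSum_sound P hgen h
  · exact clTri_sound P hgen h
  · exact clLev_sound P hgen hlev h
  · exact clFan_sound P hfan h
  · exact clKey_sound P

/-! ### Masks -/

/-- the bit mask of a list of literals -/
def mask : List ℕ → ℕ
  | [] => 0
  | c :: l => (1 <<< c) ||| mask l

theorem testBit_mask (l : List ℕ) (i : ℕ) : (mask l).testBit i = true ↔ i ∈ l := by
  induction l with
  | nil => simp [mask]
  | cons c l ih =>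
    rw [mask, Nat.testBit_or, Bool.or_eq_true, ih, Nat.one_shiftLeft, Nat.testBit_two_pow,
      decide_eq_true_eq, List.mem_cons]
    constructor
    · rintro (h | h)
      · exact Or.inl h.symm
      · exact Or.inr h
    · rintro (h | h)
      · exact Or.inl h.symm
      · exact Or.inr h

/-- some literal of the mask is true -/
def SatM (m : ℕ) : Prop := ∃ c, m.testBit c = true ∧ Lit P c

theorem satM_mask {l : List ℕ} : SatM P (mask l) ↔ Sat P l := by
  unfold SatM Sat
  constructor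
  · rintro ⟨c, h, h'⟩
    exact ⟨c, (testBit_mask l c).mp h, h'⟩
  · rintro ⟨c, h, h'⟩
    exact ⟨c, (testBit_mask l c).mpr h, h'⟩

/-! ### The database -/

/-- binary tree of clauses (masks) -/
inductive Tr where
  | leaf : Tr
  | node : ℕ → Tr → Tr → Tr

def Tr.get : Tr → ℕ → ℕ
  | .leaf, _ => 0
  | .node v l r, n => bif Nat.beq n 0 then v else
      bif Nat.beq (n % 2) 1 then l.get (n / 2) else r.get (n / 2 - 1)

def Tr.set : Tr → ℕ → ℕ → Tr
  | .leaf, _, v => .node v .leaf .leaf
  | .node w l r, n, v => bif Nat.beq n 0 then .node v l r else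
      bif Nat.beq (n % 2) 1 then .node w (l.set (n / 2) v) r else .node w l (r.set (n / 2 - 1) v)

/-- all clauses of the tree are true -/
def Tr.Good : Tr → Prop
  | .leaf => True
  | .node v l r => SatM P v ∧ l.Good ∧ r.Good

theorem Tr.get_good {t : Tr} (h : t.Good P) (n : ℕ) : t.get n = 0 ∨ SatM P (t.get n) := by
  induction t generalizing n with
  | leaf => exact Or.inl rfl
  | node v l r ihl ihr =>
    obtain ⟨h1, h2, h3⟩ := h
    unfold Tr.get
    simp only [Bool.cond_eq_ite]
    split_ifs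
    · exact Or.inr h1
    · exact ihl h2 _
    · exact ihr h3 _

theorem Tr.set_good {t : Tr} (h : t.Good P) (n v : ℕ) (hv : SatM P v) : (t.set n v).Good P := by
  induction t generalizing n with
  | leaf => exact ⟨hv, trivial, trivial⟩
  | node w l r ihl ihr =>
    obtain ⟨h1, h2, h3⟩ := h
    unfold Tr.set
    simp only [Bool.cond_eq_ite]
    split_ifs
    · exact ⟨hv, h2, h3⟩
    · exact ⟨h1, ihl h2 _, h3⟩
    · exact ⟨h1, h2, ihr h3 _⟩

/-! ### Unit propagation with hints -/

/-- `F` is the mask of the literals known to be false; the list contains pairs (clause, propagated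
literal), written one after the other -/
def rup (t : Tr) : ℕ → List ℕ → Bool
  | F, c :: i :: hs =>
    let H := t.get c
    let R := H ^^^ (H &&& F)
    bif Nat.beq R 0 then !(Nat.beq H 0) else Nat.beq R (1 <<< i) && rup t (F ||| (1 <<< opp i)) hs
  | _, _ => false

theorem rup_sound {t : Tr} (ht : t.Good P) : ∀ (n : ℕ) (hs : List ℕ), hs.length ≤ n → ∀ F : ℕ,
    (∀ c, F.testBit c = true → ¬ Lit P c) → rup t F hs = true → False := by
  intro n
  induction n with
  | zero =>
    intro hs hl F hF h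
    have : hs = [] := List.length_eq_zero_iff.mp (by omega)
    subst this
    simp [rup] at h
  | succ n ih =>
    intro hs hl F hF h
    match hs, hl, h with
    | [], _, h => simp [rup] at h
    | [_], _, h => simp [rup] at h
    | c :: i :: hs, hl, h =>
      unfold rup at h
      dsimp only at h
      set H := t.get c with hH
      have hG := Tr.get_good P ht c
      rw [← hH] at hG
      have hR : ∀ j, H.testBit j = true → Lit P j →
          (H ^^^ (H &&& F)).testBit j = true := by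
        intro j hj hjt
        rw [Nat.testBit_xor, Nat.testBit_and, hj]
        cases hFj : F.testBit j
        · rfl
        · exact absurd hjt (hF j hFj)
      simp only [Bool.cond_eq_ite, Nat.beq_eq] at h
      split_ifs at h with h0
      · have hne : H ≠ 0 := by
          intro hz
          rw [hz] at h
          simp at h
        obtain ⟨j, hj, hjt⟩ := hG.resolve_left hne
        have := hR j hj hjt
        rw [h0, Nat.zero_testBit] at this
        exact Bool.false_ne_true this
      · rw [Bool.and_eq_true, Nat.beq_eq] at h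
        obtain ⟨h1, h2⟩ := h
        have hne : H ≠ 0 := by
          intro hz
          rw [hz] at h0
          simp at h0
        obtain ⟨j, hj, hjt⟩ := hG.resolve_left hne
        have hjR := hR j hj hjt
        rw [h1, Nat.one_shiftLeft, Nat.testBit_two_pow, decide_eq_true_eq] at hjR
        subst hjR
        refine ih hs (by simp only [List.length_cons] at hl; omega) _ ?_ h2
        intro c' hc'
        rw [Nat.testBit_or, Bool.or_eq_true, Nat.one_shiftLeft, Nat.testBit_two_pow,
          decide_eq_true_eq] at hc'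
        rcases hc' with hc' | hc'
        · exact hF c' hc'
        · rw [← hc']
          exact lit_opp P hjt

/-! ### The check -/

/-- add the given clauses to the tree -/
def addAll : List Cl → Tr → ℕ → Tr × ℕ
  | [], t, k => (t, k)
  | n :: l, t, k => bif (mk n).1 then addAll l (t.set k (mask (mk n).2)) (k + 1) else (t, k)

theorem addAll_good (hgen : ∀ k < 35, val P k ≠ 0) (hlev : Lev P) (hfan : Fan P) (l : List Cl) :
    ∀ (t : Tr) (k : ℕ), t.Good P → (addAll l t k).1.Good P := by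
  induction l with
  | nil => intro t k h; exact h
  | cons n l ih =>
    intro t k h
    unfold addAll
    cases h1 : (mk n).1
    · exact h
    · exact ih _ _ (Tr.set_good P h _ _ ((satM_mask P).mpr (mk_sound P hgen hlev hfan _ h1)))

/-- the steps of the refutation: clause and hints -/
def steps : List (List ℕ × List ℕ) → Tr → ℕ → Bool
  | [], _, _ => false
  | (C, hs) :: l, t, k =>
      rup t (mask C) hs && (C.isEmpty || steps l (t.set k (mask C)) (k + 1))

theorem steps_sound (l : List (List ℕ × List ℕ)) :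
    ∀ (t : Tr) (k : ℕ), t.Good P → steps l t k = true → False := by
  induction l with
  | nil => intro t k _ h; simp [steps] at h
  | cons n l ih =>
    intro t k ht h
    obtain ⟨C, hs⟩ := n
    unfold steps at h
    rw [Bool.and_eq_true, Bool.or_eq_true] at h
    obtain ⟨h1, h2⟩ := h
    have key : SatM P (mask C) := by
      by_contra hcon
      rw [satM_mask] at hcon
      refine rup_sound P ht _ _ le_rfl _ ?_ h1
      intro c hc hlit
      exact hcon ⟨c, (testBit_mask _ _).mp hc, hlit⟩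
    rcases h2 with h2 | h2
    · rw [satM_mask] at key
      obtain ⟨c, hc, _⟩ := key
      rw [List.isEmpty_iff] at h2
      subst h2
      simp at hc
    · exact ih _ _ (Tr.set_good P ht _ _ key) h2

/-- the whole check -/
def check (base : List Cl) (pf : List (List ℕ × List ℕ)) : Bool :=
  steps pf (addAll base .leaf 0).1 (addAll base .leaf 0).2

theorem check_sound (hgen : ∀ k < 35, val P k ≠ 0) (hlev : Lev P) (hfan : Fan P)
    (base : List Cl) (pf : List (List ℕ × List ℕ)) (h : check base pf = true) : False :=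
  steps_sound P pf _ _ (addAll_good P hgen hlev hfan base .leaf 0 trivial) h

end Pool.Agent.MP4c9d8f.Seven
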