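import Mathlib
import Pool.Agent.MP_4c9d8f_co.SevenCert
import Pool.Agent.MP_4c9d8f_co.Higher2

set_option autoImplicit false

open Finset

namespace Pool.Agent.MP4c9d8f.Seven

/-! ### Seven points of `ℝ^3` in general position are not admissible -/

/-- the affine functional `D a b c` -/
noncomputable def dfun (a b c : Fin 3 → ℝ) : AFun 3 :=
  (((b 1 - a 1) * (c 2 - a 2) - (b 2 - a 2) * (c 1 - a 1)) • LinearMap.proj 0 +
   ((b 2 - a 2) * (c 0 - a 0) - (b 0 - a 0) * (c 2 - a 2)) • LinearMap.proj 1 +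
   ((b 0 - a 0) * (c 1 - a 1) - (b 1 - a 1) * (c 0 - a 0)) • LinearMap.proj 2,
   -(((b 1 - a 1) * (c 2 - a 2) - (b 2 - a 2) * (c 1 - a 1)) * a 0 +
   ((b 2 - a 2) * (c 0 - a 0) - (b 0 - a 0) * (c 2 - a 2)) * a 1 +
   ((b 0 - a 0) * (c 1 - a 1) - (b 1 - a 1) * (c 0 - a 0)) * a 2))

theorem ev_dfun (a b c x : Fin 3 → ℝ) : ev x (dfun a b c) = D a b c x := by
  rw [ev_apply]
  simp only [dfun, LinearMap.add_apply, LinearMap.smul_apply, LinearMap.proj_apply, smul_eq_mul]
  unfold D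
  ring

theorem D_a (a b c : Fin 3 → ℝ) : D a b c a = 0 := by unfold D; ring
theorem D_b (a b c : Fin 3 → ℝ) : D a b c b = 0 := by unfold D; ring

theorem four_zeros {S : Finset (Fin 3 → ℝ)} (hS : GeneralPosition S) (φ : AFun 3)
    {a b c d : Fin 3 → ℝ} (ha : a ∈ S) (hb : b ∈ S) (hc : c ∈ S) (hd : d ∈ S) (hab : a ≠ b)
    (hac : a ≠ c) (had : a ≠ d) (hbc : b ≠ c) (hbd : b ≠ d) (hcd : c ≠ d)
    (ea : ev a φ = 0) (eb : ev b φ = 0) (ec : ev c φ = 0) (ed : ev d φ = 0) : φ = 0 := by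
  classical
  by_contra hne
  have h1 := hS.zeros φ hne
  have h2 : ({a, b, c, d} : Finset (Fin 3 → ℝ)) ⊆ Zr ev S φ := by
    intro x hx
    rw [mem_Zr]
    simp only [Finset.mem_insert, Finset.mem_singleton] at hx
    rcases hx with rfl | rfl | rfl | rfl
    · exact ⟨ha, ea⟩
    · exact ⟨hb, eb⟩
    · exact ⟨hc, ec⟩
    · exact ⟨hd, ed⟩
  have h3 : ({a, b, c, d} : Finset (Fin 3 → ℝ)).card = 4 := by
    rw [Finset.card_insert_of_notMem, Finset.card_insert_of_notMem,
      Finset.card_insert_of_notMem, Finset.card_singleton]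
    · simpa using hcd
    · simp only [Finset.mem_insert, Finset.mem_singleton, not_or]; exact ⟨hbc, hbd⟩
    · simp only [Finset.mem_insert, Finset.mem_singleton, not_or]; exact ⟨hab, hac, had⟩
  have := Finset.card_le_card h2
  omega

theorem D_ne_zero {S : Finset (Fin 3 → ℝ)} (hS : GeneralPosition S)
    {a b c d : Fin 3 → ℝ} (ha : a ∈ S) (hb : b ∈ S) (hc : c ∈ S) (hd : d ∈ S) (hab : a ≠ b)
    (hac : a ≠ c) (had : a ≠ d) (hbc : b ≠ c) (hbd : b ≠ d) (hcd : c ≠ d) : D a b c d ≠ 0 := by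
  intro h0
  set M : Matrix (Fin 4) (Fin 4) ℝ := !![a 0, a 1, a 2, 1; b 0, b 1, b 2, 1; c 0, c 1, c 2, 1;
    d 0, d 1, d 2, 1] with hM
  have hdet : M.det = 0 := by
    have : M.det = -D a b c d := by
      rw [hM]
      unfold D
      simp [Matrix.det_succ_row_zero, Fin.sum_univ_succ, Fin.succAbove]
      ring
    rw [this, h0, neg_zero]
  obtain ⟨v, hv0, hv⟩ := Matrix.exists_mulVec_eq_zero_iff.mpr hdet
  have e0 := congrFun hv 0
  have e1 := congrFun hv 1
  have e2 := congrFun hv 2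
  have e3 := congrFun hv 3
  simp [hM, Matrix.mulVec, dotProduct, Fin.sum_univ_succ] at e0 e1 e2 e3
  set φ : AFun 3 := (v 0 • LinearMap.proj 0 + v 1 • LinearMap.proj 1 + v 2 • LinearMap.proj 2, v 3)
    with hφ
  have hev : ∀ x : Fin 3 → ℝ, ev x φ = v 0 * x 0 + v 1 * x 1 + v 2 * x 2 + v 3 := by
    intro x
    rw [ev_apply]
    simp only [hφ, LinearMap.add_apply, LinearMap.smul_apply, LinearMap.proj_apply, smul_eq_mul]
  have hφ0 : φ = 0 := by
    apply four_zeros hS φ ha hb hc hd hab hac had hbc hbd hcd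
    · rw [hev]; linarith
    · rw [hev]; linarith
    · rw [hev]; linarith
    · rw [hev]; linarith
  apply hv0
  have z : ∀ x : Fin 3 → ℝ, v 0 * x 0 + v 1 * x 1 + v 2 * x 2 + v 3 = 0 := by
    intro x
    rw [← hev, hφ0, map_zero]
  have z0 := z 0
  have z1 := z ![1, 0, 0]
  have z2 := z ![0, 1, 0]
  have z3 := z ![0, 0, 1]
  simp at z0 z1 z2 z3
  funext i
  fin_cases i
  · simp; linarith
  · simp; linarith
  · simp; linarith
  · simp; linarith

theorem exists_facet {S : Finset (Fin 3 → ℝ)} (hS : GeneralPosition S) (hcard : 4 ≤ S.card) :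
    ∃ t₀ t₁ s₁ : Fin 3 → ℝ, t₀ ∈ S ∧ t₁ ∈ S ∧ s₁ ∈ S ∧ t₀ ≠ t₁ ∧ t₀ ≠ s₁ ∧ t₁ ≠ s₁ ∧
      ∀ x ∈ S, x ≠ t₀ → x ≠ t₁ → x ≠ s₁ → 0 < D t₀ t₁ s₁ x := by
  classical
  obtain ⟨φ, hφ0, hφ, hZ⟩ := facet (Φ := AFun 3) ev S 3 (finrank_AFun 3) hS.zeros
    ⟨(0, 1), fun x _ => by rw [ev_apply]; simp⟩ hcard
  obtain ⟨a, b, c, hab, hac, hbc, hZ'⟩ := Finset.card_eq_three.mp hZ
  have hmem : ∀ x, x ∈ Zr ev S φ ↔ x = a ∨ x = b ∨ x = c := by
    intro x; rw [hZ']; simp
  have ha := mem_Zr.mp ((hmem a).mpr (Or.inl rfl))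
  have hb := mem_Zr.mp ((hmem b).mpr (Or.inr (Or.inl rfl)))
  have hc := mem_Zr.mp ((hmem c).mpr (Or.inr (Or.inr rfl)))
  have hpos : ∀ x ∈ S, x ≠ a → x ≠ b → x ≠ c → 0 < ev x φ := by
    intro x hx h1 h2 h3
    rcases lt_or_eq_of_le (hφ x hx) with h | h
    · exact h
    · exfalso
      rcases (hmem x).mp (mem_Zr.mpr ⟨hx, h.symm⟩) with h | h | h
      · exact h1 h
      · exact h2 h
      · exact h3 h
  have hprop : ∀ y ∈ S, y ≠ a → y ≠ b → y ≠ c → ∀ x, D a b c y * ev x φ = ev y φ * D a b c x := by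
    intro y hy h1 h2 h3 x
    have h0 := four_zeros hS (D a b c y • φ - ev y φ • dfun a b c) ha.1 hb.1 hc.1 hy hab hac
      h1.symm hbc h2.symm h3.symm
      (by rw [map_sub, map_smul, map_smul, ev_dfun, D_a, ha.2]; simp)
      (by rw [map_sub, map_smul, map_smul, ev_dfun, D_b, hb.2]; simp)
      (by rw [map_sub, map_smul, map_smul, ev_dfun, D33, hc.2]; simp)
      (by rw [map_sub, map_smul, map_smul, ev_dfun]; simp only [smul_eq_mul]; ring)
    have := congrArg (ev x) h0
    rw [map_sub, map_smul, map_smul, ev_dfun, map_zero, smul_eq_mul, smul_eq_mul, sub_eq_zero]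
      at this
    exact this
  -- a fourth point
  obtain ⟨w, hw, hwZ⟩ : ∃ w ∈ S, w ∉ Zr ev S φ := by
    by_contra hcon
    push Not at hcon
    have := card_le_card (fun x hx => hcon x hx : S ⊆ Zr ev S φ)
    omega
  have hwa : w ≠ a := fun h => hwZ ((hmem w).mpr (Or.inl h))
  have hwb : w ≠ b := fun h => hwZ ((hmem w).mpr (Or.inr (Or.inl h)))
  have hwc : w ≠ c := fun h => hwZ ((hmem w).mpr (Or.inr (Or.inr h)))
  have hwpos := hpos w hw hwa hwb hwc
  have hDw := D_ne_zero hS ha.1 hb.1 hc.1 hw hab hac hwa.symm hbc hwb.symm hwc.symm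
  rcases lt_or_gt_of_ne hDw with h | h
  · refine ⟨b, a, c, hb.1, ha.1, hc.1, hab.symm, hbc, hac, ?_⟩
    intro x hx h1 h2 h3
    rw [D12]
    have h4 := hprop w hw hwa hwb hwc x
    have h5 := hpos x hx h2 h1 h3
    by_contra hcon
    have h6 : 0 ≤ D a b c x := by linarith
    have h7 := mul_nonneg hwpos.le h6
    have h8 := mul_neg_of_neg_of_pos h h5
    linarith
  · refine ⟨a, b, c, ha.1, hb.1, hc.1, hab, hac, hbc, ?_⟩
    intro x hx h1 h2 h3
    have h4 := hprop w hw hwa hwb hwc x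
    have h5 := hpos x hx h1 h2 h3
    have h8 := mul_pos h h5
    rw [h4] at h8
    exact (pos_iff_pos_of_mul_pos h8).mp hwpos

theorem exists_order {S : Finset (Fin 3 → ℝ)} (hS : GeneralPosition S) (hcard : S.card = 7) :
    ∃ P : ℕ → (Fin 3 → ℝ), (∀ i < 7, P i ∈ S) ∧ (∀ i j, i < j → j < 7 → P i ≠ P j) ∧ Fan P := by
  classical
  obtain ⟨t0, t1, s1, h0, h1, h2, h01, h02, h12, hpos⟩ := exists_facet hS (by omega)
  set O := ((S.erase t0).erase t1).erase s1 with hO
  have hmem : ∀ x, x ∈ O ↔ x ∈ S ∧ x ≠ t0 ∧ x ≠ t1 ∧ x ≠ s1 := by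
    intro x
    rw [hO, mem_erase, mem_erase, mem_erase]
    tauto
  have hOc : O.card = 4 := by
    rw [hO, card_erase_of_mem, card_erase_of_mem, card_erase_of_mem h0, hcard]
    · rw [mem_erase]; exact ⟨h01.symm, h1⟩
    · rw [mem_erase, mem_erase]; exact ⟨h12.symm, h02.symm, h2⟩
  obtain ⟨w, hw⟩ : O.Nonempty := by rw [← card_pos]; omega
  have hwO := (hmem w).mp hw
  let e : (Fin 3 → ℝ) → ℝ := fun x => D t0 t1 s1 x
  let κ : (Fin 3 → ℝ) → ℝ := fun x => D t0 t1 w x / e x
  have he : ∀ x ∈ O, 0 < e x := fun x hx =>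
    hpos x ((hmem x).mp hx).1 ((hmem x).mp hx).2.1 ((hmem x).mp hx).2.2.1 ((hmem x).mp hx).2.2.2
  have hκ : ∀ x ∈ O, ∀ y ∈ O, e w * D t0 t1 x y = e x * e y * (κ y - κ x) := by
    intro x hx y hy
    have h3 := (he x hx).ne'
    have h4 := (he y hy).ne'
    have h5 := D_gp t0 t1 s1 w x y
    simp only [κ]
    field_simp
    simp only [e] at *
    linarith
  have hlt : ∀ x ∈ O, ∀ y ∈ O, κ x < κ y → 0 < D t0 t1 x y := by
    intro x hx y hy hxy
    have h3 := hκ x hx y hy
    have h4 : 0 < e x * e y * (κ y - κ x) :=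
      mul_pos (mul_pos (he x hx) (he y hy)) (by linarith)
    rw [← h3] at h4
    exact (pos_iff_pos_of_mul_pos h4).mp (he w hw)
  have hinj : Set.InjOn κ (O : Set (Fin 3 → ℝ)) := by
    intro x hx y hy hxy
    by_contra hne
    have hx' := (hmem x).mp hx
    have hy' := (hmem y).mp hy
    have h3 := hκ x hx y hy
    rw [hxy, sub_self, mul_zero] at h3
    have h4 := D_ne_zero hS h0 h1 hx'.1 hy'.1 h01 hx'.2.1.symm hy'.2.1.symm hx'.2.2.1.symm
      hy'.2.2.1.symm hne
    exact (mul_ne_zero (he w hw).ne' h4) h3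
  have hIc : (O.image κ).card = 4 := by rw [card_image_of_injOn hinj, hOc]
  let t := (O.image κ).orderEmbOfFin hIc
  have ht : ∀ i : Fin 4, ∃ s ∈ O, κ s = t i := fun i =>
    mem_image.mp ((O.image κ).orderEmbOfFin_mem hIc i)
  choose s hsO hsκ using ht
  let P : ℕ → (Fin 3 → ℝ) := fun n => if n = 0 then t0 else if n = 1 then t1 else
    if n = 2 then s1 else if h : n - 3 < 4 then s ⟨n - 3, h⟩ else 0
  have P0 : P 0 = t0 := rfl
  have P1 : P 1 = t1 := rfl
  have P2 : P 2 = s1 := rfl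
  have P3 : ∀ n, 3 ≤ n → ∀ h : n - 3 < 4, P n = s ⟨n - 3, h⟩ := by
    intro n hn h
    simp only [P]
    rw [if_neg (by omega), if_neg (by omega), if_neg (by omega), dif_pos h]
  have hfan : Fan P := by
    intro i j hi hij hj
    rw [P0, P1, P3 j (by omega) (by omega)]
    by_cases hi2 : i = 2
    · rw [hi2, P2]
      exact he _ (hsO _)
    · rw [P3 i (by omega) (by omega)]
      apply hlt _ (hsO _) _ (hsO _)
      rw [hsκ, hsκ]
      apply t.strictMono
      rw [Fin.lt_def]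
      simp only
      omega
  have hPS : ∀ i < 7, P i ∈ S := by
    intro i hi
    by_cases hi3 : 3 ≤ i
    · rw [P3 i hi3 (by omega)]
      exact ((hmem _).mp (hsO _)).1
    · interval_cases i
      · exact h0
      · exact h1
      · exact h2
  refine ⟨P, hPS, ?_, hfan⟩
  intro i j hij hj heq
  by_cases hi2 : 2 ≤ i
  · have := hfan i j hi2 hij hj
    rw [heq, D33] at this
    exact lt_irrefl _ this
  · have hi : i = 0 ∨ i = 1 := by omega
    by_cases hj3 : 3 ≤ j
    · rw [P3 j hj3 (by omega)] at heq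
      have h3 := (hmem _).mp (hsO ⟨j - 3, by omega⟩)
      rcases hi with rfl | rfl
      · exact h3.2.1 heq.symm
      · exact h3.2.2.1 heq.symm
    · have hj' : j = 1 ∨ j = 2 := by omega
      rcases hi with rfl | rfl <;> rcases hj' with rfl | rfl
      · exact h01 heq
      · exact h02 heq
      · omega
      · exact h12 heq

theorem pigeon {A : Finset ℝ} (hA : A.card ≤ 2) {u v w : ℝ} (hu : u ∈ A) (hv : v ∈ A)
    (hw : w ∈ A) : u = v ∨ v = w ∨ u = w := by
  classical
  by_contra hcon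
  push Not at hcon
  obtain ⟨h1, h2, h3⟩ := hcon
  have h4 : ({u, v, w} : Finset ℝ).card = 3 := Finset.card_eq_three.mpr ⟨u, v, w, h1, h3, h2, rfl⟩
  have h5 : ({u, v, w} : Finset ℝ) ⊆ A := by
    intro x hx
    simp only [Finset.mem_insert, Finset.mem_singleton] at hx
    rcases hx with rfl | rfl | rfl
    · exact hu
    · exact hv
    · exact hw
  have := Finset.card_le_card h5
  omega

theorem no_seven {S : Finset (Fin 3 → ℝ)} (hS : GeneralPosition S) (hcard : S.card = 7)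
    (hadm : Admissible S) : False := by
  classical
  obtain ⟨P, hPS, hPne, hfan⟩ := exists_order hS hcard
  have hne : ∀ i j, i < 7 → j < 7 → i ≠ j → P i ≠ P j := by
    intro i j hi hj hij
    rcases Nat.lt_or_gt_of_ne hij with h | h
    · exact hPne i j h hj
    · exact (hPne j i h hi).symm
  have hD : ∀ a b c x, a < 7 → b < 7 → c < 7 → x < 7 → a ≠ b → a ≠ c → a ≠ x → b ≠ c → b ≠ x →
      c ≠ x → D (P a) (P b) (P c) (P x) ≠ 0 := by
    intro a b c x ha hb hc hx h1 h2 h3 h4 h5 h6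
    exact D_ne_zero hS (hPS a ha) (hPS b hb) (hPS c hc) (hPS x hx) (hne a b ha hb h1)
      (hne a c ha hc h2) (hne a x ha hx h3) (hne b c hb hc h4) (hne b x hb hx h5)
      (hne c x hc hx h6)
  refine check_sound P ?_ ?_ hfan base proof check_ok
  · intro k hk
    obtain ⟨h1, h2, h3, h4⟩ := quads_lt k hk
    unfold val
    rw [if_pos hk]
    apply hD <;> omega
  · intro a b c x y z hab hbc hc hxy hyz hz xa xb xc ya yb yc za zb zc s px py pz
    have hφ : dfun (P a) (P b) (P c) ≠ 0 := by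
      intro h
      have h1 := ev_dfun (P a) (P b) (P c) (P x)
      rw [h, map_zero] at h1
      exact hD a b c x (by omega) (by omega) hc (by omega) (by omega) (by omega) xa.symm
        (by omega) xb.symm xc.symm h1.symm
    have hZ : (Zr ev S (dfun (P a) (P b) (P c))).card = 3 := by
      apply le_antisymm (hS.zeros _ hφ)
      have h1 : ({P a, P b, P c} : Finset (Fin 3 → ℝ)) ⊆ Zr ev S (dfun (P a) (P b) (P c)) := by
        intro u hu
        rw [mem_Zr, ev_dfun]
        simp only [Finset.mem_insert, Finset.mem_singleton] at hu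
        rcases hu with rfl | rfl | rfl
        · exact ⟨hPS _ (by omega), D_a _ _ _⟩
        · exact ⟨hPS _ (by omega), D_b _ _ _⟩
        · exact ⟨hPS _ (by omega), D33 _ _ _⟩
      have h2 : ({P a, P b, P c} : Finset (Fin 3 → ℝ)).card = 3 :=
        Finset.card_eq_three.mpr ⟨_, _, _, hne a b (by omega) (by omega) (by omega),
          hne a c (by omega) (by omega) (by omega), hne b c (by omega) (by omega) (by omega), rfl⟩
      have := Finset.card_le_card h1
      omega
    have hA := adm_functional hS (by norm_num) (by omega) hadm _ hφ hZ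
    rw [hcard] at hA
    norm_num at hA
    have hval : ∀ u v w : ℝ, u = v ∨ v = w ∨ u = w → (u - v = 0 ∨ v - w = 0 ∨ u - w = 0) := by
      intro u v w h
      rcases h with h | h | h
      · left; linarith
      · right; left; linarith
      · right; right; linarith
    unfold T
    apply hval
    cases s
    · simp only [sg, Bool.false_eq_true, if_false] at px py pz
      apply pigeon hA.1
      all_goals rw [Finset.mem_image]
      · exact ⟨P x, by rw [mem_filter, ev_dfun]; exact ⟨hPS _ (by omega), px⟩, ev_dfun _ _ _ _⟩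
      · exact ⟨P y, by rw [mem_filter, ev_dfun]; exact ⟨hPS _ (by omega), py⟩, ev_dfun _ _ _ _⟩
      · exact ⟨P z, by rw [mem_filter, ev_dfun]; exact ⟨hPS _ (by omega), pz⟩, ev_dfun _ _ _ _⟩
    · simp only [sg, if_true] at px py pz
      apply pigeon hA.2
      all_goals rw [Finset.mem_image]
      · exact ⟨P x, by rw [mem_filter, ev_dfun]; exact ⟨hPS _ (by omega), by linarith⟩,
          ev_dfun _ _ _ _⟩
      · exact ⟨P y, by rw [mem_filter, ev_dfun]; exact ⟨hPS _ (by omega), by linarith⟩,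
          ev_dfun _ _ _ _⟩
      · exact ⟨P z, by rw [mem_filter, ev_dfun]; exact ⟨hPS _ (by omega), by linarith⟩,
          ev_dfun _ _ _ _⟩

end Pool.Agent.MP4c9d8f.Seven

namespace Pool.Agent.MP4c9d8f

variable {m : ℕ} {S : Finset (Fin m → ℝ)}

theorem higher_card_all (hm : 3 ≤ m) (hS : GeneralPosition S) (hcard : m + 1 ≤ S.card)
    (hadm : Admissible S) : S.card = m + 1 ∨ S.card = m + 2 := by
  rcases higher_card' hm hS hcard hadm with h | h | ⟨rfl, h⟩
  · exact Or.inl h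
  · exact Or.inr h
  · exact (Seven.no_seven hS h hadm).elim

end Pool.Agent.MP4c9d8f
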